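import Pool.Agent.MP_22d5c4_co.Red

namespace Pool.Agent.MP_22d5c4_co.K

open Finset

theorem reflect (Q A : ℕ) (hA : A ≠ 0) (hQ : ∀ p e, p.Prime → p ^ e ∣ A → p ^ e ≤ Q) :
    ∀ (a b : ℕ), 0 < b → b < a → ∀ (f g : ℕ → ℕ → ℕ),
      (∀ u v, u * v = A → f u v ≠ 0 → a * v ≤ b * u ∧ ∀ u' v', u' * v' = A → a * v ≤ b * u' →
        b * u' ≤ a * Q * v → f u v ≤ g u' v') → SD A f ≤ SD A g := by
  induction A using Nat.recOnPrimePow with
  | zero => exact absurd rfl hA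
  | one =>
    intro a b hb hab f g h
    rw [SD_one]
    by_cases h0 : f 1 1 = 0
    · rw [h0]; exact Nat.zero_le _
    · have := (h 1 1 rfl h0).1
      omega
  | prime_pow_mul A1 p n hp hpa hn ih =>
    intro a b hb hab f g h
    have hA1 : A1 ≠ 0 := by rintro rfl; simp at hA
    rw [mul_comm (p ^ n)] at h hQ ⊢
    rw [SD_mul_pp hp hpa, SD_mul_pp hp hpa, SD_sum, SD_sum]
    refine sum_le_sum fun i hi => ?_
    have hi' : i ≤ n := by simpa [Nat.lt_succ_iff] using hi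
    have hpow : p ^ i * p ^ (n - i) = p ^ n := by rw [← pow_add]; congr 1; omega
    have hprod : ∀ u v, u * v = A1 → u * p ^ i * (v * p ^ (n - i)) = A1 * p ^ n := by
      intro u v e
      rw [← e, ← hpow]; ring
    by_cases hc : a * p ^ (n - i) ≤ b * p ^ i
    · rw [SD_swap A1 fun u v => g (u * p ^ i) (v * p ^ (n - i))]
      refine SD_mono fun u v e => ?_
      by_cases h0 : f (u * p ^ i) (v * p ^ (n - i)) = 0
      · rw [h0]; exact Nat.zero_le _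
      refine (h _ _ (hprod u v e) h0).2 _ _ (hprod v u (by rw [mul_comm, e])) ?_ ?_
      · calc a * (v * p ^ (n - i)) = v * (a * p ^ (n - i)) := by ring
          _ ≤ v * (b * p ^ i) := Nat.mul_le_mul_left _ hc
          _ = _ := by ring
      · have h1 : p ^ i ≤ Q := hQ p i hp ((pow_dvd_pow p hi').mul_left _)
        have h2 : 1 ≤ p ^ (n - i) := pow_pos hp.pos _
        calc b * (v * p ^ i) = b * p ^ i * (v * 1) := by ring
          _ ≤ a * Q * (v * p ^ (n - i)) :=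
            Nat.mul_le_mul (Nat.mul_le_mul hab.le h1) (Nat.mul_le_mul_left _ h2)
    · push Not at hc
      refine ih hA1 (fun q e hq hd => hQ q e hq (hd.mul_right _)) (a * p ^ (n - i)) (b * p ^ i)
        (Nat.mul_pos hb (pow_pos hp.pos _)) hc _ _ fun u v e h0 => ?_
      obtain ⟨h1, h2⟩ := h _ _ (hprod u v e) h0
      refine ⟨by linarith [mul_assoc a (p ^ (n - i)) v, mul_comm (p ^ (n - i)) v,
        mul_assoc b (p ^ i) u, mul_comm (p ^ i) u], fun u' v' e' h3 h4 => ?_⟩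
      refine h2 _ _ (hprod u' v' e') ?_ ?_
      · calc a * (v * p ^ (n - i)) = a * p ^ (n - i) * v := by ring
          _ ≤ b * p ^ i * u' := h3
          _ = _ := by ring
      · calc b * (u' * p ^ i) = b * p ^ i * u' := by ring
          _ ≤ a * p ^ (n - i) * Q * v := h4
          _ = _ := by ring

/-- one more prime -/
def stp (p : ℕ) (g : ℕ → ℕ → ℕ) : ℕ → ℕ → ℕ := fun u v => g u (v * p) + g (u * p) v

theorem stp_swap (p : ℕ) (g : ℕ → ℕ → ℕ) (hg : ∀ u v, g u v = g v u) (u v : ℕ) :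
    stp p g u v = stp p g v u := by
  unfold stp
  rw [hg u, hg (u * p), add_comm]

theorem FA_le {p1 p2 p3 p4 : ℕ} (h1 : 256 ≤ p1) (h2 : 256 ≤ p2) (h3 : 256 ≤ p3) (h4 : 256 ≤ p4)
    (X u v : ℕ) :
    stp p1 (stp p2 (stp p3 (stp p4 fun x y => ind (x ≤ X ∧ y ≤ X)))) u v ≤
      ind (u ≤ X ∧ v * (p1 * p2 * p3 * p4) ≤ X) + 4 * ind (256 * u ≤ X) +
        6 * ind (65536 * u ≤ X) + 5 * ind (16777216 * u ≤ X) := by
  have a1 : ∀ {p y : ℕ}, 256 ≤ p → ind (u * p ≤ X ∧ y ≤ X) ≤ ind (256 * u ≤ X) := by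
    intro p y hp
    exact ind_mono fun h => le_trans (by nlinarith) h.1
  have a2 : ∀ {p q y : ℕ}, 256 ≤ p → 256 ≤ q →
      ind (u * p * q ≤ X ∧ y ≤ X) ≤ ind (65536 * u ≤ X) := by
    intro p q y hp hq
    refine ind_mono fun h => le_trans ?_ h.1
    calc 65536 * u = u * 256 * 256 := by ring
      _ ≤ u * p * q := by gcongr
  have a3 : ∀ {p q r y : ℕ}, 256 ≤ p → 256 ≤ q → 256 ≤ r →
      ind (u * p * q * r ≤ X ∧ y ≤ X) ≤ ind (16777216 * u ≤ X) := by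
    intro p q r y hp hq hr
    refine ind_mono fun h => le_trans ?_ h.1
    calc 16777216 * u = u * 256 * 256 * 256 := by ring
      _ ≤ u * p * q * r := by gcongr
  have a4 : ind (u * p1 * p2 * p3 * p4 ≤ X ∧ v ≤ X) ≤ ind (16777216 * u ≤ X) := by
    refine ind_mono fun h => le_trans ?_ h.1
    calc 16777216 * u = u * 256 * 256 * 256 * 1 := by ring
      _ ≤ u * p1 * p2 * p3 * p4 := by gcongr; omega
  have a0 : ind (u ≤ X ∧ v * p1 * p2 * p3 * p4 ≤ X) =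
      ind (u ≤ X ∧ v * (p1 * p2 * p3 * p4) ≤ X) := by simp only [mul_assoc]
  simp only [stp]
  rw [a0]
  linarith [a1 (y := v * p1 * p2 * p3) h4, a1 (y := v * p1 * p2 * p4) h3,
    a1 (y := v * p1 * p3 * p4) h2, a1 (y := v * p2 * p3 * p4) h1,
    a2 (y := v * p1 * p2) h3 h4, a2 (y := v * p1 * p3) h2 h4, a2 (y := v * p1 * p4) h2 h3,
    a2 (y := v * p2 * p3) h1 h4, a2 (y := v * p2 * p4) h1 h3, a2 (y := v * p3 * p4) h1 h2,
    a3 (y := v * p1) h2 h3 h4, a3 (y := v * p2) h1 h3 h4, a3 (y := v * p3) h1 h2 h4,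
    a3 (y := v * p4) h1 h2 h3]

theorem FB_ge {X a u v : ℕ} (huv : v ≤ u) (ha : 64 * 4 ^ a * (u * v) ≤ X ^ 2)
    (ha' : X ^ 2 < 64 * 4 ^ (a + 1) * (u * v)) (i : ℕ) (hi : 8 * 2 ^ i * u ≤ X) :
    i + 1 ≤ ∑ j ∈ range (a + 1), ind (u * 2 ^ j ≤ X / 8 ∧ v * 2 ^ (a - j) ≤ X / 8) := by
  have hia : i ≤ a := by
    by_contra hc
    push Not at hc
    have h1 : (8 * 2 ^ i * u) ^ 2 ≤ X ^ 2 := Nat.pow_le_pow_left hi 2
    have h2 : 4 ^ (a + 1) ≤ 4 ^ i := Nat.pow_le_pow_right (by norm_num) hc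
    have h3 : (8 * 2 ^ i * u) ^ 2 = 64 * 4 ^ i * (u * u) := by
      rw [show (4 : ℕ) = 2 ^ 2 by norm_num, ← pow_mul, mul_comm 2 i, pow_mul]; ring
    have h4 : 64 * 4 ^ (a + 1) * (u * v) ≤ 64 * 4 ^ i * (u * u) := by gcongr
    omega
  have hva : 8 * 2 ^ a * v ≤ X := by
    refine (Nat.pow_le_pow_iff_left (n := 2) (by norm_num)).1 (le_trans ?_ ha)
    have h3 : (8 * 2 ^ a * v) ^ 2 = 64 * 4 ^ a * (v * v) := by
      rw [show (4 : ℕ) = 2 ^ 2 by norm_num, ← pow_mul, mul_comm 2 a, pow_mul]; ring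
    rw [h3]
    gcongr
  calc i + 1 = ∑ j ∈ range (i + 1), 1 := by simp
    _ = ∑ j ∈ range (i + 1), ind (u * 2 ^ j ≤ X / 8 ∧ v * 2 ^ (a - j) ≤ X / 8) := by
        refine sum_congr rfl fun j hj => (ind_pos ⟨?_, ?_⟩).symm
        · rw [Nat.le_div_iff_mul_le (by norm_num)]
          have : 2 ^ j ≤ 2 ^ i := Nat.pow_le_pow_right (by norm_num)
            (by simpa [Nat.lt_succ_iff] using hj)
          nlinarith
        · rw [Nat.le_div_iff_mul_le (by norm_num)]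
          have : 2 ^ (a - j) ≤ 2 ^ a := Nat.pow_le_pow_right (by norm_num) (by omega)
          nlinarith
    _ ≤ _ := sum_le_sum_of_subset (range_mono (by omega))

theorem pointwise {X u v P FA FB : ℕ} (hv : 0 < v) (huv : v ≤ u)
    (hFA : FA ≤ ind (u ≤ X ∧ v * P ≤ X) + 4 * ind (256 * u ≤ X) +
        6 * ind (65536 * u ≤ X) + 5 * ind (16777216 * u ≤ X))
    (hFB : ∀ i, 8 * 2 ^ i * u ≤ X → i + 1 ≤ FB) :
    FA + ind (512 * u ≤ X ∧ 16 * v ≤ X) + ind (512 * v ≤ X ∧ 16 * u ≤ X) ≤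
      FB + ind (X < 8 * u ∧ u ≤ X ∧ v * P ≤ X) := by
  have b0 := hFB 0
  have b1 := hFB 1
  have b5 := hFB 5
  have b6 := hFB 6
  have b13 := hFB 13
  have b21 := hFB 21
  norm_num at b0 b1 b5 b6 b13 b21
  unfold ind at *
  split_ifs at * <;> omega

theorem big_case {A0 p1 p2 p3 p4 Q : ℕ} (hA0 : Odd A0) (hp1 : p1.Prime) (hp2 : p2.Prime)
    (hp3 : p3.Prime) (hp4 : p4.Prime)
    (h1 : 256 ≤ p1) (h2 : 256 ≤ p2) (h3 : 256 ≤ p3) (h4 : 256 ≤ p4)
    (hQ : ∀ p e, p.Prime → p ^ e ∣ A0 → p ^ e ≤ Q) (hP : 8192 * Q ≤ p1 * p2 * p3 * p4) (X : ℕ) :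
    ∃ B, 0 < B ∧ N (A0 * p1 * p2 * p3 * p4) X ≤ N B (X / 8) := by
  have hA0' := hA0.pos
  set P := p1 * p2 * p3 * p4 with hPdef
  have hP128 : 128 ≤ P := by
    calc 128 ≤ 256 * 256 * 256 * 256 := by norm_num
      _ ≤ P := by rw [hPdef]; gcongr
  have hup : N (A0 * p1 * p2 * p3 * p4) X ≤
      SD A0 (stp p1 (stp p2 (stp p3 (stp p4 fun x y => ind (x ≤ X ∧ y ≤ X))))) :=
    (SD_mul_prime_le _ hp4 _).trans <| (SD_mul_prime_le _ hp3 _).trans <|
      (SD_mul_prime_le _ hp2 _).trans <| (SD_mul_prime_le _ hp1 _)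
  by_cases hX : 64 * A0 ≤ X ^ 2
  swap
  · refine ⟨1, one_pos, le_trans (le_of_eq ?_) (Nat.zero_le _)⟩
    unfold N SD
    refine sum_eq_zero fun u hu => ind_neg fun h => hX ?_
    have e := Nat.mul_div_cancel' (Nat.dvd_of_mem_divisors hu)
    have : u * (A0 * p1 * p2 * p3 * p4 / u) ≤ X * X := Nat.mul_le_mul h.1 h.2
    rw [e] at this
    calc 64 * A0 ≤ A0 * P := by nlinarith
      _ = A0 * p1 * p2 * p3 * p4 := by rw [hPdef]; ring
      _ ≤ X ^ 2 := by rw [sq]; exact this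
  have hex : ∃ a, X ^ 2 < 64 * 4 ^ (a + 1) * A0 := by
    refine ⟨X ^ 2, ?_⟩
    have : X ^ 2 + 1 < 4 ^ (X ^ 2 + 1) := Nat.lt_pow_self (by norm_num)
    nlinarith
  classical
  obtain ⟨a, ha, ha'⟩ : ∃ a, 64 * 4 ^ a * A0 ≤ X ^ 2 ∧ X ^ 2 < 64 * 4 ^ (a + 1) * A0 := by
    refine ⟨Nat.find hex, ?_, Nat.find_spec hex⟩
    rcases h : Nat.find hex with _ | c
    · simpa using hX
    · have := Nat.find_min hex (m := c) (by omega)
      omega
  refine ⟨A0 * 2 ^ a, by positivity, hup.trans ?_⟩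
  have hB : N (A0 * 2 ^ a) (X / 8) = SD A0 fun u v =>
      ∑ j ∈ range (a + 1), ind (u * 2 ^ j ≤ X / 8 ∧ v * 2 ^ (a - j) ≤ X / 8) :=
    SD_mul_pp Nat.prime_two hA0.not_two_dvd_nat a _
  have hE : SD A0 (fun u v => ind (X < 8 * u ∧ u ≤ X ∧ v * P ≤ X)) ≤
      SD A0 (fun u v => ind (512 * u ≤ X ∧ 16 * v ≤ X)) := by
    refine reflect Q A0 hA0'.ne' hQ 16 1 one_pos (by norm_num) _ _ fun u v e h0 => ?_
    have h : X < 8 * u ∧ u ≤ X ∧ v * P ≤ X := by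
      by_contra hc
      exact h0 (ind_neg hc)
    have hv : 0 < v := Nat.pos_of_ne_zero (by rintro rfl; simp at e; omega)
    refine ⟨by nlinarith, fun u' v' e' h5 h6 => ind_mono fun _ => ⟨by nlinarith, ?_⟩⟩
    have : 16 * v' * v ≤ u * v := by
      calc 16 * v' * v = 16 * v * v' := by ring
        _ ≤ u' * v' := Nat.mul_le_mul_right _ (by simpa using h5)
        _ = u * v := by rw [e, e']
    have := Nat.le_of_mul_le_mul_right this hv
    omega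
  have hE' := hE
  rw [SD_swap, SD_swap A0 fun u v => ind (512 * u ≤ X ∧ 16 * v ≤ X)] at hE'
  have hsym := stp_swap p1 _ (stp_swap p2 _ (stp_swap p3 _ (stp_swap p4
    (fun x y => ind (x ≤ X ∧ y ≤ X)) fun u v => ind_congr and_comm)))
  have hmain : SD A0 (fun u v =>
      stp p1 (stp p2 (stp p3 (stp p4 fun x y => ind (x ≤ X ∧ y ≤ X)))) u v +
        ind (512 * u ≤ X ∧ 16 * v ≤ X) + ind (512 * v ≤ X ∧ 16 * u ≤ X)) ≤
      SD A0 (fun u v =>
        ∑ j ∈ range (a + 1), ind (u * 2 ^ j ≤ X / 8 ∧ v * 2 ^ (a - j) ≤ X / 8) +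
        ind (X < 8 * u ∧ u ≤ X ∧ v * P ≤ X) + ind (X < 8 * v ∧ v ≤ X ∧ u * P ≤ X)) := by
    refine SD_mono fun u v e => ?_
    have hv : 0 < v := Nat.pos_of_ne_zero (by rintro rfl; simp at e; omega)
    have hu : 0 < u := Nat.pos_of_ne_zero (by rintro rfl; simp at e; omega)
    rcases le_total v u with huv | huv
    · have := pointwise (P := P) hv huv (FA_le h1 h2 h3 h4 X u v)
        (FB_ge huv (e ▸ ha) (e ▸ ha'))
      omega
    · have := pointwise (P := P) hu huv (FA_le h1 h2 h3 h4 X v u)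
        (FB_ge huv (by rw [mul_comm v, e]; exact ha) (by rw [mul_comm v, e]; exact ha'))
      have hs : ∑ j ∈ range (a + 1), ind (v * 2 ^ j ≤ X / 8 ∧ u * 2 ^ (a - j) ≤ X / 8) =
          ∑ j ∈ range (a + 1), ind (u * 2 ^ j ≤ X / 8 ∧ v * 2 ^ (a - j) ≤ X / 8) := by
        rw [← sum_range_reflect]
        refine sum_congr rfl fun j hj => ind_congr ?_
        have hj' : j ≤ a := by simpa [Nat.lt_succ_iff] using hj
        rw [show a + 1 - 1 - j = a - j by omega, show a - (a - j) = j by omega, and_comm]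
      rw [hs, ← hsym u v] at this
      omega
  rw [SD_add, SD_add, SD_add, SD_add] at hmain
  rw [hB]
  omega

end Pool.Agent.MP_22d5c4_co.K
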