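import Pool.Agent.MP_22d5c4_co.Big

namespace Pool.Agent.MP_22d5c4_co.K

open Finset

theorem four_primes {Pn : ℕ} (h : 277 ≤ Pn) : ∃ p3 p4 : ℕ, p3.Prime ∧ p4.Prime ∧ 263 < p3 ∧
    p3 < p4 ∧ p4 < Pn ∧ 8192 * Pn ^ 2 ≤ 257 * 263 * p3 * p4 := by
  by_cases h1 : Pn ≤ 775
  · refine ⟨269, 271, by norm_num, by norm_num, by norm_num, by norm_num, by omega, ?_⟩
    have := Nat.pow_le_pow_left h1 2
    omega
  by_cases h2 : Pn ≤ 2000
  · refine ⟨761, 769, by norm_num, by norm_num, by norm_num, by norm_num, by omega, ?_⟩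
    have := Nat.pow_le_pow_left h2 2
    omega
  obtain ⟨n, hn1, hn2⟩ : ∃ n, 4 * n < Pn ∧ Pn ≤ 4 * n + 4 := ⟨(Pn - 1) / 4, by omega, by omega⟩
  obtain ⟨p3, hp3, a1, a2⟩ := Nat.exists_prime_lt_and_le_two_mul n (by omega)
  obtain ⟨p4, hp4, b1, b2⟩ := Nat.exists_prime_lt_and_le_two_mul (2 * n) (by omega)
  refine ⟨p3, p4, hp3, hp4, by omega, by omega, by omega, ?_⟩
  have e1 : Pn ^ 2 ≤ (4 * n + 4) ^ 2 := Nat.pow_le_pow_left hn2 2
  have e2 : (n + 1) * (2 * n + 1) ≤ p3 * p4 := Nat.mul_le_mul a1 b1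
  have e3 : 400 ≤ n := by omega
  nlinarith

theorem big_red {A Pn : ℕ} (hA : Odd A) (hR : Red A) (hPn : Pn.Prime) (hnd : ¬ Pn ∣ A)
    (hall : ∀ r, r.Prime → r ≠ 2 → r < Pn → r ∣ A) (h277 : 277 ≤ Pn) (X : ℕ) :
    ∃ B, 0 < B ∧ N A X ≤ N B (X / 8) := by
  obtain ⟨p3, p4, hp3, hp4, h1, h2, h3, h4⟩ := four_primes h277
  have hp1 : Nat.Prime 257 := by norm_num
  have hp2 : Nat.Prime 263 := by norm_num
  have d1 := hall 257 hp1 (by norm_num) (by omega)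
  have d2 := hall 263 hp2 (by norm_num) (by omega)
  have d3 := hall p3 hp3 (by omega) (by omega)
  have d4 := hall p4 hp4 (by omega) (by omega)
  have c := fun {p q : ℕ} (hp : p.Prime) (hq : q.Prime) (h : p ≠ q) =>
    (Nat.coprime_primes hp hq).2 h
  have d12 := (c hp1 hp2 (by norm_num)).mul_dvd_of_dvd_of_dvd d1 d2
  have d123 := (Nat.Coprime.mul_left (c hp1 hp3 (by omega))
    (c hp2 hp3 (by omega))).mul_dvd_of_dvd_of_dvd d12 d3
  have d1234 := (Nat.Coprime.mul_left (Nat.Coprime.mul_left (c hp1 hp4 (by omega))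
    (c hp2 hp4 (by omega))) (c hp3 hp4 (by omega))).mul_dvd_of_dvd_of_dvd d123 d4
  obtain ⟨A0, e⟩ := d1234
  have e' : A = A0 * 257 * 263 * p3 * p4 := by rw [e]; ring
  have hA0 : Odd A0 := by
    rw [e] at hA
    exact (Nat.odd_mul.1 hA).2
  rw [e']
  refine big_case (Q := Pn ^ 2) hA0 hp1 hp2 hp3 hp4 (by norm_num) (by norm_num) (by omega)
    (by omega) ?_ h4 X
  intro p k hp hd
  have hd' : p ^ k ∣ A := e ▸ hd.mul_left _
  have hk : k ≤ A.factorization p := (hp.pow_dvd_iff_le_factorization hA.pos.ne').1 hd'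
  have h5 := hR.r2 p Pn hp hPn (by omega) hnd
  calc p ^ k ≤ p ^ ((A.factorization p + 1) / 2 * 2) :=
        Nat.pow_le_pow_right hp.pos (by omega)
    _ = (p ^ ((A.factorization p + 1) / 2)) ^ 2 := by rw [pow_mul]
    _ ≤ Pn ^ 2 := Nat.pow_le_pow_left h5 2

theorem exists_Pn {A : ℕ} (hA : Odd A) : ∃ Pn, Pn.Prime ∧ Pn ≠ 2 ∧ ¬ Pn ∣ A ∧
    ∀ r, r.Prime → r ≠ 2 → r < Pn → r ∣ A := by
  classical
  have hex : ∃ p, p.Prime ∧ p ≠ 2 ∧ ¬ p ∣ A := by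
    obtain ⟨p, h1, h2⟩ := Nat.exists_infinite_primes (A + 3)
    exact ⟨p, h2, by omega, fun h => by have := Nat.le_of_dvd hA.pos h; omega⟩
  obtain ⟨h1, h2, h3⟩ := Nat.find_spec hex
  refine ⟨Nat.find hex, h1, h2, h3, fun r hr hr2 hlt => ?_⟩
  by_contra hc
  exact Nat.find_min hex hlt ⟨hr, hr2, hc⟩

end Pool.Agent.MP_22d5c4_co.K
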