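import Mathlib

namespace Pool.Agent.MP_22d5c4_co.K

open Finset

/-- sum over factorizations `A = u * v` -/
def SD (A : ℕ) (g : ℕ → ℕ → ℕ) : ℕ := ∑ u ∈ A.divisors, g u (A / u)

/-- indicator -/
def ind (p : Prop) [Decidable p] : ℕ := if p then 1 else 0

theorem ind_le_one (p : Prop) [Decidable p] : ind p ≤ 1 := by unfold ind; split_ifs <;> simp

theorem ind_mono {p q : Prop} [Decidable p] [Decidable q] (h : p → q) : ind p ≤ ind q := by
  unfold ind; split_ifs <;> simp_all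

theorem ind_pos {p : Prop} [Decidable p] (h : p) : ind p = 1 := by unfold ind; simp [h]

theorem ind_neg {p : Prop} [Decidable p] (h : ¬ p) : ind p = 0 := by unfold ind; simp [h]

theorem ind_congr {p q : Prop} [Decidable p] [Decidable q] (h : p ↔ q) : ind p = ind q := by
  unfold ind; simp [h]

/-- number of factorizations with both factors at most `X` -/
def N (A X : ℕ) : ℕ := SD A fun u v => ind (u ≤ X ∧ v ≤ X)

theorem SD_mono {A : ℕ} {f g : ℕ → ℕ → ℕ} (h : ∀ u v, u * v = A → f u v ≤ g u v) :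
    SD A f ≤ SD A g :=
  sum_le_sum fun _ hu => h _ _ (Nat.mul_div_cancel' (Nat.dvd_of_mem_divisors hu))

theorem SD_congr {A : ℕ} {f g : ℕ → ℕ → ℕ} (h : ∀ u v, u * v = A → f u v = g u v) :
    SD A f = SD A g :=
  le_antisymm (SD_mono fun u v e => (h u v e).le) (SD_mono fun u v e => (h u v e).ge)

theorem SD_add (A : ℕ) (f g : ℕ → ℕ → ℕ) :
    SD A (fun u v => f u v + g u v) = SD A f + SD A g := by
  simp [SD, sum_add_distrib]

theorem SD_sum {ι : Type*} (A : ℕ) (s : Finset ι) (f : ι → ℕ → ℕ → ℕ) :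
    SD A (fun u v => ∑ i ∈ s, f i u v) = ∑ i ∈ s, SD A (f i) := by
  simp only [SD]; rw [sum_comm]

theorem SD_swap (A : ℕ) (g : ℕ → ℕ → ℕ) : SD A g = SD A fun u v => g v u := by
  unfold SD
  rw [← Nat.sum_div_divisors A (fun u => g u (A / u))]
  refine sum_congr rfl fun u hu => ?_
  rw [Nat.div_div_self (Nat.dvd_of_mem_divisors hu) (Nat.mem_divisors.1 hu).2]

theorem SD_one (g : ℕ → ℕ → ℕ) : SD 1 g = g 1 1 := by simp [SD]

theorem SD_const (A : ℕ) : SD A (fun _ _ => 1) = A.divisors.card := by simp [SD]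

theorem SD_pp {p : ℕ} (hp : p.Prime) (a : ℕ) (g : ℕ → ℕ → ℕ) :
    SD (p ^ a) g = ∑ i ∈ range (a + 1), g (p ^ i) (p ^ (a - i)) := by
  unfold SD
  rw [Nat.sum_divisors_prime_pow hp]
  refine sum_congr rfl fun i hi => ?_
  rw [Nat.pow_div (by simpa [Nat.lt_succ_iff] using hi) hp.pos]

theorem SD_aux (m n : ℕ) (g : ℕ → ℕ → ℕ) :
    ∑ x ∈ m.divisors ×ˢ n.divisors, g (x.1 * x.2) (m * n / (x.1 * x.2)) =
      SD m fun u v => SD n fun x y => g (u * x) (v * y) := by
  unfold SD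
  rw [sum_product]
  refine sum_congr rfl fun u hu => sum_congr rfl fun x hx => ?_
  simp only
  rw [Nat.div_mul_div_comm (Nat.dvd_of_mem_divisors hu) (Nat.dvd_of_mem_divisors hx)]

theorem SD_mul {m n : ℕ} (h : m.Coprime n) (g : ℕ → ℕ → ℕ) :
    SD (m * n) g = SD m fun u v => SD n fun x y => g (u * x) (v * y) := by
  rw [← SD_aux, SD, Nat.divisors_mul, Finset.mul_def, sum_image h.mul_injOn_divisors]

theorem SD_mul_le (m n : ℕ) (g : ℕ → ℕ → ℕ) :
    SD (m * n) g ≤ SD m fun u v => SD n fun x y => g (u * x) (v * y) := by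
  rw [← SD_aux, SD, Nat.divisors_mul, Finset.mul_def]
  exact sum_image_le_of_nonneg (fun _ _ => Nat.zero_le _)

theorem SD_mul_pp {A p : ℕ} (hp : p.Prime) (h : ¬ p ∣ A) (a : ℕ) (g : ℕ → ℕ → ℕ) :
    SD (A * p ^ a) g =
      SD A fun u v => ∑ i ∈ range (a + 1), g (u * p ^ i) (v * p ^ (a - i)) := by
  rw [SD_mul (Nat.Coprime.pow_right a ((Nat.Prime.coprime_iff_not_dvd hp).2 h).symm)]
  exact SD_congr fun u v _ => SD_pp hp a _

theorem SD_mul_prime_le (A : ℕ) {p : ℕ} (hp : p.Prime) (g : ℕ → ℕ → ℕ) :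
    SD (A * p) g ≤ SD A fun u v => g u (v * p) + g (u * p) v := by
  refine (SD_mul_le A p g).trans (SD_mono fun u v _ => ?_)
  have := SD_pp hp 1 (fun x y => g (u * x) (v * y))
  rw [pow_one] at this
  rw [this]
  simp [sum_range_succ]

theorem N_le_card (A X : ℕ) : N A X ≤ A.divisors.card := by
  rw [← SD_const]
  exact SD_mono fun _ _ _ => ind_le_one _

theorem N_eq_card (A X : ℕ) :
    N A X = (A.divisors.filter fun u => u ≤ X ∧ A / u ≤ X).card := by
  rw [card_filter]; rfl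

/-- completely additive weight -/
def lam (w : ℕ → ℕ) (u : ℕ) : ℕ := u.factorization.sum fun p e => e * w p

theorem lam_one (w : ℕ → ℕ) : lam w 1 = 0 := by simp [lam]

theorem lam_mul (w : ℕ → ℕ) {u v : ℕ} (hu : u ≠ 0) (hv : v ≠ 0) :
    lam w (u * v) = lam w u + lam w v := by
  unfold lam
  rw [Nat.factorization_mul hu hv, Finsupp.sum_add_index' (by simp) (by intros; ring)]

theorem lam_pp (w : ℕ → ℕ) {p : ℕ} (hp : p.Prime) (a : ℕ) : lam w (p ^ a) = a * w p := by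
  unfold lam
  rw [hp.factorization_pow, Finsupp.sum_single_index (by simp)]

theorem lam_lower (S : ℕ) (u : ℕ) (hu : u ≠ 0) :
    2 ^ lam (fun p => Nat.log 2 (p ^ S)) u ≤ u ^ S := by
  induction u using Nat.recOnPrimePow with
  | zero => exact absurd rfl hu
  | one => simp [lam_one]
  | prime_pow_mul a p n hp hpa hn ih =>
    have ha : a ≠ 0 := by rintro rfl; simp at hu
    rw [lam_mul _ (pow_ne_zero _ hp.ne_zero) ha, lam_pp _ hp, pow_add, mul_pow]
    refine Nat.mul_le_mul ?_ (ih ha)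
    rw [mul_comm, pow_mul, ← pow_mul p, mul_comm n, pow_mul]
    exact Nat.pow_le_pow_left (Nat.pow_log_le_self 2 (pow_ne_zero _ hp.ne_zero)) _

theorem lam_upper (S : ℕ) (u : ℕ) (hu : u ≠ 0) :
    u ^ S ≤ 2 ^ lam (fun p => Nat.clog 2 (p ^ S)) u := by
  induction u using Nat.recOnPrimePow with
  | zero => exact absurd rfl hu
  | one => simp [lam_one]
  | prime_pow_mul a p n hp hpa hn ih =>
    have ha : a ≠ 0 := by rintro rfl; simp at hu
    rw [lam_mul _ (pow_ne_zero _ hp.ne_zero) ha, lam_pp _ hp, pow_add, mul_pow]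
    refine Nat.mul_le_mul ?_ (ih ha)
    rw [mul_comm n, pow_mul, ← pow_mul p, mul_comm n, pow_mul]
    exact Nat.pow_le_pow_left (Nat.le_pow_clog (by norm_num) _) _

/-- cumulative count -/
def Fc (w : ℕ → ℕ) (A Z i : ℕ) : ℕ := SD A fun _ v => ind (Z ≤ lam w v + i)

theorem Fc_le (w : ℕ → ℕ) (A Z i : ℕ) : Fc w A Z i ≤ A.divisors.card := by
  rw [← SD_const]
  exact SD_mono fun _ _ _ => ind_le_one _

theorem Fc_one (w : ℕ → ℕ) (Z i : ℕ) : Fc w 1 Z i = ind (Z ≤ i) := by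
  simp [Fc, SD_one, lam_one]

theorem Fc_shift (w : ℕ → ℕ) (A : ℕ) {Z Z2 : ℕ} (h : Z2 ≤ Z) (i : ℕ) :
    Fc w A Z (i + (Z - Z2)) = Fc w A Z2 i :=
  SD_congr fun _ _ _ => ind_congr (by omega)

theorem Fc_mul (w : ℕ → ℕ) {A p : ℕ} (hA : A ≠ 0) (hp : p.Prime) (h : ¬ p ∣ A) (e Z i : ℕ) :
    Fc w (A * p ^ e) Z i = ∑ k ∈ range (e + 1), Fc w A Z (i + w p * k) := by
  unfold Fc
  rw [SD_swap, SD_mul_pp hp h, SD_sum]
  refine sum_congr rfl fun k _ => ?_
  rw [SD_swap]
  refine SD_congr fun u v huv => ind_congr ?_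
  have hv : v ≠ 0 := by rintro rfl; simp at huv; exact hA huv.symm
  rw [lam_mul _ hv (pow_ne_zero _ hp.ne_zero), lam_pp _ hp, mul_comm k]
  omega

theorem card_mul_pp {A p : ℕ} (hp : p.Prime) (h : ¬ p ∣ A) (e : ℕ) :
    (A * p ^ e).divisors.card = A.divisors.card * (e + 1) := by
  rw [← SD_const, SD_mul_pp hp h]
  simp [SD]

/-- the count of pairs with both weights at most `x` -/
theorem both_le (w : ℕ → ℕ) {A Z x : ℕ} (hA : A ≠ 0) (h1 : lam w A ≤ 2 * x)
    (h2 : lam w A ≤ x + Z) :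
    SD A (fun u v => ind (lam w u ≤ x ∧ lam w v ≤ x)) + A.divisors.card =
      2 * Fc w A Z (x + Z - lam w A) := by
  have key : ∀ u v, u * v = A → lam w u + lam w v = lam w A := by
    intro u v huv
    have hu : u ≠ 0 := by rintro rfl; simp at huv; exact hA huv.symm
    have hv : v ≠ 0 := by rintro rfl; simp at huv; exact hA huv.symm
    rw [← huv, lam_mul _ hu hv]
  rw [two_mul, ← SD_const, ← SD_add]
  unfold Fc
  nth_rewrite 2 [SD_swap]
  rw [← SD_add]
  refine SD_congr fun u v huv => ?_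
  have := key u v huv
  unfold ind
  split_ifs <;> omega

end Pool.Agent.MP_22d5c4_co.K
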