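import Pool.Agent.MP_22d5c4_co.Dig
import Pool.Agent.MP_22d5c4_co.Cnt

namespace Pool.Agent.MP_22d5c4_co.K

open Finset

def Ach (S x t : ℕ) : Prop := ∀ X, 2 ^ x ≤ X ^ S → ∃ B, 0 < B ∧ t ≤ N B (X / 8)

theorem Ach.mono {S x x' t t' : ℕ} (h : Ach S x t) (hx : x ≤ x') (ht : t' ≤ t) :
    Ach S x' t' := by
  intro X hX
  obtain ⟨B, h1, h2⟩ := h X ((Nat.pow_le_pow_right (by norm_num) hx).trans hX)
  exact ⟨B, h1, ht.trans h2⟩

def TabOK (S K M T nT yo : ℕ) : Prop :=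
  ∀ j < nT, Ach S (yo + j) (M - dig K T j) ∧ dig K T j ≤ M

def Rep (K C ln : ℕ) (f : ℕ → ℕ) : Prop := ∀ i < ln, dig K C i = f i

def wl (S : ℕ) : ℕ → ℕ := fun p => Nat.log 2 (p ^ S)

theorem N_le_both (S : ℕ) {A X : ℕ} (hA : A ≠ 0) :
    N A X ≤ SD A fun u v => ind (lam (wl S) u ≤ Nat.log 2 (X ^ S) ∧
      lam (wl S) v ≤ Nat.log 2 (X ^ S)) := by
  have key : ∀ u, u ≠ 0 → u ≤ X → lam (wl S) u ≤ Nat.log 2 (X ^ S) := by
    intro u hu h
    exact Nat.le_log_of_pow_le (by norm_num)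
      ((lam_lower S u hu).trans (Nat.pow_le_pow_left h S))
  refine SD_mono fun u v e => ind_mono fun h => ⟨key u ?_ h.1, key v ?_ h.2⟩
  · rintro rfl; simp at e; exact hA e.symm
  · rintro rfl; simp at e; exact hA e.symm

theorem N_zero_or (S : ℕ) {A : ℕ} (X : ℕ) (hA : A ≠ 0) :
    N A X = 0 ∨ lam (wl S) A ≤ 2 * Nat.log 2 (X ^ S) := by
  by_contra hc
  push Not at hc
  apply hc.1
  refine Nat.eq_zero_of_le_zero ((N_le_both S hA).trans (le_of_eq ?_))
  refine sum_eq_zero fun u hu => ind_neg fun h => ?_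
  have e := Nat.mul_div_cancel' (Nat.dvd_of_mem_divisors hu)
  have hu0 : u ≠ 0 := by rintro rfl; simp at e; exact hA e.symm
  have hv0 : A / u ≠ 0 := by intro h0; rw [h0] at e; simp at e; exact hA e.symm
  have := lam_mul (wl S) hu0 hv0
  rw [e] at this
  omega

theorem ach_use {S x t A X : ℕ} (h : Ach S x t) (hX : X ^ S ≠ 0) (hx : x ≤ Nat.log 2 (X ^ S))
    (ht : N A X ≤ t) : ∃ B, 0 < B ∧ N A X ≤ N B (X / 8) :=
  h.mono hx ht X (Nat.pow_log_le_self 2 hX)

theorem lp_succ (kl m C2 : ℕ) (ch : ℕ → ℕ → Bool) (n e acc : ℕ) :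
    lp kl m C2 ch (n + 1) e acc =
      an (orr (Nat.blt (e + 1) m) (ch (e + 1) (acc + C2 >>> (kl * (e + 1)))))
        (lp kl m C2 ch n (e + 1) (acc + C2 >>> (kl * (e + 1)))) := rfl

theorem lp_sound {K l m C2 ln d : ℕ} {ch : ℕ → ℕ → Bool} {F : ℕ → ℕ} (hF : Rep K C2 ln F)
    (hb : ∀ i, F i ≤ d) : ∀ n e acc, d * (e + n + 1) < 2 ^ K →
      Rep K acc (ln - e * l) (fun i => ∑ k ∈ range (e + 1), F (i + l * k)) →
      lp (K * l) m C2 ch n e acc = true → ∀ e', e < e' → e' ≤ e + n → m ≤ e' →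
      ∃ acc', Rep K acc' (ln - e' * l) (fun i => ∑ k ∈ range (e' + 1), F (i + l * k)) ∧
        ch e' acc' = true := by
  intro n
  induction n with
  | zero => intro e acc _ _ _ e' h1 h2; omega
  | succ n ih =>
    intro e acc hd hacc h e' h1 h2 h3
    rw [lp_succ, an_eq, orr_eq] at h
    have hrep : Rep K (acc + C2 >>> (K * l * (e + 1))) (ln - (e + 1) * l)
        (fun i => ∑ k ∈ range (e + 1 + 1), F (i + l * k)) := by
      have a1 : ∀ i < ln - (e + 1) * l,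
          dig K (C2 >>> (K * l * (e + 1))) i = F (i + l * (e + 1)) := by
        intro i hi
        rw [Nat.shiftRight_eq_div_pow, mul_assoc, dig_shift]
        refine hF _ ?_
        rw [mul_comm l]
        omega
      have a2 : ∀ i < ln - (e + 1) * l, dig K acc i = ∑ k ∈ range (e + 1), F (i + l * k) := by
        intro i hi
        refine hacc i ?_
        rw [add_mul] at hi
        omega
      intro i hi
      rw [dig_add K (ln - (e + 1) * l) _ _ ?_ i hi, a1 i hi, a2 i hi]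
      · simp only [sum_range_succ _ (e + 1)]
      · intro j hj
        rw [a1 j hj, a2 j hj]
        have b1 : ∑ k ∈ range (e + 1), F (j + l * k) ≤ (e + 1) * d := by
          simpa using sum_le_card_nsmul (range (e + 1)) (fun k => F (j + l * k)) d
            fun _ _ => hb _
        have b2 := hb (j + l * (e + 1))
        nlinarith
    rcases (by omega : e' = e + 1 ∨ e + 1 < e') with rfl | h4
    · refine ⟨_, hrep, h.1.resolve_left ?_⟩
      rw [Nat.blt_eq]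
      omega
    · exact ih (e + 1) _ (by rwa [show e + 1 + n + 1 = e + (n + 1) + 1 by omega]) hrep h.2 e' h4
        (by omega) h3

theorem div_eq' (x y : ℕ) : Nat.div x y = x / y := rfl

theorem land_B1 (K x : ℕ) : x &&& (2 ^ K - 1) = dig K x 0 := by
  rw [Nat.and_two_pow_sub_one_eq_mod, dig_zero]

theorem pow_facts {K : ℕ} (hK : 2 ≤ K) :
    2 ^ K = 4 * (2 ^ (K - 2) - 1 + 1) ∧ 2 ^ (K - 1) = 2 * (2 ^ (K - 2) - 1 + 1) := by
  obtain ⟨c, rfl⟩ := Nat.exists_eq_add_of_le hK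
  have : 0 < 2 ^ c := by positivity
  rw [show 2 + c - 2 = c by omega, show 2 + c - 1 = c + 1 by omega, Nat.sub_add_cancel this]
  constructor <;> ring

theorem dig_comb {K W a b c : ℕ} (hK : 0 < K)
    (h : ∀ i < W, 2 * dig K a i + dig K b i + c < 2 ^ K) :
    ∀ i < W, dig K (2 * a + b + c * ones K W) i = 2 * dig K a i + dig K b i + c := by
  intro i hi
  have hc : c < 2 ^ K := by have := h i hi; omega
  have a1 := dig_add K W a a (fun j hj => by have := h j hj; omega)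
  have a2 := dig_add K W (a + a) b (fun j hj => by have := h j hj; rw [a1 j hj]; omega)
  have a3 := dig_add K W (a + a + b) (c * ones K W) (fun j hj => by
    have := h j hj
    rw [a2 j hj, a1 j hj, dig_ones hK hc W j hj]
    omega)
  rw [two_mul, a3 i hi, a2 i hi, a1 i hi, dig_ones hK hc W i hi]
  omega

theorem leaf_sound {S K W xm d L Z ln C yo nT T A : ℕ} (hK : 2 ≤ K) (hA : A ≠ 0)
    (hd : d = A.divisors.card) (hL : L = lam (wl S) A) (hC : Rep K C ln (Fc (wl S) A Z))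
    (hT : TabOK S K (2 ^ (K - 2) - 1) T nT yo)
    (h : leaf K W xm (2 ^ (K - 2) - 1) (2 ^ K - 1) (ones K W) (ones K W * 2 ^ (K - 1))
      d L Z ln C yo nT T = true) :
    ∀ X, 2 ^ xm ≤ X ^ S → ∃ B, 0 < B ∧ N A X ≤ N B (X / 8) := by
  intro X hX
  obtain ⟨hp1, hp2⟩ := pow_facts hK
  simp only [leaf, frc_eq, an_eq, mx_eq, Nat.ble_eq, Nat.blt_eq, Nat.beq_eq, Nat.add_eq,
    Nat.sub_eq, Nat.mul_eq, div_eq', Nat.land_eq, Nat.shiftRight_eq, Nat.succ_eq_add_one,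
    land_B1, Nat.shiftRight_eq_div_pow, dig_shift] at h
  generalize 2 ^ (K - 2) - 1 = M at *
  obtain ⟨x0, hx0⟩ : ∃ x0, x0 = max xm ((L + 1) / 2) := ⟨_, rfl⟩
  rw [← hx0] at h
  obtain ⟨h1, h2, h3, h4, h5, h6⟩ := h
  have hX0 : X ^ S ≠ 0 := by
    have : 0 < 2 ^ xm := by positivity
    omega
  have hxm : xm ≤ Nat.log 2 (X ^ S) := Nat.le_log_of_pow_le (by norm_num) hX
  rcases N_zero_or S X hA with h0 | h0
  · exact ⟨1, one_pos, by omega⟩
  obtain ⟨x, hx⟩ : ∃ x, x = Nat.log 2 (X ^ S) := ⟨_, rfl⟩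
  by_cases hc : x0 + W ≤ x
  · refine ach_use (hT (0 + W + (x0 - yo)) (by omega)).1 hX0 (by omega) ?_
    have := N_le_card A X
    omega
  · have hv := vec_lt (by omega) h6 (x - x0) (by omega)
    have hb : ∀ i < W, dig K (C / 2 ^ (K * (x0 + Z - L))) i = Fc (wl S) A Z (i + (x0 + Z - L)) := by
      intro i hi
      rw [dig_shift]
      exact hC _ (by omega)
    rw [dig_comb (by omega) ?_ _ (by omega), hb _ (by omega), dig_shift] at hv
    · have ht := hT (x - x0 + (x0 - yo)) (by omega)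
      refine ach_use ht.1 hX0 (by omega) ?_
      have a1 := N_le_both S (X := X) hA
      have a2 := both_le (wl S) (Z := Z) (x := x) hA (by omega) (by omega)
      rw [← hx] at a1
      rw [show x - x0 + (x0 + Z - L) = x + Z - lam (wl S) A by omega] at hv
      omega
    · intro i hi
      rw [hb i hi, dig_shift]
      have a1 := Fc_le (wl S) A Z (i + (x0 + Z - L))
      have a2 := (hT (i + (x0 - yo)) (by omega)).2
      omega

def hdD : List Ent → ℕ
  | [] => 1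
  | t :: _ => t.D

def hdL1 : List Ent → ℕ
  | [] => 0
  | t :: _ => t.L1

def hdL2 : List Ent → ℕ
  | [] => 0
  | t :: _ => t.L2

def OkE (S : ℕ) : List Ent → Prop
  | [] => True
  | t :: E => t.r.Prime ∧ (∀ s ∈ E, s.r < t.r) ∧ t.l = wl S t.r ∧ (t.hi + 1) * hdD E ≤ t.D ∧
      t.L1 ≤ t.lo * t.l + hdL1 E ∧ t.L2 ≤ max t.lo 2 * t.l + hdL2 E ∧ OkE S E

def Cons (e : ℕ → ℕ) : ℕ → List Ent → Prop
  | _, [] => True
  | ep, t :: E => ep ≤ e t.r ∧ t.lo ≤ e t.r ∧ e t.r ≤ t.hi ∧ Cons e (e t.r) E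

def prodE (e : ℕ → ℕ) (E : List Ent) : ℕ := (E.map fun t => t.r ^ e t.r).prod

theorem OkE.prime {S : ℕ} : ∀ {E : List Ent}, OkE S E → ∀ s ∈ E, s.r.Prime
  | [], _, s, hs => by simp at hs
  | t :: E, h, s, hs => by
    rcases List.mem_cons.1 hs with rfl | hs
    · exact h.1
    · exact OkE.prime h.2.2.2.2.2.2 s hs

theorem step_nd {S : ℕ} {t : Ent} {E : List Ent} (h : OkE S (t :: E)) {A : ℕ}
    (hA : ∀ s ∈ t :: E, ¬ s.r ∣ A) (k : ℕ) : ∀ s ∈ E, ¬ s.r ∣ A * t.r ^ k := by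
  intro s hs hd
  have hp := h.2.2.2.2.2.2.prime s hs
  rcases (Nat.Prime.dvd_mul hp).1 hd with hd | hd
  · exact hA s (List.mem_cons_of_mem _ hs) hd
  · have := (Nat.prime_dvd_prime_iff_eq hp h.1).1 (hp.dvd_of_dvd_pow hd)
    have := h.2.1 s hs
    omega

theorem prodE_cons (e : ℕ → ℕ) (t : Ent) (E : List Ent) (A : ℕ) :
    A * prodE e (t :: E) = A * t.r ^ e t.r * prodE e E := by
  simp [prodE, mul_assoc]

theorem prod_bounds (S : ℕ) (e : ℕ → ℕ) : ∀ (E : List Ent) (ep A : ℕ), OkE S E → Cons e ep E →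
    A ≠ 0 → (∀ s ∈ E, ¬ s.r ∣ A) →
    A * prodE e E ≠ 0 ∧ (A * prodE e E).divisors.card ≤ A.divisors.card * hdD E ∧
      lam (wl S) A + hdL1 E ≤ lam (wl S) (A * prodE e E) ∧
      (2 ≤ ep → lam (wl S) A + hdL2 E ≤ lam (wl S) (A * prodE e E))
  | [], ep, A, _, _, hA, _ => by simp [prodE, hdD, hdL1, hdL2, hA]
  | t :: E, ep, A, h, hc, hA, hnd => by
    have hp := h.1
    have hA' : A * t.r ^ e t.r ≠ 0 := mul_ne_zero hA (pow_ne_zero _ hp.ne_zero)
    obtain ⟨a1, a2, a3, a4⟩ := prod_bounds S e E (e t.r) (A * t.r ^ e t.r) h.2.2.2.2.2.2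
      hc.2.2.2 hA' (step_nd h hnd _)
    obtain ⟨-, -, b1, b2, b3, b4, -⟩ := h
    obtain ⟨c1, c2, c3, -⟩ := hc
    rw [card_mul_pp hp (hnd t (by simp))] at a2
    rw [lam_mul _ hA (pow_ne_zero _ hp.ne_zero), lam_pp _ hp, ← b1] at a3 a4
    rw [prodE_cons]
    refine ⟨a1, ?_, ?_, fun h2 => ?_⟩
    · refine a2.trans ?_
      rw [mul_assoc]
      exact Nat.mul_le_mul_left _ ((Nat.mul_le_mul_right _ (by omega)).trans b2)
    · have := Nat.mul_le_mul_right t.l c2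
      simp only [hdL1] at *
      omega
    · have := a4 (by omega)
      have := Nat.mul_le_mul_right t.l (show max t.lo 2 ≤ e t.r by omega)
      simp only [hdL2] at *
      omega

theorem go_sound {S K W xm : ℕ} (hK : 2 ≤ K) (e : ℕ → ℕ) :
    ∀ (E : List Ent) (ep d L Z ln C yo nT T A : ℕ), OkE S E → Cons e ep E → 1 ≤ ep → A ≠ 0 →
      (∀ s ∈ E, ¬ s.r ∣ A) → d = A.divisors.card → L = lam (wl S) A →
      Rep K C ln (Fc (wl S) A Z) → TabOK S K (2 ^ (K - 2) - 1) T nT yo →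
      go K W xm (2 ^ (K - 2) - 1) (2 ^ K - 1) (ones K W) (ones K W * 2 ^ (K - 1)) E
        ep d L Z ln C yo nT T = true →
      ∀ X, 2 ^ xm ≤ X ^ S → ∃ B, 0 < B ∧ N (A * prodE e E) X ≤ N B (X / 8)
  | [], ep, d, L, Z, ln, C, yo, nT, T, A, _, _, _, hA, _, hd, hL, hC, hT, h => by
    simpa [prodE] using leaf_sound (W := W) (xm := xm) hK hA hd hL hC hT h
  | t :: E, ep, d, L, Z, ln, C, yo, nT, T, A, hE, hc, hep, hA, hnd, hd, hL, hC, hT, h => by
    intro X hX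
    have ih := go_sound (S := S) (W := W) (xm := xm) hK e E
    obtain ⟨hp1, hp2⟩ := pow_facts hK
    obtain ⟨a1, a2, a3, a4⟩ := prod_bounds S e (t :: E) ep A hE hc hA hnd
    change node K W xm (2 ^ (K - 2) - 1) (2 ^ K - 1) t
      (go K W xm (2 ^ (K - 2) - 1) (2 ^ K - 1) (ones K W) (ones K W * 2 ^ (K - 1)) E)
      ep d L Z ln C yo nT T = true at h
    generalize go K W xm (2 ^ (K - 2) - 1) (2 ^ K - 1) (ones K W) (ones K W * 2 ^ (K - 1)) E = G
      at h ih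
    simp only [node, frc_eq, an_eq, orr_eq, mx_eq, mn_eq, cn_eq, msk_eq, Nat.ble_eq, Nat.blt_eq,
      Nat.add_eq, Nat.sub_eq, Nat.mul_eq, div_eq', Nat.land_eq, Nat.shiftRight_eq,
      Nat.succ_eq_add_one, Nat.pred_eq_sub_one, land_B1, Nat.shiftRight_eq_div_pow,
      dig_shift] at h
    generalize 2 ^ (K - 2) - 1 = M at *
    obtain ⟨y, hy⟩ : ∃ y, y = max xm ((L + (if 2 ≤ ep then t.L2 else t.L1) + 1) / 2) := ⟨_, rfl⟩
    rw [← hy] at h
    obtain ⟨j, hj⟩ : ∃ j, j = min (y - yo) (nT - 1) := ⟨_, rfl⟩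
    rw [← hj] at h
    obtain ⟨h1, h2, h3, h4⟩ := h
    have hX0 : X ^ S ≠ 0 := by
      have : 0 < 2 ^ xm := by positivity
      omega
    have hxm : xm ≤ Nat.log 2 (X ^ S) := Nat.le_log_of_pow_le (by norm_num) hX
    rcases h4 with h4 | h4
    · rcases N_zero_or S X a1 with h0 | h0
      · exact ⟨1, one_pos, by omega⟩
      refine ach_use (hT (0 + j) (by omega)).1 hX0 ?_ ?_
      · simp only [hdL1, hdL2] at a3 a4
        split_ifs at hy with h5
        · have := a4 h5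
          omega
        · omega
      · have := N_le_card (A * prodE e (t :: E)) X
        simp only [hdD] at a2
        rw [← hd] at a2
        omega
    · obtain ⟨Z2, hZ2⟩ : ∃ Z2, Z2 = min Z ((L + t.Lx) / 2) := ⟨_, rfl⟩
      rw [← hZ2] at h4
      generalize max xm ((L + t.Lx + 1) / 2) = top at h4
      obtain ⟨ln2, hln2⟩ : ∃ ln2, ln2 = min (ln - (Z - Z2)) (top + Z2 - L + W) := ⟨_, rfl⟩
      rw [← hln2] at h4
      obtain ⟨nT2, hnT2⟩ : ∃ nT2, nT2 = min (nT - j) (top - (yo + j) + W + 1) := ⟨_, rfl⟩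
      rw [← hnT2] at h4
      have hC2 : Rep K (C / 2 ^ (K * (Z - Z2)) % 2 ^ (K * ln2)) ln2 (Fc (wl S) A Z2) := by
        intro i hi
        rw [dig_mod _ _ _ _ hi, dig_shift, hC _ (by omega), Fc_shift _ _ (by omega)]
      have hT2 : TabOK S K M (T / 2 ^ (K * j) % 2 ^ (K * nT2)) nT2 (yo + j) := by
        intro i hi
        rw [dig_mod _ _ _ _ hi, dig_shift, add_assoc, add_comm j]
        exact hT _ (by omega)
      obtain ⟨c1, c2, c3, c4⟩ := hc
      obtain ⟨acc, b1, b2⟩ := lp_sound hC2 (fun i => hd ▸ Fc_le _ _ _ i) t.hi 0 _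
        (by rw [zero_add]; omega) (by simpa using hC2) h4 (e t.r) (by omega) (by omega)
        (by omega)
      have hp := hE.1
      rw [prodE_cons]
      refine ih (e t.r) _ _ Z2 _ acc _ nT2 _ _ hE.2.2.2.2.2.2 c4 (by omega)
        (mul_ne_zero hA (pow_ne_zero _ hp.ne_zero)) (step_nd hE hnd _) ?_ ?_ ?_ hT2 b2 X hX
      · rw [card_mul_pp hp (hnd t (by simp)), hd]
      · rw [lam_mul _ hA (pow_ne_zero _ hp.ne_zero), lam_pp _ hp, ← hE.2.2.1, hL]
      · intro i hi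
        rw [b1 i hi, Fc_mul _ hA hp (hnd t (by simp)), ← hE.2.2.1]

theorem run_sound {S K W xm nT T Lx : ℕ} (hK : 2 ≤ K) (e : ℕ → ℕ) (E : List Ent) (hE : OkE S E)
    (hc : Cons e 1 E) (hT : TabOK S K (2 ^ (K - 2) - 1) T nT xm)
    (h : run K W xm nT T Lx E = true) :
    ∀ X, 2 ^ xm ≤ X ^ S → ∃ B, 0 < B ∧ N (prodE e E) X ≤ N B (X / 8) := by
  simp only [run, frc_eq, Nat.shiftLeft_eq] at h
  have := go_sound (S := S) hK e E 1 1 0 _ _ _ xm nT T 1 hE hc le_rfl one_ne_zero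
    (fun s hs => (hE.prime s hs).not_dvd_one) (by simp) (lam_one _).symm ?_ hT h
  · simpa using this
  · intro i hi
    rw [dig_shl, Fc_one, ind]
    split_ifs with h1
    · have := dig_ones (K := K) (c := 1) (by omega) (Nat.one_lt_two_pow (by omega))
        (mx xm ((Lx + 1) / 2) + W) (i - Lx / 2) (by omega)
      rwa [one_mul] at this
    · rfl

end Pool.Agent.MP_22d5c4_co.K
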