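import Pool.Agent.MP_22d5c4_co.KDef

namespace Pool.Agent.MP_22d5c4_co.K

/-- digit in base `2 ^ K` -/
def dig (K C i : ℕ) : ℕ := C / 2 ^ (K * i) % 2 ^ K

theorem dig_zero (K C : ℕ) : dig K C 0 = C % 2 ^ K := by simp [dig]

theorem dig_shift (K C j i : ℕ) : dig K (C / 2 ^ (K * j)) i = dig K C (i + j) := by
  unfold dig
  rw [Nat.div_div_eq_div_mul, ← pow_add, ← mul_add, add_comm j]

theorem dig_succ (K C i : ℕ) : dig K C (i + 1) = dig K (C / 2 ^ K) i := by
  rw [← dig_shift, mul_one]

theorem dig_lt (K C i : ℕ) : dig K C i < 2 ^ K := Nat.mod_lt _ (by positivity)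

theorem dig_add (K n : ℕ) : ∀ a b : ℕ, (∀ i < n, dig K a i + dig K b i < 2 ^ K) →
    ∀ i < n, dig K (a + b) i = dig K a i + dig K b i := by
  induction n with
  | zero => intro a b _ i hi; omega
  | succ n ih =>
    intro a b h i hi
    have h0 := h 0 (by omega)
    rw [dig_zero, dig_zero] at h0
    rcases i with _ | i
    · rw [dig_zero, dig_zero, dig_zero, Nat.add_mod, Nat.mod_eq_of_lt h0]
    · rw [dig_succ, dig_succ, dig_succ, Nat.add_div_eq_of_add_mod_lt h0]
      refine ih _ _ (fun j hj => ?_) i (by omega)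
      rw [← dig_succ, ← dig_succ]
      exact h _ (by omega)

theorem dig_mod (K C m i : ℕ) (hi : i < m) : dig K (C % 2 ^ (K * m)) i = dig K C i := by
  unfold dig
  obtain ⟨c, rfl⟩ := Nat.exists_eq_add_of_lt hi
  rw [show K * (i + c + 1) = K * i + (K + K * c) by ring, pow_add,
    Nat.mod_mul_right_div_self, pow_add, Nat.mod_mul_right_mod]

theorem msk_eq (x n : ℕ) : msk x n = x % 2 ^ n := by
  unfold msk
  simp only [Nat.shiftLeft_eq', Nat.shiftRight_eq, Nat.sub_eq, Nat.shiftLeft_eq,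
    Nat.shiftRight_eq_div_pow]
  rw [Nat.mod_def, mul_comm]

theorem ones_succ {K : ℕ} (hK : 0 < K) (n : ℕ) : ones K (n + 1) = 1 + 2 ^ K * ones K n := by
  have h1 : 1 < 2 ^ K := Nat.one_lt_two_pow (by omega)
  have h2 : 2 ^ K - 1 ∣ 2 ^ (K * n) - 1 := by
    rw [pow_mul]
    simpa using Nat.sub_dvd_pow_sub_pow (2 ^ K) 1 n
  obtain ⟨c, hc⟩ := h2
  have h3 : 0 < 2 ^ (K * n) := by positivity
  unfold ones
  rw [hc, Nat.mul_div_cancel_left _ (by omega)]
  apply Nat.div_eq_of_eq_mul_right (by omega)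
  obtain ⟨t, ht⟩ : ∃ t, 2 ^ K = t + 1 := ⟨2 ^ K - 1, by omega⟩
  have h4 : 2 ^ (K * n) = t * c + 1 := by
    rw [ht] at hc
    simp only [Nat.add_sub_cancel] at hc
    omega
  rw [mul_add, mul_one, pow_add, h4, ht]
  simp only [Nat.add_sub_cancel]
  apply Nat.sub_eq_of_eq_add
  ring

theorem dig_ones {K c : ℕ} (hK : 0 < K) (hc : c < 2 ^ K) (n : ℕ) :
    ∀ i < n, dig K (c * ones K n) i = c := by
  induction n with
  | zero => intro i hi; omega
  | succ n ih =>
    intro i hi
    rw [ones_succ hK, mul_add, mul_one, mul_left_comm]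
    rcases i with _ | i
    · rw [dig_zero, Nat.add_mul_mod_self_left, Nat.mod_eq_of_lt hc]
    · rw [dig_succ, Nat.add_mul_div_left _ _ (by positivity), Nat.div_eq_of_lt hc, zero_add]
      exact ih i (by omega)

theorem dig_shl (K C Z i : ℕ) :
    dig K (C * 2 ^ (K * Z)) i = if Z ≤ i then dig K C (i - Z) else 0 := by
  split_ifs with h
  · obtain ⟨c, rfl⟩ := Nat.exists_eq_add_of_le h
    rw [add_comm Z c, ← dig_shift, Nat.mul_div_cancel _ (by positivity), Nat.add_sub_cancel]
  · push Not at h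
    rw [← dig_mod K _ Z i h, Nat.mul_mod_left]
    simp [dig]

theorem testBit_dig (K C i j : ℕ) (hj : j < K) :
    (dig K C i).testBit j = C.testBit (K * i + j) := by
  unfold dig
  rw [Nat.testBit_mod_two_pow, Nat.testBit_div_two_pow, add_comm j]
  simp [hj]

theorem testBit_H {K W i : ℕ} (hK : 0 < K) (hi : i < W) :
    (ones K W * 2 ^ (K - 1)).testBit (K * i + (K - 1)) = true := by
  rw [← testBit_dig K _ i (K - 1) (by omega), mul_comm,
    dig_ones hK (Nat.pow_lt_pow_right (by norm_num) (by omega)) W i hi]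
  exact Nat.testBit_two_pow_self

theorem vec_lt {K W V : ℕ} (hK : 0 < K) (h : V &&& (ones K W * 2 ^ (K - 1)) = 0) :
    ∀ i < W, dig K V i < 2 ^ (K - 1) := by
  intro i hi
  have h1 := congrArg (fun x => x.testBit (K * i + (K - 1))) h
  simp only [Nat.testBit_and, testBit_H hK hi, Bool.and_true, Nat.zero_testBit] at h1
  rw [← testBit_dig K V i (K - 1) (by omega)] at h1
  by_contra hc
  push Not at hc
  have h2 := dig_lt K V i
  have := Nat.testBit_of_two_pow_le_and_two_pow_add_one_gt hc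
    (by rwa [show K - 1 + 1 = K by omega])
  rw [this] at h1
  exact absurd h1 (by simp)

theorem vec_ge {K W V : ℕ} (hK : 0 < K)
    (h : V &&& (ones K W * 2 ^ (K - 1)) = ones K W * 2 ^ (K - 1)) :
    ∀ i < W, 2 ^ (K - 1) ≤ dig K V i := by
  intro i hi
  have h1 := congrArg (fun x => x.testBit (K * i + (K - 1))) h
  simp only [Nat.testBit_and, testBit_H hK hi, Bool.and_true] at h1
  rw [← testBit_dig K V i (K - 1) (by omega)] at h1
  exact Nat.ge_two_pow_of_testBit h1

theorem an_eq (a b : Bool) : an a b = true ↔ a = true ∧ b = true := by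
  cases a <;> simp [an]

theorem orr_eq (a b : Bool) : orr a b = true ↔ a = true ∨ b = true := by
  cases a <;> simp [orr]

theorem mx_eq (x y : ℕ) : mx x y = max x y := by
  unfold mx
  cases h : Nat.ble x y
  · have : ¬ x ≤ y := by rw [← Nat.ble_eq, h]; simp
    simp only
    omega
  · have : x ≤ y := Nat.le_of_ble_eq_true h
    simp only
    omega

theorem mn_eq (x y : ℕ) : mn x y = min x y := by
  unfold mn
  cases h : Nat.ble x y
  · have : ¬ x ≤ y := by rw [← Nat.ble_eq, h]; simp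
    simp only
    omega
  · have : x ≤ y := Nat.le_of_ble_eq_true h
    simp only
    omega

theorem cn_eq (a : Bool) (x y : ℕ) : cn a x y = if a = true then x else y := by
  cases a <;> simp [cn]

end Pool.Agent.MP_22d5c4_co.K
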