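import Pool.Agent.MP_22d5c4_co.KRun5

namespace Pool.Agent.MP_22d5c4_co.K

set_option maxRecDepth 100000

theorem c257_1 : chk 8 104 128 103 2730 tab8 pl8 257 251 1 = true := by decide +kernel

theorem c257_2 : chk 8 104 128 103 2730 tab8 pl8 257 251 2 = true := by decide +kernel

theorem mid_257 : Mid 257 := mid8 (by norm_num) c257_1 c257_2

theorem c263_1 : chk 8 104 128 103 2730 tab8 pl8 263 257 1 = true := by decide +kernel

theorem c263_2 : chk 8 104 128 103 2730 tab8 pl8 263 257 2 = true := by decide +kernel

theorem mid_263 : Mid 263 := mid8 (by norm_num) c263_1 c263_2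

end Pool.Agent.MP_22d5c4_co.K
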