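import Pool.Agent.MP_22d5c4_co.KRun8
import Pool.Agent.MP_22d5c4_co.KRun7
import Pool.Agent.MP_22d5c4_co.Big2

namespace Pool.Agent.MP_22d5c4_co.K

set_option maxRecDepth 100000

theorem mid_all {Pn : ℕ} (h : Pn < 277) (hp : Pn.Prime) (h2 : Pn ≠ 2) : Mid Pn := by
  have := ((plaOK_sound pl8_ok).2.2 Pn h hp h2).2
  simp only [pl8, List.map_cons, List.map_nil, List.mem_cons, List.not_mem_nil, or_false] at this
  rcases this with rfl | rfl | rfl | rfl | rfl | rfl | rfl | rfl | rfl | rfl | rfl | rfl | rfl | rfl | rfl | rfl | rfl | rfl | rfl | rfl | rfl | rfl | rfl | rfl | rfl | rfl | rfl | rfl | rfl | rfl | rfl | rfl | rfl | rfl | rfl | rfl | rfl | rfl | rfl | rfl | rfl | rfl | rfl | rfl | rfl | rfl | rfl | rfl | rfl | rfl | rfl | rfl | rfl | rfl | rfl | rfl | rfl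
  exacts [mid_3, mid_5, mid_7, mid_11, mid_13, mid_17, mid_19, mid_23, mid_29, mid_31, mid_37, mid_41, mid_43, mid_47, mid_53, mid_59, mid_61, mid_67, mid_71, mid_73, mid_79, mid_83, mid_89, mid_97, mid_101, mid_103, mid_107, mid_109, mid_113, mid_127, mid_131, mid_137, mid_139, mid_149, mid_151, mid_157, mid_163, mid_167, mid_173, mid_179, mid_181, mid_191, mid_193, mid_197, mid_199, mid_211, mid_223, mid_227, mid_229, mid_233, mid_239, mid_241, mid_251, mid_257, mid_263, mid_269, mid_271]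

/-- the key comparison: odd numbers lose a factor 8 -/
theorem star {A X : ℕ} (hA : Odd A) (hX : 8000 ≤ X) : ∃ B, 0 < B ∧ N A X ≤ N B (X / 8) := by
  obtain ⟨A', h1, h2, h3⟩ := reduce A hA
  obtain ⟨Pn, a1, a2, a3, a4⟩ := exists_Pn h1
  obtain ⟨B, b1, b2⟩ : ∃ B, 0 < B ∧ N A' X ≤ N B (X / 8) := by
    by_cases h : Pn < 277
    · exact mid_all h a1 a2 A' h1 h2 a1 a2 a3 a4 X hX
    · exact big_red h1 h2 a1 a3 a4 (by omega) X
  exact ⟨B, b1, (h3 X).trans b2⟩

end Pool.Agent.MP_22d5c4_co.K
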