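import Pool.Agent.MP_22d5c4_co.Small
import Pool.Agent.MP_22d5c4_co.KStar

namespace Pool.Agent.MP_22d5c4_co.K

open Finset

theorem cmp_all {k A D : ℕ} {S : Finset ℕ} (hk : k ≤ D) (hA : A + 1 = 4 * k ^ 2)
    (hS : Conf A S (4 * D)) (h5 : 5 ≤ S.card) : Cmp S.card D := by
  obtain ⟨j, rfl⟩ : ∃ j, k = j + 1 := ⟨k - 1, by
    rcases k with _ | k
    · simp at hA
    · rfl⟩
  have e : A = (2 * j + 1) * (2 * j + 3) := by nlinarith
  by_cases hD : D ≤ 2000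
  · exact chkk_sound (chkk_all (by omega)) hk hD (e ▸ hS) h5
  have hodd : Odd A := ⟨2 * (j + 1) ^ 2 - 1, by omega⟩
  obtain ⟨B, hB, h⟩ := star (X := 4 * D - 1) hodd (by omega)
  rw [N_eq_card, N_eq_card] at h
  refine ⟨B, _, 2 * ((4 * D - 1) / 8), hB, le_trans (card_le_card fun u hu => ?_) h, by omega,
    fun u hu => ?_, fun u hu w hw => ?_⟩
  · obtain ⟨h1, h2⟩ := hS.1 u hu
    have hu0 : 0 < u := Nat.pos_of_dvd_of_pos h1 hodd.pos
    have hv0 : 0 < A / u := Nat.div_pos (Nat.le_of_dvd hodd.pos h1) hu0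
    exact mem_filter.2 ⟨Nat.mem_divisors.2 ⟨h1, hodd.pos.ne'⟩, by omega, by omega⟩
  · obtain ⟨h1, h2, h3⟩ := mem_filter.1 hu
    exact ⟨Nat.dvd_of_mem_divisors h1, by omega⟩
  · obtain ⟨-, -, h3⟩ := mem_filter.1 hu
    obtain ⟨-, h2, -⟩ := mem_filter.1 hw
    have := Nat.zero_le (B / w)
    generalize B / w = y at *
    omega

/-- a set with a unit distance and at least six points has a competitor of smaller diameter -/
theorem better (M : Finset (EuclideanSpace ℝ (Fin 2))) (h6 : 6 ≤ M.card)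
    (hint : ∀ R ∈ M, ∀ S ∈ M, ∃ z : ℤ, dist R S = z)
    (hcol : ¬ Collinear ℝ (M : Set (EuclideanSpace ℝ (Fin 2))))
    {P Q : EuclideanSpace ℝ (Fin 2)} (hP : P ∈ M) (hQ : Q ∈ M) (hPQ : dist P Q = 1) :
    ∃ M' : Finset (EuclideanSpace ℝ (Fin 2)), M'.card = M.card ∧
      (∀ R ∈ M', ∀ T ∈ M', ∃ z : ℤ, dist R T = z) ∧
      ¬ Collinear ℝ (M' : Set (EuclideanSpace ℝ (Fin 2))) ∧
      Metric.diam (M' : Set (EuclideanSpace ℝ (Fin 2))) <
        Metric.diam (M : Set (EuclideanSpace ℝ (Fin 2))) := by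
  set δ := Metric.diam (M : Set (EuclideanSpace ℝ (Fin 2))) with hδ
  have hδ0 : 0 ≤ δ := Metric.diam_nonneg
  have hD : ∀ R ∈ M, ∀ S ∈ M, dist R S ≤ (⌊δ⌋₊ : ℕ) := by
    intro R hR S hS
    obtain ⟨z, hz⟩ := hint R hR S hS
    have h1 : dist R S ≤ δ := Metric.dist_le_diam_of_mem M.finite_toSet.isBounded hR hS
    have h2 : 0 ≤ z := by
      have : (0 : ℝ) ≤ z := hz ▸ dist_nonneg
      exact_mod_cast this
    obtain ⟨m, rfl⟩ := Int.eq_ofNat_of_zero_le h2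
    rw [hz] at h1 ⊢
    have h3 : m ≤ ⌊δ⌋₊ := Nat.le_floor (by exact_mod_cast h1)
    exact_mod_cast h3
  obtain ⟨k, A, S, hk, hA, hS1, hS⟩ := structure2 M hint hcol hP hQ hPQ _ hD
  obtain ⟨B, S', D', hB, hle, hlt, hC⟩ := cmp_all hk hA hS (by omega)
  obtain ⟨S'', hsub, hcard⟩ := Finset.exists_subset_card_eq hle
  obtain ⟨M', hM1, hM2, hM3, hM4⟩ := competitor2 (Y := D') hB S'' (by omega)
    ⟨fun u hu => hC.1 u (hsub hu), fun u hu w hw => hC.2 u (hsub hu) w (hsub hw)⟩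
  refine ⟨M', by omega, hM2, hM3, ?_⟩
  calc _ ≤ (D' : ℝ) := Metric.diam_le_of_forall_dist_le (by positivity)
        fun R hR T hT => hM4 R hR T hT
    _ < (⌊δ⌋₊ : ℕ) := by exact_mod_cast hlt
    _ ≤ δ := Nat.floor_le hδ0

end Pool.Agent.MP_22d5c4_co.K
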