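import Pool.Agent.MP_22d5c4_co.NT3

namespace Pool.Agent.MP_22d5c4_co

open Finset

theorem dist_sq_eq (R S : EuclideanSpace ℝ (Fin 2)) :
    dist R S ^ 2 = (R 0 - S 0) ^ 2 + (R 1 - S 1) ^ 2 := by
  rw [EuclideanSpace.dist_eq, Real.sq_sqrt (by positivity)]
  simp [Fin.sum_univ_two, Real.dist_eq, sq_abs]

theorem not_sq (k μ z : ℤ) (hμ : μ ≠ 0) (h : z ^ 2 = μ ^ 2 * (4 * k ^ 2 - 1)) : False := by
  have h1 : μ ^ 2 ∣ z ^ 2 := ⟨_, h⟩
  obtain ⟨w, rfl⟩ := (Int.pow_dvd_pow_iff (by norm_num)).1 h1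
  have h2 : w ^ 2 = 4 * k ^ 2 - 1 := by
    have h3 : μ ^ 2 * w ^ 2 = μ ^ 2 * (4 * k ^ 2 - 1) := by rw [← h]; ring
    exact mul_left_cancel₀ (pow_ne_zero 2 hμ) h3
  have h4 : w ^ 2 % 4 = 0 ∨ w ^ 2 % 4 = 1 := by
    rcases Int.emod_two_eq_zero_or_one w with h5 | h5
    · left
      obtain ⟨c, hc⟩ : ∃ c, w = 2 * c := ⟨w / 2, by omega⟩
      rw [hc, show (2 * c) ^ 2 = 4 * c ^ 2 by ring]; omega
    · right
      obtain ⟨c, hc⟩ : ∃ c, w = 2 * c + 1 := ⟨w / 2, by omega⟩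
      rw [hc, show (2 * c + 1) ^ 2 = 4 * (c ^ 2 + c) + 1 by ring]; omega
  omega

/-- coordinates adapted to a unit segment -/
theorem coords (P Q : EuclideanSpace ℝ (Fin 2)) (hPQ : dist P Q = 1) :
    ∃ s h : EuclideanSpace ℝ (Fin 2) → ℝ,
      (∀ R S, dist R S ^ 2 = (s R - s S) ^ 2 + (h R - h S) ^ 2) ∧
      s P = -1 / 2 ∧ h P = 0 ∧ s Q = 1 / 2 ∧ h Q = 0 ∧
      ∀ R, h R = 0 → R = (s R + 1 / 2) • (Q - P) +ᵥ P := by
  have he : (Q 0 - P 0) ^ 2 + (Q 1 - P 1) ^ 2 = 1 := by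
    have := dist_sq_eq P Q
    rw [hPQ] at this
    nlinarith
  refine ⟨fun R => (R 0 - P 0) * (Q 0 - P 0) + (R 1 - P 1) * (Q 1 - P 1) - 1 / 2,
    fun R => (R 1 - P 1) * (Q 0 - P 0) - (R 0 - P 0) * (Q 1 - P 1), ?_, ?_, ?_, ?_, ?_, ?_⟩
  · intro R S
    rw [dist_sq_eq]
    linear_combination (-(R 0 - S 0) ^ 2 - (R 1 - S 1) ^ 2) * he
  · simp only; ring
  · simp only; ring
  · simp only; linear_combination he
  · simp only; ring
  · intro R hR
    simp only at hR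
    ext i
    fin_cases i
    · simp
      linear_combination (-(R 0 - P 0)) * he - (Q 1 - P 1) * hR
    · simp
      linear_combination (-(R 1 - P 1)) * he + (Q 0 - P 0) * hR

theorem structure_lemma (M : Finset (EuclideanSpace ℝ (Fin 2)))
    (hint : ∀ R ∈ M, ∀ S ∈ M, ∃ z : ℤ, dist R S = z)
    (hcol : ¬ Collinear ℝ (M : Set (EuclideanSpace ℝ (Fin 2))))
    {P Q : EuclideanSpace ℝ (Fin 2)} (hP : P ∈ M) (hQ : Q ∈ M) (hPQ : dist P Q = 1)
    (D : ℝ) (hD : ∀ R ∈ M, ∀ S ∈ M, dist R S ≤ D) :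
    ∃ (A : ℕ) (S : Finset ℕ), Odd A ∧ S.card + 1 = M.card ∧
      ∀ u ∈ S, u ∣ A ∧ (u : ℝ) ≤ 4 * D ∧ ((A / u : ℕ) : ℝ) ≤ 4 * D := by
  classical
  obtain ⟨s, h, hd, hsP, hhP, hsQ, hhQ, hline⟩ := coords P Q hPQ
  -- dichotomy
  have hdich : ∀ R ∈ M, h R ≠ 0 → s R = 0 ∧ ∃ k : ℤ, (2 * h R) ^ 2 = 4 * (k : ℝ) ^ 2 - 1 := by
    intro R hR hh
    obtain ⟨a, ha⟩ := hint R hR P hP
    obtain ⟨b, hb⟩ := hint R hR Q hQ
    have h1 := hd R P
    have h2 := hd R Q
    rw [ha, hsP, hhP] at h1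
    rw [hb, hsQ, hhQ] at h2
    have t1 : (a : ℝ) ≤ b + 1 := by
      have := dist_triangle R Q P
      rw [ha, hb, dist_comm Q P, hPQ] at this; exact this
    have t2 : (b : ℝ) ≤ a + 1 := by
      have := dist_triangle R P Q
      rw [ha, hb, hPQ] at this; exact this
    have t1' : a ≤ b + 1 := by exact_mod_cast t1
    have t2' : b ≤ a + 1 := by exact_mod_cast t2
    have hpos : 0 < h R ^ 2 := by positivity
    rcases (by omega : a = b ∨ a = b + 1 ∨ b = a + 1) with e | e | e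
    · subst e
      have hs : s R = 0 := by nlinarith
      refine ⟨hs, a, ?_⟩
      rw [hs] at h1
      nlinarith
    · exfalso
      have e' : (a : ℝ) = b + 1 := by exact_mod_cast e
      rw [e'] at h1
      have hs : s R = b + 1 / 2 := by nlinarith
      rw [hs] at h2
      nlinarith
    · exfalso
      have e' : (b : ℝ) = a + 1 := by exact_mod_cast e
      rw [e'] at h2
      have hs : s R = -a - 1 / 2 := by nlinarith
      rw [hs] at h1
      nlinarith
  obtain ⟨R0, hR0, hh0⟩ : ∃ R0 ∈ M, h R0 ≠ 0 := by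
    by_contra hc
    push Not at hc
    apply hcol
    rw [collinear_iff_of_mem (p₀ := P) (by exact_mod_cast hP)]
    exact ⟨Q - P, fun R hR => ⟨_, hline R (hc R hR)⟩⟩
  obtain ⟨hs0, k, hk⟩ := hdich R0 hR0 hh0
  have huniq : ∀ R ∈ M, R ≠ R0 → h R = 0 := by
    intro R hR hne
    by_contra hh
    obtain ⟨hs1, k1, hk1⟩ := hdich R hR hh
    obtain ⟨m, hm⟩ := hint R hR R0 hR0
    have hm0 : m ≠ 0 := by
      rintro rfl
      exact hne (by simpa using hm)
    have h1 := hd R R0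
    rw [hm, hs1, hs0] at h1
    have h2 : (h R - h R0) = m ∨ (h R - h R0) = -m := by
      apply sq_eq_sq_iff_eq_or_eq_neg.1
      linarith
    obtain ⟨μ, hμ0, hμ⟩ : ∃ μ : ℤ, μ ≠ 0 ∧ h R - h R0 = μ := by
      rcases h2 with e | e
      · exact ⟨m, hm0, e⟩
      · exact ⟨-m, neg_ne_zero.2 hm0, by rw [e]; push_cast; rfl⟩
    have h3 : (μ : ℝ) * (2 * h R0) = (k1 : ℝ) ^ 2 - k ^ 2 - μ ^ 2 := by
      have : h R = h R0 + μ := by linarith
      rw [this] at hk1
      nlinarith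
    apply not_sq k μ (k1 ^ 2 - k ^ 2 - μ ^ 2) hμ0
    have h4 : ((k1 : ℝ) ^ 2 - k ^ 2 - μ ^ 2) ^ 2 = μ ^ 2 * (4 * (k : ℝ) ^ 2 - 1) := by
      rw [← h3, ← hk]; ring
    exact_mod_cast h4
  have hApos : 0 < 4 * k ^ 2 - 1 := by
    have : (0 : ℝ) < 4 * (k : ℝ) ^ 2 - 1 := by rw [← hk]; positivity
    exact_mod_cast this
  obtain ⟨A, hA⟩ := Int.eq_ofNat_of_zero_le hApos.le
  have hAR : (A : ℝ) = (2 * h R0) ^ 2 := by
    rw [hk]
    have : ((4 * k ^ 2 - 1 : ℤ) : ℝ) = (A : ℝ) := by rw [hA]; simp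
    rw [← this]; push_cast; ring
  have hAodd : Odd A := by
    have : Odd (A : ℤ) := ⟨2 * k ^ 2 - 1, by rw [← hA]; ring⟩
    exact_mod_cast this
  have hrep : ∀ R ∈ M.erase R0, ∃ u v : ℕ, u * v = A ∧ (u : ℝ) ≤ 4 * D ∧ (v : ℝ) ≤ 4 * D ∧
      4 * s R = v - u := by
    intro R hR'
    obtain ⟨hne, hR⟩ := mem_erase.1 hR'
    have hh := huniq R hR hne
    obtain ⟨b, hb⟩ := hint R hR Q hQ
    obtain ⟨t, ht⟩ := hint R hR R0 hR0
    have h1 := hd R Q
    have h2 := hd R R0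
    rw [hb, hsQ, hhQ, hh] at h1
    rw [ht, hs0, hh] at h2
    have h3 : s R - 1 / 2 = b ∨ s R - 1 / 2 = -b := by
      apply sq_eq_sq_iff_eq_or_eq_neg.1
      linarith
    obtain ⟨m, hm⟩ : ∃ m : ℤ, 2 * s R = m := by
      rcases h3 with e | e
      · exact ⟨2 * b + 1, by push_cast; linarith⟩
      · exact ⟨-2 * b + 1, by push_cast; linarith⟩
    have ht0 : (0 : ℝ) ≤ t := ht ▸ dist_nonneg
    have htD : (t : ℝ) ≤ D := ht ▸ hD R hR R0 hR0
    have hprod : (2 * (t : ℝ) - m) * (2 * t + m) = A := by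
      rw [hAR, ← hm]; nlinarith
    have hA0 : (0 : ℝ) < A := by exact_mod_cast hAodd.pos
    have hu : (0 : ℝ) < 2 * t - m := by
      by_contra hc
      push Not at hc
      have : (0 : ℝ) ≤ 2 * t + m := by linarith
      nlinarith
    have hv : (0 : ℝ) < 2 * t + m := by
      by_contra hc
      push Not at hc
      nlinarith
    have hu' : 0 ≤ 2 * t - m := by
      have : (0 : ℝ) ≤ ((2 * t - m : ℤ) : ℝ) := by push_cast; linarith
      exact_mod_cast this
    have hv' : 0 ≤ 2 * t + m := by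
      have : (0 : ℝ) ≤ ((2 * t + m : ℤ) : ℝ) := by push_cast; linarith
      exact_mod_cast this
    obtain ⟨u, hu2⟩ := Int.eq_ofNat_of_zero_le hu'
    obtain ⟨v, hv2⟩ := Int.eq_ofNat_of_zero_le hv'
    have hu3 : (u : ℝ) = 2 * t - m := by
      have : ((2 * t - m : ℤ) : ℝ) = (u : ℝ) := by rw [hu2]; simp
      rw [← this]; push_cast; ring
    have hv3 : (v : ℝ) = 2 * t + m := by
      have : ((2 * t + m : ℤ) : ℝ) = (v : ℝ) := by rw [hv2]; simp
      rw [← this]; push_cast; ring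
    refine ⟨u, v, ?_, by linarith, by linarith, by linarith⟩
    have : (u : ℝ) * v = A := by rw [hu3, hv3, hprod]
    exact_mod_cast this
  choose! u v huv hu hv hsuv using hrep
  have hupos : ∀ R ∈ M.erase R0, 0 < u R := by
    intro R hR
    refine Nat.pos_of_ne_zero fun h0 => ?_
    have := huv R hR
    rw [h0, zero_mul] at this
    have := hAodd.pos
    omega
  have hvdiv : ∀ R ∈ M.erase R0, A / u R = v R := by
    intro R hR
    rw [← huv R hR, Nat.mul_div_cancel_left _ (hupos R hR)]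
  refine ⟨A, (M.erase R0).image u, hAodd, ?_, ?_⟩
  · rw [card_image_of_injOn, card_erase_add_one hR0]
    intro R hR S hS e
    have hR' : R ∈ M.erase R0 := by exact_mod_cast hR
    have hS' : S ∈ M.erase R0 := by exact_mod_cast hS
    have ev : v R = v S := by rw [← hvdiv R hR', ← hvdiv S hS', e]
    have es : s R = s S := by
      have h1 := hsuv R hR'
      have h2 := hsuv S hS'
      rw [e, ev] at h1
      linarith
    have h1 := hd R S
    rw [es, huniq R (mem_erase.1 hR').2 (mem_erase.1 hR').1,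
      huniq S (mem_erase.1 hS').2 (mem_erase.1 hS').1] at h1
    have : dist R S = 0 := by
      have h2 : dist R S ^ 2 = 0 := by rw [h1]; ring
      exact pow_eq_zero_iff (by norm_num) |>.1 h2
    exact dist_eq_zero.1 this
  · intro w hw
    obtain ⟨R, hR, rfl⟩ := mem_image.1 hw
    refine ⟨⟨v R, (huv R hR).symm⟩, hu R hR, ?_⟩
    rw [hvdiv R hR]
    exact hv R hR

theorem competitor {B Y : ℕ} (hB : 0 < B) (S : Finset ℕ) (h2 : 2 ≤ S.card)
    (hS : ∀ u ∈ S, u ∣ B ∧ u ≤ Y ∧ B / u ≤ Y) :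
    ∃ M : Finset (EuclideanSpace ℝ (Fin 2)), M.card = S.card + 1 ∧
      (∀ R ∈ M, ∀ T ∈ M, ∃ z : ℤ, dist R T = z) ∧
      ¬ Collinear ℝ (M : Set (EuclideanSpace ℝ (Fin 2))) ∧
      ∀ R ∈ M, ∀ T ∈ M, dist R T ≤ 2 * Y := by
  classical
  set x : ℕ → ℝ := fun u => ((B / u : ℕ) : ℝ) - u with hx
  set f : ℕ → EuclideanSpace ℝ (Fin 2) := fun u => !₂[x u, 0] with hf
  set T0 : EuclideanSpace ℝ (Fin 2) := !₂[0, 2 * Real.sqrt B] with hT0
  have hsq : 0 < Real.sqrt B := Real.sqrt_pos.2 (by exact_mod_cast hB)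
  have hxinj : ∀ u ∈ S, ∀ w ∈ S, x u = x w → u = w := by
    have key : ∀ u ∈ S, ∀ w ∈ S, u < w → x w < x u := by
      intro u hu w hw huw
      have hu0 : 0 < u := Nat.pos_of_dvd_of_pos (hS u hu).1 hB
      have h1 : B / w ≤ B / u := Nat.div_le_div_left huw.le hu0
      have h1' : ((B / w : ℕ) : ℝ) ≤ ((B / u : ℕ) : ℝ) := by exact_mod_cast h1
      have h2' : (u : ℝ) < w := by exact_mod_cast huw
      simp only [hx]
      linarith
    intro u hu w hw e
    rcases lt_trichotomy u w with h1 | h1 | h1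
    · exact absurd e (key u hu w hw h1).ne'
    · exact h1
    · exact absurd e (key w hw u hu h1).ne
  have hfinj : Set.InjOn f S := by
    intro u hu w hw e
    refine hxinj u hu w hw ?_
    have := congrArg (fun R : EuclideanSpace ℝ (Fin 2) => R 0) e
    simpa [hf] using this
  have hT0n : T0 ∉ S.image f := by
    intro hmem
    obtain ⟨u, -, e⟩ := mem_image.1 hmem
    have := congrArg (fun R : EuclideanSpace ℝ (Fin 2) => R 1) e
    simp only [hf, hT0] at this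
    simp at this
    linarith
  have hd1 : ∀ u w, dist (f u) (f w) = |x u - x w| := by
    intro u w
    have := dist_sq_eq (f u) (f w)
    simp only [hf] at this ⊢
    simp at this
    rw [← sq_eq_sq₀ dist_nonneg (abs_nonneg _), this, sq_abs]
  have hd2 : ∀ u ∈ S, dist (f u) T0 = ((B / u : ℕ) : ℝ) + u := by
    intro u hu
    have := dist_sq_eq (f u) T0
    have hB' : ((B / u : ℕ) : ℝ) * u = B := by exact_mod_cast Nat.div_mul_cancel (hS u hu).1
    have h3 : Real.sqrt B ^ 2 = B := Real.sq_sqrt (by positivity)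
    simp only [hf, hT0] at this ⊢
    simp at this
    rw [← sq_eq_sq₀ dist_nonneg (by positivity), this]
    simp only [hx]
    nlinarith
  have hb : ∀ u ∈ S, ((B / u : ℕ) : ℝ) ≤ Y ∧ (u : ℝ) ≤ Y ∧ (0 : ℝ) ≤ ((B / u : ℕ) : ℝ) ∧
      (0 : ℝ) ≤ u := fun u hu =>
    ⟨by exact_mod_cast (hS u hu).2.2, by exact_mod_cast (hS u hu).2.1, by positivity,
      by positivity⟩
  have hall : ∀ R ∈ insert T0 (S.image f), ∀ T ∈ insert T0 (S.image f),
      (∃ z : ℤ, dist R T = z) ∧ dist R T ≤ 2 * Y := by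
    intro R hR T hT
    rcases mem_insert.1 hR with rfl | hR
    · rcases mem_insert.1 hT with rfl | hT
      · exact ⟨⟨0, by simp⟩, by simp⟩
      · obtain ⟨u, hu, rfl⟩ := mem_image.1 hT
        rw [dist_comm, hd2 u hu]
        obtain ⟨h1, h2, -, -⟩ := hb u hu
        exact ⟨⟨((B / u + u : ℕ) : ℤ), by rw [Int.cast_natCast, Nat.cast_add]⟩, by linarith⟩
    · obtain ⟨u, hu, rfl⟩ := mem_image.1 hR
      rcases mem_insert.1 hT with rfl | hT
      · rw [hd2 u hu]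
        obtain ⟨h1, h2, -, -⟩ := hb u hu
        exact ⟨⟨((B / u + u : ℕ) : ℤ), by rw [Int.cast_natCast, Nat.cast_add]⟩, by linarith⟩
      · obtain ⟨w, hw, rfl⟩ := mem_image.1 hT
        rw [hd1]
        obtain ⟨h1, h2, h3, h4⟩ := hb u hu
        obtain ⟨h5, h6, h7, h8⟩ := hb w hw
        refine ⟨⟨|(((B / u : ℕ) : ℤ) - u) - (((B / w : ℕ) : ℤ) - w)|, ?_⟩, ?_⟩
        · simp only [hx, Int.cast_abs, Int.cast_sub, Int.cast_natCast]
        · simp only [hx]
          rw [abs_le]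
          constructor <;> linarith
  refine ⟨insert T0 (S.image f), ?_, fun R hR T hT => (hall R hR T hT).1, ?_,
    fun R hR T hT => (hall R hR T hT).2⟩
  · rw [card_insert_of_notMem hT0n, card_image_of_injOn hfinj]
  · intro hcol
    obtain ⟨u, hu, w, hw, huw⟩ := one_lt_card.1 (by omega : 1 < S.card)
    have hmem : ∀ y ∈ S, f y ∈ ((insert T0 (S.image f) : Finset _) :
        Set (EuclideanSpace ℝ (Fin 2))) := fun y hy => by
      exact_mod_cast mem_insert_of_mem (mem_image_of_mem f hy)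
    obtain ⟨d, hdv⟩ := (collinear_iff_of_mem (hmem u hu)).1 hcol
    obtain ⟨r1, e1⟩ := hdv _ (hmem w hw)
    obtain ⟨r2, e2⟩ := hdv T0 (by exact_mod_cast mem_insert_self T0 _)
    have a0 := congrArg (fun R : EuclideanSpace ℝ (Fin 2) => R 0) e1
    have a1 := congrArg (fun R : EuclideanSpace ℝ (Fin 2) => R 1) e1
    have b1 := congrArg (fun R : EuclideanSpace ℝ (Fin 2) => R 1) e2
    simp only [hf, hT0] at a0 a1 b1
    simp at a0 a1 b1
    rcases a1 with a1 | a1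
    · rw [a1] at a0
      exact huw (hxinj u hu w hw (by linarith))
    · rw [a1] at b1
      linarith

end Pool.Agent.MP_22d5c4_co
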