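import Mathlib

namespace Pool.Agent.MP_22d5c4_co.K

/-- evaluate `x` first, then continue -/
noncomputable def frc (x : ℕ) (k : ℕ → Bool) : Bool :=
  @Nat.rec (fun _ => Bool) false (fun c _ => k c) (Nat.succ x)

theorem frc_eq (x : ℕ) (k : ℕ → Bool) : frc x k = k x := rfl

noncomputable def an (a b : Bool) : Bool := @Bool.rec (fun _ => Bool) false b a

noncomputable def orr (a b : Bool) : Bool := @Bool.rec (fun _ => Bool) b true a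

noncomputable def cn (a : Bool) (x y : ℕ) : ℕ := @Bool.rec (fun _ => ℕ) y x a

noncomputable def mx (x y : ℕ) : ℕ := @Bool.rec (fun _ => ℕ) x y (Nat.ble x y)

noncomputable def mn (x y : ℕ) : ℕ := @Bool.rec (fun _ => ℕ) y x (Nat.ble x y)

def msk (x n : ℕ) : ℕ := Nat.sub x (Nat.shiftLeft (Nat.shiftRight x n) n)

def ones (K n : ℕ) : ℕ := (2 ^ (K * n) - 1) / (2 ^ K - 1)

structure Ent where
  r : ℕ
  l : ℕ
  lo : ℕ
  hi : ℕ
  D : ℕ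
  Lx : ℕ
  L1 : ℕ
  L2 : ℕ

noncomputable def lp (kl m C2 : ℕ) (ch : ℕ → ℕ → Bool) (n : ℕ) : ℕ → ℕ → Bool :=
  @Nat.rec (fun _ => ℕ → ℕ → Bool) (fun _ _ => true)
    (fun _ ih e acc => frc (Nat.succ e) fun e1 =>
      frc (Nat.add acc (Nat.shiftRight C2 (Nat.mul kl e1))) fun acc1 =>
        an (orr (Nat.blt e1 m) (ch e1 acc1)) (ih e1 acc1)) n

noncomputable def leaf (K W xm M B1 O H d L Z ln C yo nT T : ℕ) : Bool :=
  frc (mx xm (Nat.div (Nat.succ L) 2)) fun x0 =>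
  an (Nat.ble L (Nat.add x0 Z)) <| an (Nat.ble yo x0) <|
  frc (Nat.sub (Nat.add x0 Z) L) fun i0 => frc (Nat.sub x0 yo) fun j0 =>
  an (Nat.ble (Nat.add i0 W) ln) <| an (Nat.blt (Nat.add j0 W) nT) <|
  frc (Nat.shiftRight T (Nat.mul K j0)) fun b =>
  an (Nat.ble (Nat.add d (Nat.land (Nat.shiftRight b (Nat.mul K W)) B1)) M) <|
  Nat.beq (Nat.land (Nat.add (Nat.add (Nat.mul 2 (Nat.shiftRight C (Nat.mul K i0))) b)
    (Nat.mul (Nat.sub (Nat.succ M) d) O)) H) 0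

noncomputable def node (K W xm M B1 : ℕ) (t : Ent)
    (ih : ℕ → ℕ → ℕ → ℕ → ℕ → ℕ → ℕ → ℕ → ℕ → Bool) (ep d L Z ln C yo nT T : ℕ) : Bool :=
  frc (mx xm (Nat.div (Nat.succ (Nat.add L (cn (Nat.ble 2 ep) t.L2 t.L1))) 2)) fun y =>
  frc (mn (Nat.sub y yo) (Nat.pred nT)) fun j =>
  frc (Nat.shiftRight T (Nat.mul K j)) fun T1 =>
  an (Nat.ble yo y) <| an (Nat.blt 0 nT) <| an (Nat.ble (Nat.mul d (Nat.succ t.hi)) M) <|
  orr (Nat.ble (Nat.add (Nat.mul d t.D) (Nat.land T1 B1)) M) <|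
  frc (mn Z (Nat.div (Nat.add L t.Lx) 2)) fun Z2 =>
  frc (mx xm (Nat.div (Nat.succ (Nat.add L t.Lx)) 2)) fun top =>
  frc (mn (Nat.sub ln (Nat.sub Z Z2)) (Nat.add (Nat.sub (Nat.add top Z2) L) W)) fun ln2 =>
  frc (msk (Nat.shiftRight C (Nat.mul K (Nat.sub Z Z2))) (Nat.mul K ln2)) fun C2 =>
  frc (Nat.add yo j) fun yo2 =>
  frc (mn (Nat.sub nT j) (Nat.succ (Nat.add (Nat.sub top yo2) W))) fun nT2 =>
  frc (msk T1 (Nat.mul K nT2)) fun T2 =>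
  frc (Nat.mul K t.l) fun kl => frc (mx ep t.lo) fun m =>
  lp kl m C2 (fun e acc => frc (Nat.mul d (Nat.succ e)) fun d1 =>
    frc (Nat.mul e t.l) fun el => frc (Nat.add L el) fun L1 => frc (Nat.sub ln2 el) fun ln1 =>
      ih e d1 L1 Z2 ln1 acc yo2 nT2 T2) t.hi 0 C2

noncomputable def go (K W xm M B1 O H : ℕ) (E : List Ent) :
    ℕ → ℕ → ℕ → ℕ → ℕ → ℕ → ℕ → ℕ → ℕ → Bool :=
  @List.rec Ent (fun _ => ℕ → ℕ → ℕ → ℕ → ℕ → ℕ → ℕ → ℕ → ℕ → Bool)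
    (fun _ d L Z ln C yo nT T => leaf K W xm M B1 O H d L Z ln C yo nT T)
    (fun t _ ih => node K W xm M B1 t ih) E

noncomputable def run (K W xm nT T Lx : ℕ) (E : List Ent) : Bool :=
  frc (2 ^ (K - 2) - 1) fun M => frc (2 ^ K - 1) fun B1 => frc (ones K W) fun O =>
  frc (O <<< (K - 1)) fun H => frc (Lx / 2) fun Z => frc (mx xm ((Lx + 1) / 2) + W) fun n =>
  frc (ones K n <<< (K * Z)) fun C => frc T fun T' =>
  go K W xm M B1 O H E 1 1 0 Z (n + Z) C xm nT T'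

noncomputable def il (r n : ℕ) : ℕ :=
  cn (Nat.ble (r ^ 5) n) 5 <| cn (Nat.ble (r ^ 4) n) 4 <| cn (Nat.ble (r ^ 3) n) 3 <|
    cn (Nat.ble (r ^ 2) n) 2 <| cn (Nat.ble r n) 1 0

noncomputable def mkE (Pn P fl : ℕ) (k : ℕ → List Ent → Bool) (pl : List (ℕ × ℕ)) :
    List Ent → ℕ → ℕ → ℕ → ℕ → Bool :=
  @List.rec (ℕ × ℕ) (fun _ => List Ent → ℕ → ℕ → ℕ → ℕ → Bool)
    (fun acc _ Lx _ _ => k Lx acc)
    (fun a _ ih acc D Lx L1 L2 =>
      @Bool.rec (fun _ => Bool) (k Lx acc)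
        (frc a.1 fun r => frc a.2 fun l =>
          frc (cn (an (Nat.beq fl 1) (Nat.beq r P)) 1 (2 * il r (Pn - 1))) fun hi =>
          frc (cn (Nat.beq fl 1) (il r P) 2) fun lo =>
          frc (D * (hi + 1)) fun D' => frc (Lx + hi * l) fun Lx' => frc (L1 + lo * l) fun L1' =>
          frc (L2 + mx lo 2 * l) fun L2' =>
          ih (⟨r, l, lo, hi, D', Lx', L1', L2'⟩ :: acc) D' Lx' L1' L2')
        (Nat.blt a.1 Pn)) pl

/-- assemble chunks -/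
noncomputable def asm (c : ℕ) (l : List ℕ) : ℕ :=
  @List.rec ℕ (fun _ => ℕ) 0 (fun a _ ih => Nat.add a (Nat.shiftLeft ih c)) l

end Pool.Agent.MP_22d5c4_co.K
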