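import Pool.Agent.MP_22d5c4_co.KSeg

namespace Pool.Agent.MP_22d5c4_co.K

set_option maxRecDepth 100000

def Mid (Pn : ℕ) : Prop := ∀ A, Odd A → Red A → Pn.Prime → Pn ≠ 2 → ¬ Pn ∣ A →
  (∀ r, r.Prime → r ≠ 2 → r < Pn → r ∣ A) → ∀ X, 8000 ≤ X → ∃ B, 0 < B ∧ N A X ≤ N B (X / 8)

theorem mid8 {Pn P : ℕ} (h : Pn < 277) (h1 : chk 8 104 128 103 2730 tab8 pl8 Pn P 1 = true)
    (h2 : chk 8 104 128 103 2730 tab8 pl8 Pn P 2 = true) : Mid Pn :=
  fun _ a1 a2 a3 a4 a5 a6 X hX =>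
    chk_sound (by norm_num) (plaOK_sound pl8_ok) tab8_ok h h1 h2 a1 a2 a3 a4 a5 a6 X
      (le_trans (by norm_num) (Nat.pow_le_pow_left hX 8))

theorem mid64 {Pn P : ℕ} (h : Pn < 277) (h1 : chk 64 32 896 829 2130 tab64 pl64 Pn P 1 = true)
    (h2 : chk 64 32 896 829 2130 tab64 pl64 Pn P 2 = true) : Mid Pn :=
  fun _ a1 a2 a3 a4 a5 a6 X hX =>
    chk_sound (by norm_num) (plaOK_sound pl64_ok) tab64_ok h h1 h2 a1 a2 a3 a4 a5 a6 X
      (le_trans (by decide +kernel) (Nat.pow_le_pow_left hX 64))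

theorem mid_3 : Mid 3 := by
  intro A hA hR hp _ hnd _ X hX
  have h1 : A = 1 := by
    rw [Nat.eq_one_iff_not_exists_prime_dvd]
    intro r hr hd
    have hr2 : r ≠ 2 := by
      rintro rfl
      exact hA.not_two_dvd_nat hd
    have hr3 : r ≠ 3 := by
      rintro rfl
      exact hnd hd
    have h3 := hR.r1 3 r hp hr (by norm_num) (by have := hr.two_le; omega)
    rw [Nat.factorization_eq_zero_of_not_dvd hnd] at h3
    have := hr.factorization_pos_of_dvd hA.pos.ne' hd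
    omega
  subst h1
  refine ⟨1, one_pos, ?_⟩
  unfold N
  rw [SD_one, SD_one]
  exact ind_mono fun _ => by omega

end Pool.Agent.MP_22d5c4_co.K
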