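import Pool.Agent.MP_22d5c4_co.KMid

namespace Pool.Agent.MP_22d5c4_co.K

set_option maxRecDepth 100000

theorem c5_1 : chk 64 32 896 829 2130 tab64 pl64 5 3 1 = true := by decide +kernel

theorem c5_2 : chk 64 32 896 829 2130 tab64 pl64 5 3 2 = true := by decide +kernel

theorem mid_5 : Mid 5 := mid64 (by norm_num) c5_1 c5_2

theorem c7_1 : chk 64 32 896 829 2130 tab64 pl64 7 5 1 = true := by decide +kernel

theorem c7_2 : chk 64 32 896 829 2130 tab64 pl64 7 5 2 = true := by decide +kernel

theorem mid_7 : Mid 7 := mid64 (by norm_num) c7_1 c7_2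

theorem c11_1 : chk 64 32 896 829 2130 tab64 pl64 11 7 1 = true := by decide +kernel

theorem c11_2 : chk 64 32 896 829 2130 tab64 pl64 11 7 2 = true := by decide +kernel

theorem mid_11 : Mid 11 := mid64 (by norm_num) c11_1 c11_2

theorem c13_1 : chk 64 32 896 829 2130 tab64 pl64 13 11 1 = true := by decide +kernel

theorem c13_2 : chk 64 32 896 829 2130 tab64 pl64 13 11 2 = true := by decide +kernel

theorem mid_13 : Mid 13 := mid64 (by norm_num) c13_1 c13_2

theorem c17_1 : chk 64 32 896 829 2130 tab64 pl64 17 13 1 = true := by decide +kernel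

theorem c17_2 : chk 64 32 896 829 2130 tab64 pl64 17 13 2 = true := by decide +kernel

theorem mid_17 : Mid 17 := mid64 (by norm_num) c17_1 c17_2

theorem c19_1 : chk 64 32 896 829 2130 tab64 pl64 19 17 1 = true := by decide +kernel

theorem c19_2 : chk 64 32 896 829 2130 tab64 pl64 19 17 2 = true := by decide +kernel

theorem mid_19 : Mid 19 := mid64 (by norm_num) c19_1 c19_2

theorem c23_1 : chk 64 32 896 829 2130 tab64 pl64 23 19 1 = true := by decide +kernel

theorem c23_2 : chk 64 32 896 829 2130 tab64 pl64 23 19 2 = true := by decide +kernel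

theorem mid_23 : Mid 23 := mid64 (by norm_num) c23_1 c23_2

theorem c29_1 : chk 64 32 896 829 2130 tab64 pl64 29 23 1 = true := by decide +kernel

theorem c29_2 : chk 64 32 896 829 2130 tab64 pl64 29 23 2 = true := by decide +kernel

theorem mid_29 : Mid 29 := mid64 (by norm_num) c29_1 c29_2

theorem c31_1 : chk 8 104 128 103 2730 tab8 pl8 31 29 1 = true := by decide +kernel

theorem c31_2 : chk 8 104 128 103 2730 tab8 pl8 31 29 2 = true := by decide +kernel

theorem mid_31 : Mid 31 := mid8 (by norm_num) c31_1 c31_2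

theorem c37_1 : chk 8 104 128 103 2730 tab8 pl8 37 31 1 = true := by decide +kernel

theorem c37_2 : chk 8 104 128 103 2730 tab8 pl8 37 31 2 = true := by decide +kernel

theorem mid_37 : Mid 37 := mid8 (by norm_num) c37_1 c37_2

theorem c41_1 : chk 8 104 128 103 2730 tab8 pl8 41 37 1 = true := by decide +kernel

theorem c41_2 : chk 8 104 128 103 2730 tab8 pl8 41 37 2 = true := by decide +kernel

theorem mid_41 : Mid 41 := mid8 (by norm_num) c41_1 c41_2

theorem c43_1 : chk 8 104 128 103 2730 tab8 pl8 43 41 1 = true := by decide +kernel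

theorem c43_2 : chk 8 104 128 103 2730 tab8 pl8 43 41 2 = true := by decide +kernel

theorem mid_43 : Mid 43 := mid8 (by norm_num) c43_1 c43_2

theorem c47_1 : chk 8 104 128 103 2730 tab8 pl8 47 43 1 = true := by decide +kernel

theorem c47_2 : chk 8 104 128 103 2730 tab8 pl8 47 43 2 = true := by decide +kernel

theorem mid_47 : Mid 47 := mid8 (by norm_num) c47_1 c47_2

theorem c53_1 : chk 8 104 128 103 2730 tab8 pl8 53 47 1 = true := by decide +kernel

theorem c53_2 : chk 8 104 128 103 2730 tab8 pl8 53 47 2 = true := by decide +kernel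

theorem mid_53 : Mid 53 := mid8 (by norm_num) c53_1 c53_2

theorem c59_1 : chk 8 104 128 103 2730 tab8 pl8 59 53 1 = true := by decide +kernel

theorem c59_2 : chk 8 104 128 103 2730 tab8 pl8 59 53 2 = true := by decide +kernel

theorem mid_59 : Mid 59 := mid8 (by norm_num) c59_1 c59_2

theorem c61_1 : chk 8 104 128 103 2730 tab8 pl8 61 59 1 = true := by decide +kernel

theorem c61_2 : chk 8 104 128 103 2730 tab8 pl8 61 59 2 = true := by decide +kernel

theorem mid_61 : Mid 61 := mid8 (by norm_num) c61_1 c61_2

theorem c67_1 : chk 8 104 128 103 2730 tab8 pl8 67 61 1 = true := by decide +kernel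

theorem c67_2 : chk 8 104 128 103 2730 tab8 pl8 67 61 2 = true := by decide +kernel

theorem mid_67 : Mid 67 := mid8 (by norm_num) c67_1 c67_2

theorem c71_1 : chk 8 104 128 103 2730 tab8 pl8 71 67 1 = true := by decide +kernel

theorem c71_2 : chk 8 104 128 103 2730 tab8 pl8 71 67 2 = true := by decide +kernel

theorem mid_71 : Mid 71 := mid8 (by norm_num) c71_1 c71_2

theorem c73_1 : chk 8 104 128 103 2730 tab8 pl8 73 71 1 = true := by decide +kernel

theorem c73_2 : chk 8 104 128 103 2730 tab8 pl8 73 71 2 = true := by decide +kernel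

theorem mid_73 : Mid 73 := mid8 (by norm_num) c73_1 c73_2

theorem c79_1 : chk 8 104 128 103 2730 tab8 pl8 79 73 1 = true := by decide +kernel

theorem c79_2 : chk 8 104 128 103 2730 tab8 pl8 79 73 2 = true := by decide +kernel

theorem mid_79 : Mid 79 := mid8 (by norm_num) c79_1 c79_2

theorem c83_1 : chk 8 104 128 103 2730 tab8 pl8 83 79 1 = true := by decide +kernel

theorem c83_2 : chk 8 104 128 103 2730 tab8 pl8 83 79 2 = true := by decide +kernel

theorem mid_83 : Mid 83 := mid8 (by norm_num) c83_1 c83_2

theorem c89_1 : chk 8 104 128 103 2730 tab8 pl8 89 83 1 = true := by decide +kernel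

theorem c89_2 : chk 8 104 128 103 2730 tab8 pl8 89 83 2 = true := by decide +kernel

theorem mid_89 : Mid 89 := mid8 (by norm_num) c89_1 c89_2

theorem c97_1 : chk 8 104 128 103 2730 tab8 pl8 97 89 1 = true := by decide +kernel

theorem c97_2 : chk 8 104 128 103 2730 tab8 pl8 97 89 2 = true := by decide +kernel

theorem mid_97 : Mid 97 := mid8 (by norm_num) c97_1 c97_2

theorem c101_1 : chk 8 104 128 103 2730 tab8 pl8 101 97 1 = true := by decide +kernel

theorem c101_2 : chk 8 104 128 103 2730 tab8 pl8 101 97 2 = true := by decide +kernel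

theorem mid_101 : Mid 101 := mid8 (by norm_num) c101_1 c101_2

theorem c103_1 : chk 8 104 128 103 2730 tab8 pl8 103 101 1 = true := by decide +kernel

theorem c103_2 : chk 8 104 128 103 2730 tab8 pl8 103 101 2 = true := by decide +kernel

theorem mid_103 : Mid 103 := mid8 (by norm_num) c103_1 c103_2

theorem c107_1 : chk 8 104 128 103 2730 tab8 pl8 107 103 1 = true := by decide +kernel

theorem c107_2 : chk 8 104 128 103 2730 tab8 pl8 107 103 2 = true := by decide +kernel

theorem mid_107 : Mid 107 := mid8 (by norm_num) c107_1 c107_2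

theorem c109_1 : chk 8 104 128 103 2730 tab8 pl8 109 107 1 = true := by decide +kernel

theorem c109_2 : chk 8 104 128 103 2730 tab8 pl8 109 107 2 = true := by decide +kernel

theorem mid_109 : Mid 109 := mid8 (by norm_num) c109_1 c109_2

theorem c113_1 : chk 8 104 128 103 2730 tab8 pl8 113 109 1 = true := by decide +kernel

theorem c113_2 : chk 8 104 128 103 2730 tab8 pl8 113 109 2 = true := by decide +kernel

theorem mid_113 : Mid 113 := mid8 (by norm_num) c113_1 c113_2

theorem c127_1 : chk 8 104 128 103 2730 tab8 pl8 127 113 1 = true := by decide +kernel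

theorem c127_2 : chk 8 104 128 103 2730 tab8 pl8 127 113 2 = true := by decide +kernel

theorem mid_127 : Mid 127 := mid8 (by norm_num) c127_1 c127_2

theorem c131_1 : chk 8 104 128 103 2730 tab8 pl8 131 127 1 = true := by decide +kernel

theorem c131_2 : chk 8 104 128 103 2730 tab8 pl8 131 127 2 = true := by decide +kernel

theorem mid_131 : Mid 131 := mid8 (by norm_num) c131_1 c131_2

end Pool.Agent.MP_22d5c4_co.K
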