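import Pool.Agent.MP_22d5c4_co.KMid

namespace Pool.Agent.MP_22d5c4_co.K

set_option maxRecDepth 100000

theorem c137_1 : chk 8 104 128 103 2730 tab8 pl8 137 131 1 = true := by decide +kernel

theorem c137_2 : chk 8 104 128 103 2730 tab8 pl8 137 131 2 = true := by decide +kernel

theorem mid_137 : Mid 137 := mid8 (by norm_num) c137_1 c137_2

theorem c139_1 : chk 8 104 128 103 2730 tab8 pl8 139 137 1 = true := by decide +kernel

theorem c139_2 : chk 8 104 128 103 2730 tab8 pl8 139 137 2 = true := by decide +kernel

theorem mid_139 : Mid 139 := mid8 (by norm_num) c139_1 c139_2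

theorem c149_1 : chk 8 104 128 103 2730 tab8 pl8 149 139 1 = true := by decide +kernel

theorem c149_2 : chk 8 104 128 103 2730 tab8 pl8 149 139 2 = true := by decide +kernel

theorem mid_149 : Mid 149 := mid8 (by norm_num) c149_1 c149_2

theorem c151_1 : chk 8 104 128 103 2730 tab8 pl8 151 149 1 = true := by decide +kernel

theorem c151_2 : chk 8 104 128 103 2730 tab8 pl8 151 149 2 = true := by decide +kernel

theorem mid_151 : Mid 151 := mid8 (by norm_num) c151_1 c151_2

theorem c157_1 : chk 8 104 128 103 2730 tab8 pl8 157 151 1 = true := by decide +kernel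

theorem c157_2 : chk 8 104 128 103 2730 tab8 pl8 157 151 2 = true := by decide +kernel

theorem mid_157 : Mid 157 := mid8 (by norm_num) c157_1 c157_2

theorem c163_1 : chk 8 104 128 103 2730 tab8 pl8 163 157 1 = true := by decide +kernel

theorem c163_2 : chk 8 104 128 103 2730 tab8 pl8 163 157 2 = true := by decide +kernel

theorem mid_163 : Mid 163 := mid8 (by norm_num) c163_1 c163_2

theorem c167_1 : chk 8 104 128 103 2730 tab8 pl8 167 163 1 = true := by decide +kernel

theorem c167_2 : chk 8 104 128 103 2730 tab8 pl8 167 163 2 = true := by decide +kernel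

theorem mid_167 : Mid 167 := mid8 (by norm_num) c167_1 c167_2

end Pool.Agent.MP_22d5c4_co.K
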