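import Pool.Agent.MP_22d5c4_co.KRun0

namespace Pool.Agent.MP_22d5c4_co.K

set_option maxRecDepth 100000

theorem c173_1 : chk 8 104 128 103 2730 tab8 pl8 173 167 1 = true := by decide +kernel

theorem c173_2 : chk 8 104 128 103 2730 tab8 pl8 173 167 2 = true := by decide +kernel

theorem mid_173 : Mid 173 := mid8 (by norm_num) c173_1 c173_2

theorem c179_1 : chk 8 104 128 103 2730 tab8 pl8 179 173 1 = true := by decide +kernel

theorem c179_2 : chk 8 104 128 103 2730 tab8 pl8 179 173 2 = true := by decide +kernel

theorem mid_179 : Mid 179 := mid8 (by norm_num) c179_1 c179_2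

theorem c181_1 : chk 8 104 128 103 2730 tab8 pl8 181 179 1 = true := by decide +kernel

theorem c181_2 : chk 8 104 128 103 2730 tab8 pl8 181 179 2 = true := by decide +kernel

theorem mid_181 : Mid 181 := mid8 (by norm_num) c181_1 c181_2

theorem c191_1 : chk 8 104 128 103 2730 tab8 pl8 191 181 1 = true := by decide +kernel

theorem c191_2 : chk 8 104 128 103 2730 tab8 pl8 191 181 2 = true := by decide +kernel

theorem mid_191 : Mid 191 := mid8 (by norm_num) c191_1 c191_2

end Pool.Agent.MP_22d5c4_co.K
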