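import Pool.Agent.MP_22d5c4_co.KRun1

namespace Pool.Agent.MP_22d5c4_co.K

set_option maxRecDepth 100000

theorem c193_1 : chk 8 104 128 103 2730 tab8 pl8 193 191 1 = true := by decide +kernel

theorem c193_2 : chk 8 104 128 103 2730 tab8 pl8 193 191 2 = true := by decide +kernel

theorem mid_193 : Mid 193 := mid8 (by norm_num) c193_1 c193_2

theorem c197_1 : chk 8 104 128 103 2730 tab8 pl8 197 193 1 = true := by decide +kernel

theorem c197_2 : chk 8 104 128 103 2730 tab8 pl8 197 193 2 = true := by decide +kernel

theorem mid_197 : Mid 197 := mid8 (by norm_num) c197_1 c197_2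

theorem c199_1 : chk 8 104 128 103 2730 tab8 pl8 199 197 1 = true := by decide +kernel

theorem c199_2 : chk 8 104 128 103 2730 tab8 pl8 199 197 2 = true := by decide +kernel

theorem mid_199 : Mid 199 := mid8 (by norm_num) c199_1 c199_2

end Pool.Agent.MP_22d5c4_co.K
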