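import Pool.Agent.MP_22d5c4_co.KRun2

namespace Pool.Agent.MP_22d5c4_co.K

set_option maxRecDepth 100000

theorem c211_1 : chk 8 104 128 103 2730 tab8 pl8 211 199 1 = true := by decide +kernel

theorem c211_2 : chk 8 104 128 103 2730 tab8 pl8 211 199 2 = true := by decide +kernel

theorem mid_211 : Mid 211 := mid8 (by norm_num) c211_1 c211_2

theorem c223_1 : chk 8 104 128 103 2730 tab8 pl8 223 211 1 = true := by decide +kernel

theorem c223_2 : chk 8 104 128 103 2730 tab8 pl8 223 211 2 = true := by decide +kernel

theorem mid_223 : Mid 223 := mid8 (by norm_num) c223_1 c223_2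

theorem c227_1 : chk 8 104 128 103 2730 tab8 pl8 227 223 1 = true := by decide +kernel

theorem c227_2 : chk 8 104 128 103 2730 tab8 pl8 227 223 2 = true := by decide +kernel

theorem mid_227 : Mid 227 := mid8 (by norm_num) c227_1 c227_2

end Pool.Agent.MP_22d5c4_co.K
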