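import Pool.Agent.MP_22d5c4_co.KRun3

namespace Pool.Agent.MP_22d5c4_co.K

set_option maxRecDepth 100000

theorem c229_1 : chk 8 104 128 103 2730 tab8 pl8 229 227 1 = true := by decide +kernel

theorem c229_2 : chk 8 104 128 103 2730 tab8 pl8 229 227 2 = true := by decide +kernel

theorem mid_229 : Mid 229 := mid8 (by norm_num) c229_1 c229_2

theorem c233_1 : chk 8 104 128 103 2730 tab8 pl8 233 229 1 = true := by decide +kernel

theorem c233_2 : chk 8 104 128 103 2730 tab8 pl8 233 229 2 = true := by decide +kernel

theorem mid_233 : Mid 233 := mid8 (by norm_num) c233_1 c233_2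

theorem c239_1 : chk 8 104 128 103 2730 tab8 pl8 239 233 1 = true := by decide +kernel

theorem c239_2 : chk 8 104 128 103 2730 tab8 pl8 239 233 2 = true := by decide +kernel

theorem mid_239 : Mid 239 := mid8 (by norm_num) c239_1 c239_2

end Pool.Agent.MP_22d5c4_co.K
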