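import Pool.Agent.MP_22d5c4_co.KRun4

namespace Pool.Agent.MP_22d5c4_co.K

set_option maxRecDepth 100000

theorem c241_1 : chk 8 104 128 103 2730 tab8 pl8 241 239 1 = true := by decide +kernel

theorem c241_2 : chk 8 104 128 103 2730 tab8 pl8 241 239 2 = true := by decide +kernel

theorem mid_241 : Mid 241 := mid8 (by norm_num) c241_1 c241_2

theorem c251_1 : chk 8 104 128 103 2730 tab8 pl8 251 241 1 = true := by decide +kernel

theorem c251_2 : chk 8 104 128 103 2730 tab8 pl8 251 241 2 = true := by decide +kernel

theorem mid_251 : Mid 251 := mid8 (by norm_num) c251_1 c251_2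

end Pool.Agent.MP_22d5c4_co.K
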