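import Pool.Agent.MP_22d5c4_co.KRun6

namespace Pool.Agent.MP_22d5c4_co.K

set_option maxRecDepth 100000

theorem c269_1 : chk 8 104 128 103 2730 tab8 pl8 269 263 1 = true := by decide +kernel

theorem c269_2 : chk 8 104 128 103 2730 tab8 pl8 269 263 2 = true := by decide +kernel

theorem mid_269 : Mid 269 := mid8 (by norm_num) c269_1 c269_2

theorem c271_1 : chk 8 104 128 103 2730 tab8 pl8 271 269 1 = true := by decide +kernel

theorem c271_2 : chk 8 104 128 103 2730 tab8 pl8 271 269 2 = true := by decide +kernel

theorem mid_271 : Mid 271 := mid8 (by norm_num) c271_1 c271_2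

end Pool.Agent.MP_22d5c4_co.K
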