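import Pool.Agent.MP_22d5c4_co.Cnt

namespace Pool.Agent.MP_22d5c4_co.K

open Finset

theorem N_two {A0 r s : ℕ} (hr : r.Prime) (hs : s.Prime) (hrs : r ≠ s) (h1 : ¬ r ∣ A0)
    (h2 : ¬ s ∣ A0) (a b X : ℕ) :
    N (A0 * r ^ a * s ^ b) X = SD A0 fun u v => ∑ x ∈ range (a + 1) ×ˢ range (b + 1),
      ind (u * (r ^ x.1 * s ^ x.2) ≤ X ∧ v * (r ^ (a - x.1) * s ^ (b - x.2)) ≤ X) := by
  have h3 : ¬ s ∣ A0 * r ^ a := by
    intro h
    rcases (Nat.Prime.dvd_mul hs).1 h with h | h
    · exact h2 h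
    · exact hrs ((Nat.prime_dvd_prime_iff_eq hs hr).1 (hs.dvd_of_dvd_pow h)).symm
  rw [N, SD_mul_pp hs h3, SD_mul_pp hr h1]
  refine SD_congr fun u v _ => ?_
  rw [sum_product]
  simp only [mul_assoc]

theorem N_le_two {A0 r s : ℕ} (hr : r.Prime) (hs : s.Prime) (hrs : r ≠ s) (h1 : ¬ r ∣ A0)
    (h2 : ¬ s ∣ A0) {a b a' b' : ℕ} (ψ : ℕ × ℕ → ℕ × ℕ)
    (hmap : ∀ i j, i ≤ a → j ≤ b → (ψ (i, j)).1 ≤ a' ∧ (ψ (i, j)).2 ≤ b' ∧
      r ^ (ψ (i, j)).1 * s ^ (ψ (i, j)).2 ≤ r ^ i * s ^ j ∧
      r ^ (a' - (ψ (i, j)).1) * s ^ (b' - (ψ (i, j)).2) ≤ r ^ (a - i) * s ^ (b - j))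
    (hinj : ∀ i j i' j', i ≤ a → j ≤ b → i' ≤ a → j' ≤ b → ψ (i, j) = ψ (i', j') →
      i = i' ∧ j = j') (X : ℕ) :
    N (A0 * r ^ a * s ^ b) X ≤ N (A0 * r ^ a' * s ^ b') X := by
  rw [N_two hr hs hrs h1 h2, N_two hr hs hrs h1 h2]
  refine SD_mono fun u v _ => ?_
  have hinj' : Set.InjOn ψ (range (a + 1) ×ˢ range (b + 1) : Finset (ℕ × ℕ)) := by
    rintro ⟨i, j⟩ hx ⟨i', j'⟩ hy e
    simp only [coe_product, coe_range, Set.mem_prod, Set.mem_Iio] at hx hy
    obtain ⟨rfl, rfl⟩ := hinj i j i' j' (by omega) (by omega) (by omega) (by omega) e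
    rfl
  set g : ℕ × ℕ → ℕ := fun x =>
    ind (u * (r ^ x.1 * s ^ x.2) ≤ X ∧ v * (r ^ (a' - x.1) * s ^ (b' - x.2)) ≤ X) with hg
  calc _ ≤ ∑ x ∈ range (a + 1) ×ˢ range (b + 1), g (ψ x) := by
        refine sum_le_sum ?_
        rintro ⟨i, j⟩ hx
        simp only [mem_product, mem_range] at hx
        obtain ⟨-, -, e1, e2⟩ := hmap i j (by omega) (by omega)
        exact ind_mono fun h => ⟨(Nat.mul_le_mul_left _ e1).trans h.1,
          (Nat.mul_le_mul_left _ e2).trans h.2⟩
    _ = ∑ y ∈ (range (a + 1) ×ˢ range (b + 1)).image ψ, g y := (sum_image hinj').symm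
    _ ≤ _ := by
        refine sum_le_sum_of_subset ?_
        intro y hy
        obtain ⟨⟨i, j⟩, hx, rfl⟩ := mem_image.1 hy
        simp only [mem_product, mem_range] at hx ⊢
        obtain ⟨e1, e2, -, -⟩ := hmap i j (by omega) (by omega)
        omega

theorem pow_move {r s : ℕ} (h : r ≤ s) (x y z : ℕ) :
    r ^ (x + z) * s ^ y ≤ r ^ x * s ^ (y + z) := by
  rw [pow_add, pow_add, mul_assoc, mul_comm (r ^ z)]
  exact Nat.mul_le_mul_left _ (Nat.mul_le_mul_left _ (Nat.pow_le_pow_left h z))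

theorem split_two {A r s : ℕ} (hA : A ≠ 0) (hr : r.Prime) (hs : s.Prime) (hrs : r ≠ s) :
    ∃ A0, ¬ r ∣ A0 ∧ ¬ s ∣ A0 ∧
      A = A0 * r ^ A.factorization r * s ^ A.factorization s := by
  obtain ⟨b, A1, h1, e1⟩ := Nat.exists_eq_pow_mul_and_not_dvd hA s hs.ne_one
  have hA1 : A1 ≠ 0 := by rintro rfl; simp at h1
  obtain ⟨a, A0, h0, e0⟩ := Nat.exists_eq_pow_mul_and_not_dvd hA1 r hr.ne_one
  have hA0 : A0 ≠ 0 := by rintro rfl; simp at h0
  have h2 : ¬ s ∣ A0 := fun h => h1 (e0 ▸ h.mul_left _)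
  have hf : A.factorization = Finsupp.single s b + (Finsupp.single r a + A0.factorization) := by
    rw [e1, e0, Nat.factorization_mul (pow_ne_zero _ hs.ne_zero)
      (mul_ne_zero (pow_ne_zero _ hr.ne_zero) hA0),
      Nat.factorization_mul (pow_ne_zero _ hr.ne_zero) hA0, hs.factorization_pow,
      hr.factorization_pow]
  have ha : A.factorization r = a := by
    rw [hf]; simp [hrs.symm, Nat.factorization_eq_zero_of_not_dvd h0]
  have hb : A.factorization s = b := by
    rw [hf]; simp [hrs, Nat.factorization_eq_zero_of_not_dvd h2]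
  refine ⟨A0, h0, h2, ?_⟩
  rw [ha, hb, e1, e0]; ring

/-- reduced numbers -/
structure Red (A : ℕ) : Prop where
  r1 : ∀ r s, r.Prime → s.Prime → r ≠ 2 → r < s → A.factorization s ≤ A.factorization r
  r2 : ∀ r s, r.Prime → s.Prime → s ≠ 2 → ¬ s ∣ A → r ^ ((A.factorization r + 1) / 2) ≤ s
  r3 : ∀ r s, r.Prime → s.Prime → r ≠ 2 → r ≠ s → A.factorization s = 1 →
    s ≤ r ^ (A.factorization r + 1)

theorem reduce (A : ℕ) (hA : Odd A) : ∃ A', Odd A' ∧ Red A' ∧ ∀ X, N A X ≤ N A' X := by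
  induction A using Nat.strong_induction_on with
  | _ A ih =>
  have hA0 : A ≠ 0 := hA.pos.ne'
  by_cases hred : Red A
  · exact ⟨A, hA, hred, fun _ => le_rfl⟩
  suffices h : ∃ A', A' < A ∧ Odd A' ∧ ∀ X, N A X ≤ N A' X by
    obtain ⟨A', h1, h2, h3⟩ := h
    obtain ⟨A'', h4, h5, h6⟩ := ih A' h1 h2
    exact ⟨A'', h4, h5, fun X => (h3 X).trans (h6 X)⟩
  by_contra hcon
  apply hred
  have hodd : ∀ {A0 r s a b : ℕ}, A = A0 * r ^ a * s ^ b → Odd A0 := by
    intro A0 r s a b e
    rw [e, mul_assoc] at hA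
    exact (Nat.odd_mul.1 hA).1
  refine ⟨?_, ?_, ?_⟩
  · intro r s hr hs hr2 hrs
    by_contra hlt
    push Not at hlt
    obtain ⟨A0, h1, h2, e⟩ := split_two hA0 hr hs hrs.ne
    generalize A.factorization r = a at *
    generalize A.factorization s = b at *
    have hs2 : s ≠ 2 := by have := hr.two_le; omega
    have hA0' := hodd e
    apply hcon
    refine ⟨A0 * r ^ b * s ^ a, ?_, ?_, fun X => ?_⟩
    · rw [e, mul_assoc, mul_assoc]
      refine Nat.mul_lt_mul_of_pos_left ?_ hA0'.pos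
      obtain ⟨c, rfl⟩ := Nat.exists_eq_add_of_lt hlt
      rw [add_assoc, pow_add r, pow_add s, mul_assoc, mul_comm (r ^ (c + 1))]
      refine Nat.mul_lt_mul_of_pos_left ?_ (pow_pos hr.pos _)
      exact Nat.mul_lt_mul_of_pos_left (Nat.pow_lt_pow_left hrs (by omega)) (pow_pos hs.pos _)
    · exact (hA0'.mul (hr.odd_of_ne_two hr2).pow).mul (hs.odd_of_ne_two hs2).pow
    · rw [e]
      refine N_le_two hr hs hrs.ne h1 h2
        (fun x => (x.1 + ((x.1 + x.2 - a) - (x.1 + x.2 - b)),
          x.2 - ((x.1 + x.2 - a) - (x.1 + x.2 - b)))) ?_ ?_ X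
      · intro i j hi hj
        simp only
        refine ⟨by omega, by omega, ?_, ?_⟩
        · have := pow_move hrs.le i (j - ((i + j - a) - (i + j - b))) ((i + j - a) - (i + j - b))
          rwa [show j - ((i + j - a) - (i + j - b)) + ((i + j - a) - (i + j - b)) = j by omega]
            at this
        · have := pow_move hrs.le (a - i) (a - (j - ((i + j - a) - (i + j - b))))
            (b - a - ((i + j - a) - (i + j - b)))
          rwa [show a - i + (b - a - ((i + j - a) - (i + j - b))) =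
              b - (i + ((i + j - a) - (i + j - b))) by omega,
            show a - (j - ((i + j - a) - (i + j - b))) + (b - a - ((i + j - a) - (i + j - b))) =
              b - j by omega] at this
      · intro i j i' j' hi hj hi' hj' h
        simp only [Prod.mk.injEq] at h
        omega
  · intro r s hr hs hs2 hsA
    by_contra hlt
    push Not at hlt
    have hb : A.factorization s = 0 := Nat.factorization_eq_zero_of_not_dvd hsA
    have ha : A.factorization r ≠ 0 := by
      intro h0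
      rw [h0] at hlt
      have := hs.two_le
      simp at hlt
      omega
    have hrs : r ≠ s := by rintro rfl; exact ha hb
    have hr2 : r ≠ 2 := by
      rintro rfl
      exact ha (Nat.factorization_eq_zero_of_not_dvd hA.not_two_dvd_nat)
    obtain ⟨A0, h1, h2, e⟩ := split_two hA0 hr hs hrs
    rw [hb] at e
    generalize A.factorization r = a at *
    have hA0' := hodd e
    set f := (a + 1) / 2 with hf
    apply hcon
    refine ⟨A0 * r ^ (a - f) * s ^ 1, ?_, ?_, fun X => ?_⟩
    · rw [e, mul_assoc, mul_assoc]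
      refine Nat.mul_lt_mul_of_pos_left ?_ hA0'.pos
      rw [pow_zero, mul_one, pow_one]
      calc r ^ (a - f) * s < r ^ (a - f) * r ^ f :=
            Nat.mul_lt_mul_of_pos_left hlt (pow_pos hr.pos _)
        _ = r ^ a := by rw [← pow_add]; congr 1; omega
    · exact (hA0'.mul (hr.odd_of_ne_two hr2).pow).mul (hs.odd_of_ne_two hs2).pow
    · rw [e]
      refine N_le_two hr hs hrs h1 h2
        (fun x => if x.1 ≤ a - f then (x.1, 0) else (x.1 - f, 1)) ?_ ?_ X
      · intro i j hi hj
        obtain rfl : j = 0 := by omega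
        simp only
        split_ifs with hc
        · refine ⟨hc, by omega, le_rfl, ?_⟩
          simp only [Nat.sub_zero, pow_one, pow_zero, mul_one]
          calc r ^ (a - f - i) * s ≤ r ^ (a - f - i) * r ^ f := Nat.mul_le_mul_left _ hlt.le
            _ = r ^ (a - i) := by rw [← pow_add]; congr 1; omega
        · refine ⟨by omega, le_rfl, ?_, ?_⟩
          · simp only [pow_one, pow_zero, mul_one]
            calc r ^ (i - f) * s ≤ r ^ (i - f) * r ^ f := Nat.mul_le_mul_left _ hlt.le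
              _ = r ^ i := by rw [← pow_add]; congr 1; omega
          · simp only [Nat.sub_self, pow_zero, mul_one]
            exact le_of_eq (by congr 1; omega)
      · intro i j i' j' hi hj hi' hj' h
        simp only at h
        split_ifs at h <;> simp only [Prod.mk.injEq] at h <;> omega
  · intro r s hr hs hr2 hrs hb
    by_contra hlt
    push Not at hlt
    obtain ⟨A0, h1, h2, e⟩ := split_two hA0 hr hs hrs
    rw [hb] at e
    generalize A.factorization r = a at *
    have hA0' := hodd e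
    apply hcon
    refine ⟨A0 * r ^ (2 * a + 1) * s ^ 0, ?_, ?_, fun X => ?_⟩
    · rw [e, mul_assoc, mul_assoc]
      refine Nat.mul_lt_mul_of_pos_left ?_ hA0'.pos
      rw [pow_zero, mul_one, pow_one, show 2 * a + 1 = a + (a + 1) by omega, pow_add]
      exact Nat.mul_lt_mul_of_pos_left hlt (pow_pos hr.pos _)
    · rw [pow_zero, mul_one]
      exact hA0'.mul (hr.odd_of_ne_two hr2).pow
    · rw [e]
      refine N_le_two hr hs hrs h1 h2
        (fun x => (x.1 + x.2 * (a + 1), 0)) ?_ ?_ X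
      · intro i j hi hj
        simp only
        rcases (by omega : j = 0 ∨ j = 1) with rfl | rfl
        · refine ⟨by omega, le_rfl, by simp, ?_⟩
          simp only [zero_mul, add_zero, Nat.sub_zero, pow_one, pow_zero, mul_one]
          rw [show 2 * a + 1 - i = (a - i) + (a + 1) by omega, pow_add]
          exact Nat.mul_le_mul_left _ hlt.le
        · refine ⟨by omega, le_rfl, ?_, ?_⟩
          · simp only [one_mul, pow_one, pow_zero, mul_one]
            rw [pow_add]
            exact Nat.mul_le_mul_left _ hlt.le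
          · simp only [Nat.sub_self, pow_zero, mul_one, one_mul]
            exact le_of_eq (by congr 1; omega)
      · intro i j i' j' hi hj hi' hj' h
        simp only [Prod.mk.injEq, and_true] at h
        rcases (by omega : j = 0 ∨ j = 1) with rfl | rfl <;>
          rcases (by omega : j' = 0 ∨ j' = 1) with rfl | rfl <;> omega

end Pool.Agent.MP_22d5c4_co.K
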