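import Pool.Agent.MP_22d5c4_co.Tab
import Pool.Agent.MP_22d5c4_co.Red

namespace Pool.Agent.MP_22d5c4_co.K

open Finset

def PlA (S : ℕ) (pl : List (ℕ × ℕ)) : Prop :=
  (∀ a ∈ pl, a.1.Prime ∧ a.1 ≠ 2 ∧ a.2 = wl S a.1) ∧ pl.Pairwise (fun a b => a.1 < b.1) ∧
    ∀ n < 277, n.Prime → n ≠ 2 → n < 272 ∧ n ∈ pl.map Prod.fst

def plaOK (S : ℕ) (pl : List (ℕ × ℕ)) : Bool :=
  pl.all (fun a => isP a.1 && a.1 != 2 && Nat.ble (2 ^ a.2) (a.1 ^ S) &&
    Nat.blt (a.1 ^ S) (2 ^ (a.2 + 1))) && decide (pl.IsChain fun a b => a.1 < b.1) &&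
    (List.range 277).all fun n => !isP n || n == 2 || (Nat.blt n 272 && (pl.map Prod.fst).elem n)

theorem plaOK_sound {S : ℕ} {pl : List (ℕ × ℕ)} (h : plaOK S pl = true) : PlA S pl := by
  simp only [plaOK, Bool.and_eq_true, List.all_eq_true, isP_iff, Nat.ble_eq, Nat.blt_eq,
    decide_eq_true_eq, bne_iff_ne, ne_eq, List.mem_range, Bool.or_eq_true, Bool.not_eq_true',
    beq_iff_eq, List.elem_eq_mem] at h
  refine ⟨fun a ha => ?_, ?_, fun n hn hp h2 => ?_⟩
  · obtain ⟨⟨⟨h1, h2⟩, h3⟩, h4⟩ := h.1.1 a ha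
    exact ⟨h1, h2, (Nat.log_eq_of_pow_le_of_lt_pow h3 h4).symm⟩
  · have : Trans (fun a b : ℕ × ℕ => a.1 < b.1) (fun a b : ℕ × ℕ => a.1 < b.1)
      (fun a b : ℕ × ℕ => a.1 < b.1) := ⟨fun h1 h2 => lt_trans h1 h2⟩
    exact List.isChain_iff_pairwise.1 h.1.2
  · rcases h.2 n hn with (h3 | h3) | h3
    · rw [(isP_iff n).2 hp] at h3
      exact absurd h3 (by simp)
    · exact absurd h3 h2
    · exact h3

def okD : List Ent → Bool
  | [] => true
  | t :: E => Nat.ble ((t.hi + 1) * hdD E) t.D && Nat.ble t.L1 (t.lo * t.l + hdL1 E) &&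
      Nat.ble t.L2 (max t.lo 2 * t.l + hdL2 E) && okD E

def okH (Pn P fl : ℕ) (t : Ent) : Bool :=
  ((Nat.blt Pn (t.r ^ (t.hi / 2 + 1)) && t.hi % 2 == 0) ||
    (fl == 1 && t.r == P && Nat.ble 1 t.hi)) && Nat.ble t.r P &&
  (if fl = 1 then Nat.ble t.lo 1 || Nat.blt (t.r ^ t.lo) P else Nat.ble t.lo 2)

def okE (Pn P fl : ℕ) (pl : List (ℕ × ℕ)) (E : List Ent) : Bool :=
  decide (E.map (fun t => (t.r, t.l)) = (pl.filter fun a => Nat.blt a.1 Pn).reverse) &&
    okD E && E.all (okH Pn P fl)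

theorem mkE_sound (Pn P fl : ℕ) (k : ℕ → List Ent → Bool) : ∀ (pl : List (ℕ × ℕ))
    (acc : List Ent) (D Lx L1 L2 : ℕ), mkE Pn P fl k pl acc D Lx L1 L2 = true →
      ∃ Lx E, k Lx E = true
  | [], acc, _, Lx, _, _, h => ⟨Lx, acc, h⟩
  | a :: pl, acc, D, Lx, L1, L2, h => by
    unfold mkE at h
    simp only at h
    cases hb : Nat.blt a.1 Pn
    · rw [hb] at h
      exact ⟨Lx, acc, h⟩
    · rw [hb] at h
      simp only [frc_eq] at h
      exact mkE_sound Pn P fl k pl _ _ _ _ _ h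

theorem okE_OkE {S : ℕ} : ∀ E : List Ent, (∀ t ∈ E, t.r.Prime ∧ t.l = wl S t.r) →
    E.Pairwise (fun s t => t.r < s.r) → okD E = true → OkE S E
  | [], _, _, _ => trivial
  | t :: E, h1, h2, h3 => by
    simp only [okD, Bool.and_eq_true, Nat.ble_eq] at h3
    rw [List.pairwise_cons] at h2
    exact ⟨(h1 t (by simp)).1, h2.1, (h1 t (by simp)).2, h3.1.1.1, h3.1.1.2, h3.1.2,
      okE_OkE E (fun s hs => h1 s (List.mem_cons_of_mem _ hs)) h2.2 h3.2⟩

theorem cons_of (e : ℕ → ℕ) : ∀ (E : List Ent) (ep : ℕ),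
    (∀ t ∈ E, ep ≤ e t.r ∧ t.lo ≤ e t.r ∧ e t.r ≤ t.hi) →
    E.Pairwise (fun s t => e s.r ≤ e t.r) → Cons e ep E
  | [], _, _, _ => trivial
  | t :: E, ep, h1, h2 => by
    rw [List.pairwise_cons] at h2
    obtain ⟨a1, a2, a3⟩ := h1 t (by simp)
    exact ⟨a1, a2, a3, cons_of e E _
      (fun s hs => ⟨h2.1 s hs, (h1 s (List.mem_cons_of_mem _ hs)).2⟩) h2.2⟩

noncomputable def chk (S K W xm nT T : ℕ) (pl : List (ℕ × ℕ)) (Pn P fl : ℕ) : Bool :=
  an (an (isP P) (an (P != 2) (Nat.blt P Pn)))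
    (mkE Pn P fl (fun Lx E => an (okE Pn P fl pl E) (run K W xm nT T Lx E)) pl [] 1 0 0 0)

theorem chk_sound {S K W xm nT T Pn P : ℕ} {pl : List (ℕ × ℕ)} (hK : 2 ≤ K) (hpl : PlA S pl)
    (hT : TabOK S K (2 ^ (K - 2) - 1) T nT xm) (hPn : Pn < 277)
    (h1 : chk S K W xm nT T pl Pn P 1 = true) (h2 : chk S K W xm nT T pl Pn P 2 = true)
    {A : ℕ} (hA : Odd A) (hR : Red A) (hp : Pn.Prime) (hp2 : Pn ≠ 2) (hnd : ¬ Pn ∣ A)
    (hall : ∀ r, r.Prime → r ≠ 2 → r < Pn → r ∣ A) :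
    ∀ X, 2 ^ xm ≤ X ^ S → ∃ B, 0 < B ∧ N A X ≤ N B (X / 8) := by
  have hA0 : A ≠ 0 := hA.pos.ne'
  obtain ⟨fl, hfl, h⟩ : ∃ fl, (fl = 1 ↔ A.factorization P = 1) ∧
      chk S K W xm nT T pl Pn P fl = true := by
    by_cases hc : A.factorization P = 1
    · exact ⟨1, by simp [hc], h1⟩
    · exact ⟨2, by simp [hc], h2⟩
  simp only [chk, an_eq, isP_iff, bne_iff_ne, ne_eq, Nat.blt_eq] at h
  obtain ⟨⟨hP, hP2, hPP⟩, h⟩ := h
  obtain ⟨Lx, E, h⟩ := mkE_sound _ _ _ _ _ _ _ _ _ _ h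
  simp only [an_eq, okE, Bool.and_eq_true, decide_eq_true_eq, List.all_eq_true] at h
  obtain ⟨⟨⟨e1, e2⟩, e3⟩, hrun⟩ := h
  have hmem : ∀ t ∈ E, (t.r, t.l) ∈ pl ∧ t.r < Pn := by
    intro t ht
    have : (t.r, t.l) ∈ E.map (fun t => (t.r, t.l)) := List.mem_map_of_mem ht
    rw [e1, List.mem_reverse, List.mem_filter, Nat.blt_eq] at this
    exact this
  have hpw : E.Pairwise (fun s t => t.r < s.r) := by
    have : (E.map (fun t => (t.r, t.l))).Pairwise (fun a b => b.1 < a.1) := by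
      rw [e1, List.pairwise_reverse]
      exact hpl.2.1.filter _
    rwa [List.pairwise_map] at this
  have hE : OkE S E := okE_OkE E
    (fun t ht => ⟨(hpl.1 _ (hmem t ht).1).1, (hpl.1 _ (hmem t ht).1).2.2⟩) hpw e2
  have hpos : ∀ r, r.Prime → r ≠ 2 → r < Pn → 1 ≤ A.factorization r := fun r a b c =>
    a.factorization_pos_of_dvd hA0 (hall r a b c)
  have hc : Cons A.factorization 1 E := by
    refine cons_of _ E 1 (fun t ht => ?_) ?_
    · obtain ⟨a1, a2, -⟩ := hpl.1 _ (hmem t ht).1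
      simp only at a1 a2
      have a3 := hpos _ a1 a2 (hmem t ht).2
      have a4 := e3 t ht
      simp only [okH, Bool.and_eq_true, Bool.or_eq_true, Nat.blt_eq, Nat.ble_eq,
        beq_iff_eq] at a4
      obtain ⟨⟨a4, a5⟩, a6⟩ := a4
      refine ⟨a3, ?_, ?_⟩
      · split_ifs at a6 with hf
        · simp only [Bool.or_eq_true, Nat.blt_eq, Nat.ble_eq] at a6
          rcases a6 with a6 | a6
          · omega
          · by_contra hlt
            have hne : t.r ≠ P := by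
              intro e
              rw [e] at a6 hlt a3
              exact absurd (Nat.le_self_pow (by omega) P) (not_le.2 a6)
            have b1 := hR.r3 t.r P a1 hP a2 hne (hfl.1 hf)
            have b2 : t.r ^ (A.factorization t.r + 1) ≤ t.r ^ t.lo :=
              Nat.pow_le_pow_right a1.pos (by omega)
            omega
        · rw [Nat.ble_eq] at a6
          have b1 := hpos P hP hP2 hPP
          have b2 : A.factorization P ≠ 1 := fun e => hf (hfl.2 e)
          rcases a5.eq_or_lt with e | e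
          · rw [e]; omega
          · have := hR.r1 t.r P a1 hP a2 e
            omega
      · rcases a4 with a4 | a4
        · by_contra hlt
          have b1 := hR.r2 t.r Pn a1 hp hp2 hnd
          have b2 : t.r ^ (t.hi / 2 + 1) ≤ t.r ^ ((A.factorization t.r + 1) / 2) :=
            Nat.pow_le_pow_right a1.pos (by omega)
          omega
        · have := hfl.1 a4.1.1
          rw [a4.1.2]
          omega
    · refine (List.Pairwise.and_mem.1 hpw).imp ?_
      rintro s t ⟨hs, ht, hst⟩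
      exact hR.r1 _ _ (hE.prime t ht) (hE.prime s hs) (hpl.1 _ (hmem t ht).1).2.1 hst
  have hprod : prodE A.factorization E = A := by
    have hnd' : (E.map fun t => t.r).Nodup := by
      rw [List.Nodup, List.pairwise_map]
      exact hpw.imp fun h => h.ne'
    have hsub : A.factorization.support ⊆ (E.map fun t => t.r).toFinset := by
      intro r hr
      rw [Nat.support_factorization, Nat.mem_primeFactors] at hr
      have hr2 : r ≠ 2 := by
        rintro rfl
        exact hA.not_two_dvd_nat hr.2.1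
      have hlt : r < Pn := by
        by_contra hge
        have hne : r ≠ Pn := by rintro rfl; exact hnd hr.2.1
        have b1 := hR.r1 Pn r hp hr.1 hp2 (by omega)
        rw [Nat.factorization_eq_zero_of_not_dvd hnd] at b1
        have := hr.1.factorization_pos_of_dvd hA0 hr.2.1
        omega
      obtain ⟨a, ha, rfl⟩ := List.mem_map.1 (hpl.2.2 r (by omega) hr.1 hr2).2
      have : a ∈ E.map (fun t => (t.r, t.l)) := by
        rw [e1, List.mem_reverse, List.mem_filter, Nat.blt_eq]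
        exact ⟨ha, hlt⟩
      obtain ⟨t, ht, rfl⟩ := List.mem_map.1 this
      exact List.mem_toFinset.2 (List.mem_map_of_mem ht)
    conv_rhs => rw [← Nat.factorization_prod_pow_eq_self hA0]
    rw [Finsupp.prod_of_support_subset _ hsub _ (by simp), List.prod_toFinset _ hnd', prodE,
      List.map_map]
    rfl
  have := run_sound hK _ E hE hc hT hrun
  rwa [hprod] at this

end Pool.Agent.MP_22d5c4_co.K
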