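import Pool.Agent.MP_22d5c4_co.KTab
import Pool.Agent.MP_22d5c4_co.Link

namespace Pool.Agent.MP_22d5c4_co.K

set_option maxRecDepth 100000

def sgm (n L : ℕ) (l : List ℕ) (k : ℕ) : ℕ × ℕ × List ℕ := (n, L, l ++ List.replicate k 1)

theorem sg8_0 : segsT 8 104 tab8 103 plb8 0 1697 [
    sgm 2 120 [3, 2] 3,
    sgm 13 128 [4, 2] 3,
    sgm 2 150 [3, 2] 4,
    sgm 8 158 [4, 2] 4,
    sgm 10 166 [5, 2] 4,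
    sgm 3 191 [4, 2] 5,
    sgm 10 198 [5, 3, 2] 3,
    sgm 6 206 [6, 3, 2] 3,
    sgm 11 231 [5, 3, 2] 4,
    sgm 5 239 [6, 3, 2] 4,
    sgm 3 246 [5, 3] 6,
    sgm 17 265 [5, 3, 2] 5,
    sgm 3 296 [6, 3, 2, 2] 4,
    sgm 7 302 [5, 3, 2] 6,
    sgm 13 310 [6, 3, 2] 6,
    sgm 6 341 [5, 3, 2] 7,
    sgm 10 346 [6, 4, 2, 2] 5,
    sgm 12 372 [6, 3, 2, 2] 6,
    sgm 4 389 [6, 3, 2] 8,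
    sgm 10 393 [7, 4, 2, 2] 6,
    sgm 11 425 [6, 4, 2, 2] 7,
    sgm 14 433 [7, 4, 2, 2] 7,
    sgm 17 475 [7, 4, 2, 2] 8,
    sgm 3 494 [7, 4, 3, 2] 8,
    sgm 4 497 [6, 3, 2, 2] 9,
    sgm 18 518 [7, 4, 2, 2] 9,
    sgm 8 554 [6, 4, 2, 2] 10,
    sgm 15 562 [7, 4, 2, 2] 10,
    sgm 8 599 [6, 4, 2, 2] 11,
    sgm 16 607 [7, 4, 2, 2] 11,
    sgm 3 630 [8, 5, 3, 2, 2] 9,
    sgm 14 653 [7, 4, 2, 2] 12,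
    sgm 15 672 [7, 4, 3, 2] 12,
    sgm 11 701 [7, 4, 2, 2] 13,
    sgm 15 728 [8, 4, 3, 2] 13,
    sgm 18 749 [7, 4, 2, 2] 14,
    sgm 2 798 [7, 4, 2, 2] 15,
    sgm 27 804 [8, 4, 3, 2, 2] 13,
    sgm 8 855 [9, 5, 3, 2, 2, 2] 12,
    sgm 19 866 [8, 5, 3, 2, 2] 14,
    sgm 8 904 [9, 5, 3, 2, 2, 2] 13,
    sgm 20 916 [8, 5, 3, 2, 2] 15,
    sgm 26 966 [8, 5, 3, 2, 2] 16,
    sgm 24 1017 [8, 5, 3, 2, 2] 17,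
    sgm 8 1027 [9, 5, 3, 3, 2, 2] 15,
    sgm 1 1053 [7, 4, 2, 2] 20,
    sgm 10 1080 [8, 4, 3, 2] 20,
    sgm 25 1099 [8, 5, 3, 2, 2, 2] 17,
    sgm 24 1151 [8, 5, 3, 2, 2, 2] 18,
    sgm 5 1161 [8, 4, 3, 2, 2] 20,
    sgm 23 1212 [9, 5, 3, 2, 2, 2] 19,
    sgm 7 1228 [8, 5, 3, 2, 2] 21,
    sgm 20 1266 [9, 5, 3, 2, 2, 2] 20,
    sgm 7 1282 [8, 5, 3, 2, 2] 22,
    sgm 20 1320 [9, 5, 3, 2, 2, 2] 21,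
    sgm 7 1336 [8, 5, 3, 2, 2] 23,
    sgm 23 1374 [9, 5, 3, 2, 2, 2] 22,
    sgm 13 1391 [8, 5, 3, 2, 2] 24,
    sgm 2 1446 [8, 5, 3, 2, 2] 25,
    sgm 28 1452 [9, 5, 3, 3, 2, 2] 23,
    sgm 21 1507 [9, 5, 3, 3, 2, 2] 24,
    sgm 17 1532 [8, 5, 3, 2, 2, 2] 25,
    sgm 6 1559 [10, 6, 4, 3, 2, 2, 2, 2] 21,
    sgm 4 1589 [8, 5, 3, 2, 2, 2] 26,
    sgm 22 1596 [9, 5, 3, 3, 2, 2, 2] 24,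
    sgm 4 1614 [10, 6, 4, 3, 2, 2, 2, 2] 22,
    sgm 3 1646 [8, 5, 3, 2, 2, 2] 27,
    sgm 25 1653 [9, 5, 3, 3, 2, 2, 2] 25,
    sgm 3 1703 [8, 5, 3, 2, 2, 2] 28,
    sgm 26 1710 [9, 5, 3, 3, 2, 2, 2] 26,
    sgm 10 1761 [8, 5, 3, 2, 2, 2] 29,
    sgm 24 1780 [9, 6, 3, 3, 2, 2, 2] 27,
    sgm 15 1827 [9, 5, 3, 2, 2, 2] 30,
    sgm 21 1857 [9, 6, 4, 3, 2, 2, 2] 28,
    sgm 7 1886 [9, 5, 3, 2, 2, 2] 31,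
    sgm 24 1915 [9, 6, 4, 3, 2, 2, 2] 29,
    sgm 17 1945 [9, 5, 3, 2, 2, 2] 32,
    sgm 10 2002 [11, 6, 4, 3, 2, 2, 2, 2, 2] 27,
    sgm 26 2016 [10, 6, 4, 3, 2, 2, 2, 2] 29,
    sgm 3 2061 [11, 6, 4, 3, 2, 2, 2, 2, 2] 28,
    sgm 26 2075 [10, 6, 4, 3, 2, 2, 2, 2] 30,
    sgm 6 2120 [11, 6, 4, 3, 2, 2, 2, 2, 2] 29,
    sgm 24 2135 [10, 6, 4, 3, 2, 2, 2, 2] 31,
    sgm 6 2180 [11, 6, 4, 3, 2, 2, 2, 2, 2] 30,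
    sgm 27 2195 [10, 6, 4, 3, 2, 2, 2, 2] 32,
    sgm 30 2255 [10, 6, 4, 3, 2, 2, 2, 2] 33,
    sgm 31 2315 [10, 6, 4, 3, 2, 2, 2, 2] 34,
    sgm 30 2376 [10, 6, 4, 3, 2, 2, 2, 2] 35,
    sgm 31 2437 [10, 6, 4, 3, 2, 2, 2, 2] 36,
    sgm 31 2498 [10, 6, 4, 3, 2, 2, 2, 2] 37,
    sgm 31 2560 [10, 6, 4, 3, 2, 2, 2, 2] 38,
    sgm 34 2622 [10, 6, 4, 3, 2, 2, 2, 2] 39,
    sgm 15 2674 [9, 5, 3, 3, 2, 2, 2] 42,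
    sgm 32 2722 [10, 6, 4, 3, 2, 2, 2, 2, 2] 39,
    sgm 1 2750 [9, 6, 3, 3, 2, 2, 2] 43,
    sgm 30 2785 [10, 6, 4, 3, 2, 2, 2, 2, 2] 40,
    sgm 2 2813 [9, 6, 3, 3, 2, 2, 2] 44,
    sgm 31 2848 [10, 6, 4, 3, 2, 2, 2, 2, 2] 41,
    sgm 33 2911 [10, 6, 4, 3, 2, 2, 2, 2, 2] 42,
    sgm 32 2975 [10, 6, 4, 3, 2, 2, 2, 2, 2] 43,
    sgm 34 3039 [10, 6, 4, 3, 2, 2, 2, 2, 2] 44,
    sgm 25 3111 [11, 6, 4, 3, 2, 2, 2, 2, 2] 45,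
    sgm 12 3131 [10, 6, 4, 3, 2, 2, 2, 2] 47,
    sgm 20 3176 [11, 6, 4, 3, 2, 2, 2, 2, 2] 46,
    sgm 13 3196 [10, 6, 4, 3, 2, 2, 2, 2] 48,
    sgm 20 3241 [11, 6, 4, 3, 2, 2, 2, 2, 2] 47,
    sgm 12 3261 [10, 6, 4, 3, 2, 2, 2, 2] 49,
    sgm 20 3306 [11, 6, 4, 3, 2, 2, 2, 2, 2] 48,
    sgm 13 3326 [10, 6, 4, 3, 2, 2, 2, 2] 50,
    sgm 20 3371 [11, 6, 4, 3, 2, 2, 2, 2, 2] 49,
    sgm 12 3391 [10, 6, 4, 3, 2, 2, 2, 2] 51,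
    sgm 23 3436 [11, 6, 4, 3, 2, 2, 2, 2, 2] 50] = true := by
  decide +kernel

theorem sg8_1 : segsT 8 104 tab8 103 plb8 1697 2343 [
    sgm 10 3457 [10, 6, 4, 3, 2, 2, 2, 2] 52,
    sgm 23 3502 [11, 6, 4, 3, 2, 2, 2, 2, 2] 51,
    sgm 10 3523 [10, 6, 4, 3, 2, 2, 2, 2] 53,
    sgm 23 3568 [11, 6, 4, 3, 2, 2, 2, 2, 2] 52,
    sgm 10 3589 [10, 6, 4, 3, 2, 2, 2, 2] 54,
    sgm 26 3634 [11, 6, 4, 3, 2, 2, 2, 2, 2] 53,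
    sgm 12 3656 [10, 6, 4, 3, 2, 2, 2, 2] 55,
    sgm 34 3714 [11, 7, 4, 3, 2, 2, 2, 2, 2] 54,
    sgm 34 3781 [11, 7, 4, 3, 2, 2, 2, 2, 2] 55,
    sgm 35 3848 [11, 7, 4, 3, 2, 2, 2, 2, 2] 56,
    sgm 3 3857 [10, 6, 4, 3, 2, 2, 2, 2] 58,
    sgm 18 3924 [10, 6, 4, 3, 2, 2, 2, 2] 59,
    sgm 27 3954 [11, 7, 4, 3, 2, 2, 2, 2, 2, 2] 56,
    sgm 16 3992 [10, 6, 4, 3, 2, 2, 2, 2] 60,
    sgm 36 4049 [11, 7, 4, 3, 3, 2, 2, 2, 2, 2] 57,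
    sgm 34 4117 [11, 7, 4, 3, 3, 2, 2, 2, 2, 2] 58,
    sgm 34 4185 [11, 7, 4, 3, 3, 2, 2, 2, 2, 2] 59,
    sgm 34 4253 [11, 7, 4, 3, 3, 2, 2, 2, 2, 2] 60,
    sgm 31 4321 [11, 7, 4, 3, 3, 2, 2, 2, 2, 2] 61,
    sgm 22 4370 [10, 6, 4, 3, 2, 2, 2, 2, 2] 64,
    sgm 36 4429 [11, 7, 4, 3, 3, 2, 2, 2, 2, 2, 2] 61,
    sgm 34 4498 [11, 7, 4, 3, 3, 2, 2, 2, 2, 2, 2] 62,
    sgm 35 4567 [11, 7, 4, 3, 3, 2, 2, 2, 2, 2, 2] 63,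
    sgm 34 4636 [11, 7, 4, 3, 3, 2, 2, 2, 2, 2, 2] 64,
    sgm 35 4705 [11, 7, 4, 3, 3, 2, 2, 2, 2, 2, 2] 65] = true := by
  decide +kernel

theorem sg8_2 : segsT 8 104 tab8 103 plb8 2343 2730 [
    sgm 35 4774 [11, 7, 4, 3, 3, 2, 2, 2, 2, 2, 2] 66,
    sgm 35 4844 [11, 7, 4, 3, 3, 2, 2, 2, 2, 2, 2] 67,
    sgm 37 4914 [11, 7, 4, 3, 3, 2, 2, 2, 2, 2, 2] 68,
    sgm 37 4992 [12, 7, 4, 3, 3, 2, 2, 2, 2, 2, 2] 69,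
    sgm 42 5062 [12, 7, 4, 3, 3, 2, 2, 2, 2, 2, 2] 70,
    sgm 1 5138 [10, 6, 4, 3, 2, 2, 2, 2, 2] 75,
    sgm 40 5155 [12, 7, 4, 4, 3, 2, 2, 2, 2, 2, 2] 71,
    sgm 35 5226 [12, 7, 4, 4, 3, 2, 2, 2, 2, 2, 2] 72,
    sgm 36 5297 [12, 7, 4, 4, 3, 2, 2, 2, 2, 2, 2] 73,
    sgm 35 5368 [12, 7, 4, 4, 3, 2, 2, 2, 2, 2, 2] 74,
    sgm 36 5439 [12, 7, 4, 4, 3, 2, 2, 2, 2, 2, 2] 75,
    sgm 18 5510 [12, 7, 4, 4, 3, 2, 2, 2, 2, 2, 2] 76] = true := by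
  decide +kernel

theorem dg8 : digsOK 104 tab8 2730 = true := by decide +kernel

theorem plb8_ok : plbOK 8 plb8 = true := by decide +kernel

theorem pl8_ok : plaOK 8 pl8 = true := by decide +kernel

theorem tab8_ok : TabOK 8 104 (2 ^ (104 - 2) - 1) tab8 2730 103 := by
  intro j hj
  by_cases h0 : j < 1697
  · exact segsT_sound (by norm_num) (by norm_num) (plbOK_sound plb8_ok) dg8 (by norm_num) sg8_0 j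
      (by omega) h0
  by_cases h1 : j < 2343
  · exact segsT_sound (by norm_num) (by norm_num) (plbOK_sound plb8_ok) dg8 (by norm_num) sg8_1 j
      (by omega) h1
  exact segsT_sound (by norm_num) (by norm_num) (plbOK_sound plb8_ok) dg8 (by norm_num) sg8_2 j
      (by omega) hj

theorem sg64_0 : segsT 64 32 tab64 829 plb64 0 2130 [
    sgm 3 947 [3, 2] 3,
    sgm 64 1011 [4, 2] 3,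
    sgm 7 1075 [5, 2] 3,
    sgm 40 1113 [4, 3] 3,
    sgm 31 1177 [5, 3] 3,
    sgm 2 1248 [4, 2] 4,
    sgm 4 1177 [5, 3] 3,
    sgm 36 1248 [4, 2] 4,
    sgm 5 1312 [5, 2] 4,
    sgm 38 1350 [4, 3] 4,
    sgm 2 1397 [4, 2, 2] 3,
    sgm 2 1350 [4, 3] 4,
    sgm 36 1414 [5, 3] 4,
    sgm 7 1461 [5, 2, 2] 3,
    sgm 2 1414 [5, 3] 4,
    sgm 26 1499 [4, 3, 2] 3,
    sgm 63 1563 [5, 3, 2] 3,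
    sgm 1 1676 [5, 3] 5,
    sgm 2 1627 [6, 3, 2] 3,
    sgm 1 1676 [5, 3] 5,
    sgm 2 1627 [6, 3, 2] 3,
    sgm 10 1676 [5, 3] 5,
    sgm 1 1627 [6, 3, 2] 3,
    sgm 19 1676 [5, 3] 5,
    sgm 1 1723 [5, 2, 2] 4,
    sgm 8 1676 [5, 3] 5,
    sgm 25 1761 [4, 3, 2] 4,
    sgm 64 1825 [5, 3, 2] 4,
    sgm 49 1889 [6, 3, 2] 4,
    sgm 22 2033 [4, 3, 2] 5,
    sgm 64 2097 [5, 3, 2] 5,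
    sgm 68 2161 [6, 3, 2] 5,
    sgm 18 2277 [5, 3, 2, 2] 4,
    sgm 59 2387 [5, 3, 2] 6,
    sgm 62 2451 [6, 3, 2] 6,
    sgm 29 2553 [6, 4, 2] 6,
    sgm 1 2631 [6, 3, 2, 2] 5,
    sgm 1 2553 [6, 4, 2] 6,
    sgm 60 2631 [6, 3, 2, 2] 5,
    sgm 38 2733 [6, 4, 2, 2] 5,
    sgm 1 2762 [6, 3, 2] 7,
    sgm 2 2733 [6, 4, 2, 2] 5,
    sgm 5 2762 [6, 3, 2] 7,
    sgm 2 2733 [6, 4, 2, 2] 5,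
    sgm 13 2762 [6, 3, 2] 7,
    sgm 1 2797 [7, 4, 2, 2] 5,
    sgm 1 2762 [6, 3, 2] 7,
    sgm 11 2797 [7, 4, 2, 2] 5,
    sgm 17 2878 [5, 3, 2, 2] 6,
    sgm 64 2942 [6, 3, 2, 2] 6,
    sgm 51 3044 [6, 4, 2, 2] 6,
    sgm 36 3108 [7, 4, 2, 2] 6,
    sgm 12 3182 [6, 4, 2] 8,
    sgm 59 3260 [6, 3, 2, 2] 7,
    sgm 52 3362 [6, 4, 2, 2] 7,
    sgm 64 3426 [7, 4, 2, 2] 7,
    sgm 12 3490 [8, 4, 2, 2] 7,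
    sgm 39 3594 [6, 3, 2, 2] 8,
    sgm 52 3696 [6, 4, 2, 2] 8,
    sgm 64 3760 [7, 4, 2, 2] 8,
    sgm 16 3824 [8, 4, 2, 2] 8,
    sgm 45 3909 [7, 4, 3, 2] 8,
    sgm 47 4039 [6, 4, 2, 2] 9,
    sgm 64 4103 [7, 4, 2, 2] 9,
    sgm 16 4167 [8, 4, 2, 2] 9,
    sgm 56 4252 [7, 4, 3, 2] 9,
    sgm 38 4387 [6, 4, 2, 2] 10,
    sgm 64 4451 [7, 4, 2, 2] 10,
    sgm 15 4515 [8, 4, 2, 2] 10,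
    sgm 73 4600 [7, 4, 3, 2] 10,
    sgm 26 4743 [6, 4, 2, 2] 11,
    sgm 64 4807 [7, 4, 2, 2] 11,
    sgm 16 4871 [8, 4, 2, 2] 11,
    sgm 59 4956 [7, 4, 3, 2] 11] = true := by
  decide +kernel

theorem dg64 : digsOK 32 tab64 2130 = true := by decide +kernel

theorem plb64_ok : plbOK 64 plb64 = true := by decide +kernel

theorem pl64_ok : plaOK 64 pl64 = true := by decide +kernel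

theorem tab64_ok : TabOK 64 32 (2 ^ (32 - 2) - 1) tab64 2130 829 := by
  intro j hj
  exact segsT_sound (by norm_num) (by norm_num) (plbOK_sound plb64_ok) dg64 (by norm_num) sg64_0 j
      (by omega) hj

end Pool.Agent.MP_22d5c4_co.K
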