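import Mathlib

namespace Pool.Agent.MP_22d5c4_co

open Finset

theorem sum_div_prod (c : ℕ → ℝ) {A : ℕ} (hA : A ≠ 0) :
    ∑ u ∈ A.divisors, ∏ p ∈ u.primeFactors, c p
      = ∏ p ∈ A.primeFactors, (1 + (A.factorization p : ℝ) * c p) := by
  have hm : ((ArithmeticFunction.zeta : ArithmeticFunction ℝ) *
      ArithmeticFunction.prodPrimeFactors c).IsMultiplicative :=
    ArithmeticFunction.isMultiplicative_zeta.natCast.mul
      (ArithmeticFunction.IsMultiplicative.prodPrimeFactors c)
  have h1 := hm.multiplicative_factorization _ hA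
  rw [ArithmeticFunction.coe_zeta_mul_apply] at h1
  have h2 : ∑ u ∈ A.divisors, ∏ p ∈ u.primeFactors, c p
      = ∑ i ∈ A.divisors, ArithmeticFunction.prodPrimeFactors c i := by
    refine sum_congr rfl fun u hu => ?_
    rw [ArithmeticFunction.prodPrimeFactors_apply (Nat.pos_of_mem_divisors hu).ne']
  rw [h2, h1, Finsupp.prod, Nat.support_factorization]
  refine prod_congr rfl fun p hp => ?_
  have hpp := Nat.prime_of_mem_primeFactors hp
  rw [ArithmeticFunction.coe_zeta_mul_apply, Nat.sum_divisors_prime_pow hpp, sum_range_succ']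
  have : ∀ i ∈ range (A.factorization p),
      ArithmeticFunction.prodPrimeFactors c (p ^ (i + 1)) = c p := by
    intro i _
    rw [ArithmeticFunction.prodPrimeFactors_apply (pow_ne_zero _ hpp.ne_zero),
      Nat.primeFactors_prime_pow (Nat.succ_ne_zero i) hpp, prod_singleton]
  rw [sum_congr rfl this]
  simp [ArithmeticFunction.prodPrimeFactors_apply, add_comm]

theorem card_div_mul_le (m n : ℕ) :
    (m * n).divisors.card ≤ m.divisors.card * n.divisors.card := by
  rw [Nat.divisors_mul]
  exact Finset.card_mul_le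

theorem pack {Y g : ℕ} (hY : 1 ≤ Y) (hg : ∀ B, 0 < B → B ≤ Y → B.divisors.card ≤ g) :
    ∀ r A, 0 < A → A ≤ Y ^ (r + 1) → A.divisors.card ≤ g * (2 * g) ^ r := by
  intro r
  induction r with
  | zero => intro A hA hle; simpa using hg A hA (by simpa using hle)
  | succ r ih =>
    intro A hA hle
    have hg1 : 1 ≤ g := by simpa using hg 1 one_pos hY
    by_cases hAY : A ≤ Y
    · calc A.divisors.card ≤ g := hg A hA hAY
        _ ≤ g * (2 * g) ^ (r + 1) := Nat.le_mul_of_pos_right _ (by positivity)
    · push Not at hAY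
      have hne : (A.divisors.filter (· ≤ Y)).Nonempty :=
        ⟨1, by simp [hA.ne', hY]⟩
      obtain ⟨B, hB, hmax⟩ := exists_max_image _ id hne
      rw [mem_filter, Nat.mem_divisors] at hB
      obtain ⟨⟨⟨E, hE⟩, -⟩, hBY⟩ := hB
      have hB0 : 0 < B := Nat.pos_of_ne_zero (by rintro rfl; omega)
      have hE1 : E ≠ 1 := by rintro rfl; omega
      obtain ⟨q, hq, A', hA'⟩ := Nat.exists_prime_and_dvd hE1
      have hAeq : A = B * q * A' := by rw [hE, hA']; ring
      have hBq : Y < B * q := by
        by_contra hc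
        push Not at hc
        have := hmax (B * q) (by
          rw [mem_filter, Nat.mem_divisors]
          exact ⟨⟨⟨A', hAeq⟩, hA.ne'⟩, hc⟩)
        have h2 := hq.two_le
        simp only [id] at this
        nlinarith
      have hA'0 : 0 < A' := Nat.pos_of_ne_zero (by rintro rfl; omega)
      have hA'le : A' ≤ Y ^ (r + 1) := by
        by_contra hc
        push Not at hc
        have : Y ^ (r + 1 + 1) < A := by
          rw [hAeq, pow_succ, mul_comm]
          exact Nat.mul_lt_mul'' hBq hc
        omega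
      have h1 := ih A' hA'0 hA'le
      have h2 : q.divisors.card = 2 := by
        rw [hq.divisors, card_pair hq.one_lt.ne]
      calc A.divisors.card = (B * q * A').divisors.card := by rw [← hAeq]
        _ ≤ (B * q).divisors.card * A'.divisors.card := card_div_mul_le _ _
        _ ≤ (B.divisors.card * q.divisors.card) * A'.divisors.card :=
            Nat.mul_le_mul_right _ (card_div_mul_le _ _)
        _ ≤ (g * 2) * (g * (2 * g) ^ r) := by
            rw [h2]
            exact Nat.mul_le_mul (Nat.mul_le_mul_right _ (hg B hB0 hBY)) h1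
        _ = g * (2 * g) ^ (r + 1) := by ring

theorem exists_many_div (K : ℕ) :
    ∃ Q : ℕ, 0 < Q ∧ ∀ r, (r + 1) ^ K ≤ (Q ^ r).divisors.card := by
  obtain ⟨T, hT, hcard⟩ := Nat.infinite_setOfPred_prime.exists_subset_card_eq K
  have hTp : ∀ p ∈ T, p.Prime := fun p hp => hT hp
  have hQ : 0 < ∏ p ∈ T, p := prod_pos fun p hp => (hTp p hp).pos
  refine ⟨∏ p ∈ T, p, hQ, fun r => ?_⟩
  rcases Nat.eq_zero_or_pos r with rfl | hr
  · simp
  rw [Nat.card_divisors (pow_ne_zero _ hQ.ne'), Nat.primeFactors_pow _ hr.ne',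
    Nat.primeFactors_prod hTp, ← hcard, ← prod_const]
  refine prod_le_prod' fun p hp => ?_
  have h1 : 1 ≤ (∏ p ∈ T, p).factorization p :=
    ((hTp p hp).dvd_iff_one_le_factorization hQ.ne').1 (dvd_prod_of_mem _ hp)
  rw [Nat.factorization_pow]
  simp only [Finsupp.smul_apply, smul_eq_mul]
  nlinarith

end Pool.Agent.MP_22d5c4_co
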