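import Pool.Agent.MP_22d5c4_co.NT1

namespace Pool.Agent.MP_22d5c4_co

open Finset

/-- the big primes of `A` -/
def bigP (A P : ℕ) : Finset ℕ := A.primeFactors.filter (P ≤ ·)

/-- weight of a prime -/
noncomputable def wt (A p : ℕ) : ℝ := Real.log ((A.factorization p : ℝ) + 1)

/-- weight of the big primes of `A` dividing `u` -/
noncomputable def wU (A P u : ℕ) : ℝ := ∑ p ∈ (bigP A P).filter (· ∣ u), wt A p

/-- total weight -/
noncomputable def wT (A P : ℕ) : ℝ := ∑ p ∈ bigP A P, wt A p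

/-- number of divisors of the small part -/
def smallD (A P : ℕ) : ℕ := ∏ p ∈ A.primeFactors.filter (¬ P ≤ ·), (A.factorization p + 1)

theorem wt_nonneg (A p : ℕ) : 0 ≤ wt A p :=
  Real.log_nonneg (by have : (0 : ℝ) ≤ (A.factorization p : ℝ) := Nat.cast_nonneg _; linarith)

theorem smallD_pos (A P : ℕ) : 0 < smallD A P := prod_pos fun _ _ => Nat.succ_pos _

theorem card_div_eq {A : ℕ} (hA : A ≠ 0) (P : ℕ) :
    (A.divisors.card : ℝ) = smallD A P * Real.exp (wT A P) := by
  rw [Nat.card_divisors hA, ← prod_filter_not_mul_prod_filter A.primeFactors (P ≤ ·), smallD,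
    wT, Real.exp_sum, bigP]
  push_cast
  congr 1
  refine prod_congr rfl fun p _ => ?_
  rw [wt, Real.exp_log (by positivity)]

theorem one_add_le (e : ℕ) (he : 1 ≤ e) :
    1 + (e : ℝ) * Real.exp (-6 * Real.log ((e : ℝ) + 1)) ≤
      Real.exp (Real.log ((e : ℝ) + 1) / 20) := by
  have he' : (1 : ℝ) ≤ e := by exact_mod_cast he
  have h1 : Real.exp (-6 * Real.log ((e : ℝ) + 1)) = (((e : ℝ) + 1) ^ 6)⁻¹ := by
    rw [show -6 * Real.log ((e : ℝ) + 1) = -(((6 : ℕ) : ℝ) * Real.log ((e : ℝ) + 1)) by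
      push_cast; ring, Real.exp_neg, ← Real.log_pow, Real.exp_log (by positivity)]
  have h2 : (e : ℝ) * (((e : ℝ) + 1) ^ 6)⁻¹ ≤ 1 / 32 := by
    rw [← div_eq_mul_inv, div_le_div_iff₀ (by positivity) (by norm_num)]
    have h5 : (2 : ℝ) ^ 5 ≤ ((e : ℝ) + 1) ^ 5 := pow_le_pow_left₀ (by norm_num) (by linarith) 5
    have : ((e : ℝ) + 1) ^ 6 = ((e : ℝ) + 1) ^ 5 * (e + 1) := by ring
    rw [this]
    nlinarith
  have h3 : Real.log 2 ≤ Real.log ((e : ℝ) + 1) := Real.log_le_log (by norm_num) (by linarith)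
  have h4 := Real.log_two_gt_d9
  have h5 := Real.add_one_le_exp (Real.log ((e : ℝ) + 1) / 20)
  rw [h1]
  linarith

theorem bad_count {A : ℕ} (hA : A ≠ 0) (P : ℕ) :
    ((A.divisors.filter (fun u => wU A P u ≤ wT A P / 30)).card : ℝ) ≤
      smallD A P * Real.exp (wT A P / 4) := by
  classical
  set c : ℕ → ℝ := fun p => if P ≤ p then Real.exp (-6 * wt A p) else 1 with hc
  have hcu : ∀ u ∈ A.divisors, ∏ p ∈ u.primeFactors, c p = Real.exp (-6 * wU A P u) := by
    intro u hu
    have hu0 : u ≠ 0 := (Nat.pos_of_mem_divisors hu).ne'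
    have hud : u ∣ A := Nat.dvd_of_mem_divisors hu
    rw [wU, mul_sum, Real.exp_sum, hc]
    simp only
    rw [prod_ite, prod_const_one, mul_one]
    refine prod_congr ?_ fun _ _ => rfl
    ext p
    simp only [bigP, mem_filter, Nat.mem_primeFactors]
    constructor
    · rintro ⟨⟨h1, h2, -⟩, h3⟩
      exact ⟨⟨⟨h1, h2.trans hud, hA⟩, h3⟩, h2⟩
    · rintro ⟨⟨⟨h1, -, -⟩, h3⟩, h2⟩
      exact ⟨⟨h1, h2, hu0⟩, h3⟩
  have h1 : ((A.divisors.filter (fun u => wU A P u ≤ wT A P / 30)).card : ℝ) ≤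
      Real.exp (wT A P / 5) * ∑ u ∈ A.divisors, ∏ p ∈ u.primeFactors, c p := by
    rw [mul_sum, card_filter]
    push_cast
    refine sum_le_sum fun u hu => ?_
    rw [hcu u hu, ← Real.exp_add]
    split_ifs with h
    · exact Real.one_le_exp (by linarith)
    · exact (Real.exp_pos _).le
  rw [sum_div_prod c hA, ← prod_filter_not_mul_prod_filter A.primeFactors (P ≤ ·)] at h1
  have h2 : ∏ p ∈ A.primeFactors.filter (¬ P ≤ ·), (1 + (A.factorization p : ℝ) * c p)
      = smallD A P := by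
    rw [smallD]
    push_cast
    refine prod_congr rfl fun p hp => ?_
    rw [hc]
    simp only [(mem_filter.1 hp).2, if_false]
    ring
  have h3 : ∏ p ∈ A.primeFactors.filter (P ≤ ·), (1 + (A.factorization p : ℝ) * c p)
      ≤ Real.exp (wT A P / 20) := by
    rw [wT, sum_div, Real.exp_sum, bigP]
    refine prod_le_prod (fun p _ => ?_) fun p hp => ?_
    · have : 0 ≤ c p := by
        rw [hc]; simp only; split_ifs
        · exact (Real.exp_pos _).le
        · exact zero_le_one
      positivity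
    · obtain ⟨hp1, hp2⟩ := mem_filter.1 hp
      rw [hc]
      simp only [hp2, if_true, wt]
      refine one_add_le _ ?_
      exact ((Nat.prime_of_mem_primeFactors hp1).dvd_iff_one_le_factorization hA).1
        (Nat.dvd_of_mem_primeFactors hp1)
  rw [h2] at h1
  have h4 : (0 : ℝ) < smallD A P := by exact_mod_cast smallD_pos A P
  calc _ ≤ _ := h1
    _ ≤ Real.exp (wT A P / 5) * (smallD A P * Real.exp (wT A P / 20)) := by
        gcongr
    _ = smallD A P * Real.exp (wT A P / 4) := by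
        rw [show wT A P / 4 = wT A P / 5 + wT A P / 20 by ring, Real.exp_add]; ring

theorem bad_count' {A : ℕ} (hA : A ≠ 0) (P : ℕ) :
    ((A.divisors.filter (fun u => wU A P (A / u) ≤ wT A P / 30)).card : ℝ) ≤
      smallD A P * Real.exp (wT A P / 4) := by
  classical
  have := Nat.sum_div_divisors A (fun u => if wU A P u ≤ wT A P / 30 then 1 else 0)
  rw [card_filter, this, ← card_filter]
  exact bad_count hA P

theorem averaging {A P : ℕ} (S : Finset ℕ) (m : ℝ)
    (h : ∀ p ∈ bigP A P, ∀ q ∈ bigP A P,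
      ((S.filter (fun u => p ∣ u ∧ q ∣ A / u)).card : ℝ) ≤ m) (hm : 0 ≤ m) :
    ((S.filter (fun u => wT A P / 30 < wU A P u ∧ wT A P / 30 < wU A P (A / u))).card : ℝ)
      ≤ 900 * m := by
  classical
  set G := S.filter (fun u => wT A P / 30 < wU A P u ∧ wT A P / 30 < wU A P (A / u)) with hG
  have hW0 : 0 ≤ wT A P := sum_nonneg fun p _ => wt_nonneg A p
  have hU0 : ∀ u, 0 ≤ wU A P u := fun u => sum_nonneg fun p _ => wt_nonneg A p
  have hUW : ∀ u, wU A P u ≤ wT A P := fun u =>
    sum_le_sum_of_subset_of_nonneg (filter_subset _ _) fun p _ _ => wt_nonneg A p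
  rcases G.eq_empty_or_nonempty with hE | ⟨u0, hu0⟩
  · rw [hE]; simp; positivity
  have hWpos : 0 < wT A P := by
    have := (mem_filter.1 hu0).2.1
    have := hUW u0
    linarith
  have h1 : (G.card : ℝ) * (wT A P / 30) ^ 2 ≤ ∑ u ∈ S, wU A P u * wU A P (A / u) := by
    calc (G.card : ℝ) * (wT A P / 30) ^ 2 = ∑ _u ∈ G, (wT A P / 30) ^ 2 := by
          rw [sum_const, nsmul_eq_mul]
      _ ≤ ∑ u ∈ G, wU A P u * wU A P (A / u) := by
          refine sum_le_sum fun u hu => ?_
          obtain ⟨-, h1, h2⟩ := mem_filter.1 hu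
          rw [sq]
          exact mul_le_mul h1.le h2.le (by positivity) (hU0 _)
      _ ≤ ∑ u ∈ S, wU A P u * wU A P (A / u) :=
          sum_le_sum_of_subset_of_nonneg (filter_subset _ _)
            fun u _ _ => mul_nonneg (hU0 _) (hU0 _)
  have h2 : ∑ u ∈ S, wU A P u * wU A P (A / u) =
      ∑ p ∈ bigP A P, ∑ q ∈ bigP A P,
        wt A p * wt A q * ((S.filter (fun u => p ∣ u ∧ q ∣ A / u)).card : ℝ) := by
    have : ∀ u ∈ S, wU A P u * wU A P (A / u) =
        ∑ p ∈ bigP A P, ∑ q ∈ bigP A P,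
          wt A p * wt A q * (if p ∣ u ∧ q ∣ A / u then 1 else 0) := by
      intro u _
      rw [wU, wU, sum_filter, sum_filter, sum_mul_sum]
      refine sum_congr rfl fun p _ => sum_congr rfl fun q _ => ?_
      by_cases h1 : p ∣ u <;> by_cases h2 : q ∣ A / u <;> simp [h1, h2]
    rw [sum_congr rfl this, sum_comm]
    refine sum_congr rfl fun p _ => ?_
    rw [sum_comm]
    refine sum_congr rfl fun q _ => ?_
    rw [← mul_sum, card_filter]
    push_cast
    rfl
  have h3 : ∑ p ∈ bigP A P, ∑ q ∈ bigP A P,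
        wt A p * wt A q * ((S.filter (fun u => p ∣ u ∧ q ∣ A / u)).card : ℝ) ≤
      wT A P ^ 2 * m := by
    rw [sq, wT, sum_mul_sum, sum_mul]
    refine sum_le_sum fun p hp => ?_
    rw [sum_mul]
    refine sum_le_sum fun q hq => ?_
    exact mul_le_mul_of_nonneg_left (h p hp q hq) (mul_nonneg (wt_nonneg _ _) (wt_nonneg _ _))
  have h4 : (G.card : ℝ) * (wT A P / 30) ^ 2 ≤ wT A P ^ 2 * m := by linarith
  have h5 : 0 < wT A P ^ 2 := by positivity
  have h6 : (G.card : ℝ) * wT A P ^ 2 ≤ (900 * m) * wT A P ^ 2 := by nlinarith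
  exact le_of_mul_le_mul_right h6 h5

theorem smallD_le {A : ℕ} (hA : A ≠ 0) (P t : ℕ) (hAt : A ≤ 2 ^ t) :
    smallD A P ≤ (t + 1) ^ P := by
  have h1 : smallD A P ≤ (t + 1) ^ (A.primeFactors.filter (¬ P ≤ ·)).card := by
    rw [smallD]
    refine prod_le_pow_card _ _ _ fun p hp => ?_
    have hpp := Nat.prime_of_mem_primeFactors (mem_filter.1 hp).1
    have h2 : p ^ A.factorization p ≤ A := Nat.ordProj_le p hA
    have h3 : 2 ^ A.factorization p ≤ p ^ A.factorization p :=
      Nat.pow_le_pow_left hpp.two_le _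
    have h4 : A.factorization p ≤ t :=
      (Nat.pow_le_pow_iff_right (by norm_num : 1 < 2)).1 (h3.trans (h2.trans hAt))
    omega
  have h2 : (A.primeFactors.filter (¬ P ≤ ·)).card ≤ P := by
    calc _ ≤ (range P).card := card_le_card fun p hp => by
            have := (mem_filter.1 hp).2
            rw [mem_range]; omega
      _ = P := card_range P
  exact h1.trans (Nat.pow_le_pow_right (Nat.succ_pos _) h2)

end Pool.Agent.MP_22d5c4_co
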