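import Pool.Agent.MP_22d5c4_co.NT2

namespace Pool.Agent.MP_22d5c4_co

open Finset

theorem odd_pow_inj {i j x y : ℕ} (hx : Odd x) (hy : Odd y) (h : 2 ^ i * x = 2 ^ j * y) :
    i = j ∧ x = y := by
  have key : ∀ {i j x y : ℕ}, Odd x → i < j → 2 ^ i * x = 2 ^ j * y → False := by
    intro i j x y hx hij h
    obtain ⟨k, rfl⟩ := Nat.exists_eq_add_of_lt hij
    have : x = 2 * (2 ^ k * y) := by
      have h2 : 2 ^ i * x = 2 ^ i * (2 * (2 ^ k * y)) := by rw [h]; ring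
      exact Nat.eq_of_mul_eq_mul_left (by positivity) h2
    rw [this] at hx
    exact absurd hx (by simp)
  have hij : i = j := by
    rcases lt_trichotomy i j with h1 | h1 | h1
    · exact (key hx h1 h).elim
    · exact h1
    · exact (key hy h1 h.symm).elim
  subst hij
  exact ⟨rfl, Nat.eq_of_mul_eq_mul_left (by positivity) h⟩

theorem exchange {A X C a p q : ℕ} (hA : Odd A) (hC : 1 ≤ C) (T : Finset ℕ)
    (hp : C * 2 ^ a ≤ p) (hq : C * 2 ^ a ≤ q)
    (hT : ∀ u ∈ T, (u ∣ A ∧ u ≤ X ∧ A / u ≤ X) ∧ p ∣ u ∧ q ∣ A / u) (hne : T.Nonempty) :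
    ∃ (B : ℕ) (S' : Finset ℕ), 0 < B ∧ S'.card = (a + 1) * T.card ∧
      ∀ u ∈ S', u ∣ B ∧ u ≤ X / C ∧ B / u ≤ X / C := by
  classical
  have hA0 : 0 < A := hA.pos
  have hp0 : 0 < p := lt_of_lt_of_le (by positivity) hp
  have hq0 : 0 < q := lt_of_lt_of_le (by positivity) hq
  have hdec : ∀ u ∈ T, A = p * q * ((u / p) * (A / u / q)) := by
    intro u hu
    obtain ⟨⟨h1, -, -⟩, h2, h3⟩ := hT u hu
    calc A = u * (A / u) := (Nat.mul_div_cancel' h1).symm
      _ = (p * (u / p)) * (q * (A / u / q)) := by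
          rw [Nat.mul_div_cancel' h2, Nat.mul_div_cancel' h3]
      _ = _ := by ring
  have hdiv : ∀ u ∈ T, A / (p * q) = (u / p) * (A / u / q) := by
    intro u hu
    exact Nat.div_eq_of_eq_mul_right (by positivity) (hdec u hu)
  have hodd : ∀ u ∈ T, Odd (u / p) := by
    intro u hu
    refine Odd.of_dvd_nat hA ?_
    exact ⟨p * q * (A / u / q), by rw [hdec u hu]; rw [← hdec u hu]; nth_rewrite 1 [hdec u hu]; ring⟩
  have hB0 : 0 < A / (p * q) := by
    obtain ⟨u, hu⟩ := hne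
    refine Nat.pos_of_ne_zero fun h0 => ?_
    have := hdec u hu
    rw [← hdiv u hu, h0] at this
    omega
  refine ⟨2 ^ a * (A / (p * q)),
    ((range (a + 1)) ×ˢ T).image (fun x => 2 ^ x.1 * (x.2 / p)), by positivity, ?_, ?_⟩
  · rw [card_image_of_injOn, card_product, card_range]
    rintro ⟨i, u⟩ hx ⟨j, v⟩ hy h
    simp only [coe_product, Set.mem_prod, mem_coe] at hx hy
    obtain ⟨h1, h2⟩ := odd_pow_inj (hodd u hx.2) (hodd v hy.2) h
    have hu := (hT u hx.2).2.1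
    have hv := (hT v hy.2).2.1
    have : u = v := by
      rw [← Nat.mul_div_cancel' hu, ← Nat.mul_div_cancel' hv, h2]
    simp only at h1
    rw [h1, this]
  · intro w hw
    obtain ⟨⟨j, u⟩, hx, rfl⟩ := mem_image.1 hw
    obtain ⟨hj, hu⟩ := mem_product.1 hx
    simp only at hj hu ⊢
    have hja : j ≤ a := by rw [mem_range] at hj; omega
    obtain ⟨k, rfl⟩ := Nat.exists_eq_add_of_le hja
    have hB : 2 ^ (j + k) * (A / (p * q)) = (2 ^ j * (u / p)) * (2 ^ k * (A / u / q)) := by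
      rw [hdiv u hu]; ring
    have hpos : 0 < 2 ^ j * (u / p) := by
      have := (hodd u hu).pos
      positivity
    obtain ⟨⟨-, h1, h2⟩, h3, h4⟩ := hT u hu
    refine ⟨⟨_, hB⟩, ?_, ?_⟩
    · rw [Nat.le_div_iff_mul_le hC]
      calc 2 ^ j * (u / p) * C = (C * 2 ^ j) * (u / p) := by ring
        _ ≤ (C * 2 ^ (j + k)) * (u / p) := by gcongr; omega
        _ ≤ p * (u / p) := by gcongr
        _ = u := Nat.mul_div_cancel' h3
        _ ≤ X := h1
    · rw [hB, Nat.mul_div_cancel_left _ hpos, Nat.le_div_iff_mul_le hC]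
      calc 2 ^ k * (A / u / q) * C = (C * 2 ^ k) * (A / u / q) := by ring
        _ ≤ (C * 2 ^ (j + k)) * (A / u / q) := by gcongr <;> omega
        _ ≤ q * (A / u / q) := by gcongr
        _ = A / u := Nat.mul_div_cancel' h4
        _ ≤ X := h2

theorem universal (C P : ℕ) (hC : 1 ≤ C) : ∃ T0 : ℕ, ∀ X t : ℕ, T0 ≤ t → 2 ^ t ≤ X →
    2 ^ (2 * t + 2) ≤ (X / C) ^ 3 ∧
      ∃ B, 0 < B ∧ B ≤ X / C ∧ 1024 * ((2 * t + 2 + 1) ^ P) ^ 4 ≤ B.divisors.card := by
  obtain ⟨Q, hQ, hQr⟩ := exists_many_div (4 * P + 1)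
  set E := 2 * Q + 2 * C + 3 with hE
  set R := 1024 * E ^ (4 * P) with hR
  refine ⟨3 * C + 2 + Q * R, fun X t ht hX => ?_⟩
  have hCt : C ≤ t := by omega
  have hY : 2 ^ (t - C) ≤ X / C := by
    rw [Nat.le_div_iff_mul_le hC]
    calc 2 ^ (t - C) * C ≤ 2 ^ (t - C) * 2 ^ C := by
          gcongr; exact Nat.lt_two_pow_self.le
      _ = 2 ^ t := by rw [← pow_add]; congr 1; omega
      _ ≤ X := hX
  refine ⟨?_, Q ^ ((t - C) / Q), by positivity, ?_, ?_⟩
  · calc 2 ^ (2 * t + 2) ≤ 2 ^ ((t - C) * 3) := Nat.pow_le_pow_right (by norm_num) (by omega)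
      _ = (2 ^ (t - C)) ^ 3 := by rw [pow_mul]
      _ ≤ _ := by gcongr
  · calc Q ^ ((t - C) / Q) ≤ (2 ^ Q) ^ ((t - C) / Q) := by
          gcongr; exact Nat.lt_two_pow_self.le
      _ = 2 ^ (Q * ((t - C) / Q)) := by rw [pow_mul]
      _ ≤ 2 ^ (t - C) := Nat.pow_le_pow_right (by norm_num) (Nat.mul_div_le _ _)
      _ ≤ _ := hY
  · refine le_trans ?_ (hQr _)
    set r := (t - C) / Q with hr
    have h1 : R ≤ r := by
      rw [hr, Nat.le_div_iff_mul_le hQ, mul_comm]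
      omega
    have h2 : t - C < Q * (r + 1) := by
      rw [hr]; exact Nat.lt_mul_div_succ _ hQ
    have h3 : 2 * t + 2 + 1 ≤ E * (r + 1) := by
      have : E * (r + 1) = 2 * (Q * (r + 1)) + (2 * C + 3) * r + 2 * C + 3 := by rw [hE]; ring
      omega
    calc 1024 * ((2 * t + 2 + 1) ^ P) ^ 4 ≤ 1024 * ((E * (r + 1)) ^ P) ^ 4 := by gcongr
      _ = R * (r + 1) ^ (4 * P) := by rw [hR, mul_pow]; ring
      _ ≤ (r + 1) * (r + 1) ^ (4 * P) := by gcongr; omega
      _ = (r + 1) ^ (4 * P + 1) := by ring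

theorem nt_main (C : ℕ) (hC : 1 ≤ C) : ∃ X0 : ℕ, ∀ (A X : ℕ) (S : Finset ℕ), Odd A → X0 ≤ X →
    (∀ u ∈ S, u ∣ A ∧ u ≤ X ∧ A / u ≤ X) → S.Nonempty →
    ∃ (B : ℕ) (S' : Finset ℕ), 0 < B ∧ S.card ≤ S'.card ∧
      ∀ u ∈ S', u ∣ B ∧ u ≤ X / C ∧ B / u ≤ X / C := by
  classical
  obtain ⟨a, ha⟩ : ∃ a : ℕ, a + 1 = 1800 := ⟨1799, rfl⟩
  set P := C * 2 ^ a with hP
  obtain ⟨T0, hT0⟩ := universal C P hC
  refine ⟨2 ^ T0, fun A X S hA hX hS hne => ?_⟩
  have hA0 : A ≠ 0 := hA.pos.ne'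
  have hSpos : 0 < S.card := card_pos.2 hne
  by_cases hcase : ∃ p ∈ bigP A P, ∃ q ∈ bigP A P,
      S.card ≤ (a + 1) * (S.filter (fun u => p ∣ u ∧ q ∣ A / u)).card
  · obtain ⟨p, hp, q, hq, hle⟩ := hcase
    have hne' : (S.filter (fun u => p ∣ u ∧ q ∣ A / u)).Nonempty := by
      rw [← card_pos]
      refine Nat.pos_of_ne_zero fun h0 => ?_
      rw [h0] at hle
      omega
    obtain ⟨B, S', hB, hcard, hS'⟩ := exchange (X := X) (a := a) hA hC _ (mem_filter.1 hp).2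
      (mem_filter.1 hq).2 (fun u hu => ⟨hS u (mem_filter.1 hu).1, (mem_filter.1 hu).2⟩) hne'
    exact ⟨B, S', hB, hcard ▸ hle, hS'⟩
  · push Not at hcase
    have hav := averaging (A := A) (P := P) S ((S.card : ℝ) / 1800) (fun p hp q hq => by
      have h1 := (hcase p hp q hq).le
      rw [ha] at h1
      have h2 : (1800 : ℝ) * ((S.filter (fun u => p ∣ u ∧ q ∣ A / u)).card : ℝ) ≤ S.card := by
        exact_mod_cast h1
      linarith) (by positivity)
    have hb1 := bad_count hA0 P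
    have hb2 := bad_count' hA0 P
    have hsub : S ⊆ S.filter (fun u => wT A P / 30 < wU A P u ∧ wT A P / 30 < wU A P (A / u)) ∪
        (A.divisors.filter (fun u => wU A P u ≤ wT A P / 30) ∪
          A.divisors.filter (fun u => wU A P (A / u) ≤ wT A P / 30)) := by
      intro u hu
      have hud : u ∈ A.divisors := Nat.mem_divisors.2 ⟨(hS u hu).1, hA0⟩
      simp only [mem_union, mem_filter]
      by_cases h1 : wU A P u ≤ wT A P / 30
      · exact Or.inr (Or.inl ⟨hud, h1⟩)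
      · by_cases h2 : wU A P (A / u) ≤ wT A P / 30
        · exact Or.inr (Or.inr ⟨hud, h2⟩)
        · exact Or.inl ⟨hu, not_le.1 h1, not_le.1 h2⟩
    have hc1 := (card_le_card hsub).trans ((card_union_le _ _).trans
      (Nat.add_le_add_left (card_union_le _ _) _))
    have hc2 : (S.card : ℝ) ≤ 4 * (smallD A P * Real.exp (wT A P / 4)) := by
      have : (S.card : ℝ) ≤ ((S.filter (fun u => wT A P / 30 < wU A P u ∧
          wT A P / 30 < wU A P (A / u))).card : ℝ) +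
          (((A.divisors.filter (fun u => wU A P u ≤ wT A P / 30)).card : ℝ) +
          ((A.divisors.filter (fun u => wU A P (A / u) ≤ wT A P / 30)).card : ℝ)) := by
        exact_mod_cast hc1
      linarith
    have hX0 : X ≠ 0 := by
      have : 0 < 2 ^ T0 := by positivity
      omega
    set t := Nat.log 2 X with ht
    have ht1 : 2 ^ t ≤ X := Nat.pow_log_le_self 2 hX0
    have ht2 : X < 2 ^ (t + 1) := Nat.lt_pow_succ_log_self (by norm_num) X
    have ht3 : T0 ≤ t := Nat.le_log_of_pow_le (by norm_num) hX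
    obtain ⟨hY3, B1, hB1, hB1Y, hB1c⟩ := hT0 X t ht3 ht1
    have hAX : A ≤ 2 ^ (2 * t + 2) := by
      obtain ⟨u, hu⟩ := hne
      obtain ⟨h1, h2, h3⟩ := hS u hu
      calc A = u * (A / u) := (Nat.mul_div_cancel' h1).symm
        _ ≤ 2 ^ (t + 1) * 2 ^ (t + 1) := Nat.mul_le_mul (by omega) (by omega)
        _ = 2 ^ (2 * t + 2) := by ring
    have hY1 : 1 ≤ X / C := hB1.trans_le hB1Y
    obtain ⟨B0, hB0, hmax⟩ := exists_max_image (Icc 1 (X / C)) (fun B => B.divisors.card)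
      ⟨1, by simp [hY1]⟩
    rw [mem_Icc] at hB0
    set g := B0.divisors.card with hg
    have hgB : ∀ B, 0 < B → B ≤ X / C → B.divisors.card ≤ g :=
      fun B h1 h2 => hmax B (mem_Icc.2 ⟨h1, h2⟩)
    have hdA := pack hY1 hgB 2 A hA.pos (hAX.trans hY3)
    have hL := smallD_le hA0 P _ hAX
    have hLg : 1024 * smallD A P ^ 4 ≤ g :=
      le_trans (by gcongr) (hB1c.trans (hgB B1 hB1 hB1Y))
    have hL1 : (1 : ℝ) ≤ smallD A P := by exact_mod_cast smallD_pos A P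
    have hexp : Real.exp (wT A P) ≤ 4 * (g : ℝ) ^ 3 := by
      have h1 : (A.divisors.card : ℝ) ≤ g * (2 * g) ^ 2 := by exact_mod_cast hdA
      rw [card_div_eq hA0 P] at h1
      have h2 := Real.exp_pos (wT A P)
      nlinarith
    have hN : (S.card : ℝ) ^ 4 ≤ (g : ℝ) ^ 4 := by
      have h1 : (1024 : ℝ) * (smallD A P : ℝ) ^ 4 ≤ g := by exact_mod_cast hLg
      have h2 : Real.exp (wT A P / 4) ^ 4 = Real.exp (wT A P) := by
        rw [← Real.exp_nat_mul]; congr 1; push_cast; ring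
      calc (S.card : ℝ) ^ 4 ≤ (4 * (smallD A P * Real.exp (wT A P / 4))) ^ 4 := by gcongr
        _ = 256 * (smallD A P : ℝ) ^ 4 * Real.exp (wT A P) := by rw [← h2]; ring
        _ ≤ 256 * (smallD A P : ℝ) ^ 4 * (4 * (g : ℝ) ^ 3) := by gcongr
        _ = (1024 * (smallD A P : ℝ) ^ 4) * (g : ℝ) ^ 3 := by ring
        _ ≤ g * (g : ℝ) ^ 3 := by gcongr
        _ = (g : ℝ) ^ 4 := by ring
    have hN' : S.card ≤ g := by
      have : (S.card : ℝ) ≤ g := le_of_pow_le_pow_left₀ (by norm_num) (by positivity) hN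
      exact_mod_cast this
    refine ⟨B0, B0.divisors, hB0.1, hN', fun u hu => ?_⟩
    exact ⟨Nat.dvd_of_mem_divisors hu, (Nat.divisor_le hu).trans hB0.2,
      (Nat.div_le_self _ _).trans hB0.2⟩

end Pool.Agent.MP_22d5c4_co
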