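import Pool.Agent.MP_22d5c4_co.Geo2
import Pool.Agent.MP_22d5c4_co.Dig

namespace Pool.Agent.MP_22d5c4_co.K

open Finset

set_option maxRecDepth 100000

/-- a competing configuration with at least `c` points on the line and diameter below `D` -/
def Cmp (c D : ℕ) : Prop := ∃ B S D', 0 < B ∧ c ≤ S.card ∧ D' < D ∧ Conf B S D'

theorem Cmp.mono {c c' D D' : ℕ} (h : Cmp c D) (h1 : c' ≤ c) (h2 : D ≤ D') : Cmp c' D' := by
  obtain ⟨B, S, E, a1, a2, a3, a4⟩ := h
  exact ⟨B, S, E, a1, h1.trans a2, a3.trans_le h2, a4⟩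

def tb (E B : ℕ) (l : List ℕ) : ℕ × ℕ × List ℕ := (E, B, l)

def etb : List (ℕ × ℕ × List ℕ) := [
  tb 0 1 [],
  tb 0 1 [],
  tb 0 1 [],
  tb 0 1 [],
  tb 0 1 [],
  tb 15 12 [1, 2, 3, 4, 6],
  tb 20 24 [2, 3, 4, 6, 8, 12],
  tb 28 60 [3, 4, 5, 6, 10, 12, 15],
  tb 34 60 [3, 4, 5, 6, 10, 12, 15, 20],
  tb 45 60 [2, 3, 4, 5, 6, 10, 12, 15, 20],
  tb 52 120 [4, 5, 6, 8, 10, 12, 15, 20, 24, 30],
  tb 63 120 [3, 4, 5, 6, 8, 10, 12, 15, 20, 24, 30],
  tb 74 120 [3, 4, 5, 6, 8, 10, 12, 15, 20, 24, 30, 40],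
  tb 91 360 [6, 8, 9, 10, 12, 15, 18, 20, 24, 30, 36, 40, 45],
  tb 104 360 [5, 6, 8, 9, 10, 12, 15, 18, 20, 24, 30, 36, 40, 45],
  tb 121 360 [5, 6, 8, 9, 10, 12, 15, 18, 20, 24, 30, 36, 40, 45, 60],
  tb 134 360 [5, 6, 8, 9, 10, 12, 15, 18, 20, 24, 30, 36, 40, 45, 60, 72],
  tb 153 360 [4, 5, 6, 8, 9, 10, 12, 15, 18, 20, 24, 30, 36, 40, 45, 60, 72],
  tb 164 720 [8, 9, 10, 12, 15, 16, 18, 20, 24, 30, 36, 40, 45, 48, 60, 72, 80, 90],
  tb 196 720 [6, 8, 9, 10, 12, 15, 16, 18, 20, 24, 30, 36, 40, 45, 48, 60, 72, 80, 90],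
  tb 212 1680 [14, 15, 16, 20, 21, 24, 28, 30, 35, 40, 42, 48, 56, 60, 70, 80, 84, 105, 112, 120],
  tb 228 2520 [18, 20, 21, 24, 28, 30, 35, 36, 40, 42, 45, 56, 60, 63, 70, 72, 84, 90, 105, 120, 126],
  tb 244 2520 [18, 20, 21, 24, 28, 30, 35, 36, 40, 42, 45, 56, 60, 63, 70, 72, 84, 90, 105, 120, 126, 140],
  tb 272 2520 [14, 15, 18, 20, 21, 24, 28, 30, 35, 36, 40, 42, 45, 56, 60, 63, 70, 72, 84, 90, 105, 120, 126],
  tb 288 2520 [14, 15, 18, 20, 21, 24, 28, 30, 35, 36, 40, 42, 45, 56, 60, 63, 70, 72, 84, 90, 105, 120, 126, 140],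
  tb 319 2520 [14, 15, 18, 20, 21, 24, 28, 30, 35, 36, 40, 42, 45, 56, 60, 63, 70, 72, 84, 90, 105, 120, 126, 140, 168],
  tb 332 2520 [14, 15, 18, 20, 21, 24, 28, 30, 35, 36, 40, 42, 45, 56, 60, 63, 70, 72, 84, 90, 105, 120, 126, 140, 168, 180],
  tb 364 2520 [12, 14, 15, 18, 20, 21, 24, 28, 30, 35, 36, 40, 42, 45, 56, 60, 63, 70, 72, 84, 90, 105, 120, 126, 140, 168, 180],
  tb 396 2520 [12, 14, 15, 18, 20, 21, 24, 28, 30, 35, 36, 40, 42, 45, 56, 60, 63, 70, 72, 84, 90, 105, 120, 126, 140, 168, 180, 210],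
  tb 437 2520 [9, 10, 12, 14, 15, 18, 20, 21, 24, 28, 30, 35, 36, 40, 42, 45, 56, 60, 63, 70, 72, 84, 90, 105, 120, 126, 140, 168, 180],
  tb 464 5040 [20, 21, 24, 28, 30, 35, 36, 40, 42, 45, 48, 56, 60, 63, 70, 72, 80, 84, 90, 105, 112, 120, 126, 140, 144, 168, 180, 210, 240, 252],
  tb 494 5040 [18, 20, 21, 24, 28, 30, 35, 36, 40, 42, 45, 48, 56, 60, 63, 70, 72, 80, 84, 90, 105, 112, 120, 126, 140, 144, 168, 180, 210, 240, 252],
  tb 524 5040 [18, 20, 21, 24, 28, 30, 35, 36, 40, 42, 45, 48, 56, 60, 63, 70, 72, 80, 84, 90, 105, 112, 120, 126, 140, 144, 168, 180, 210, 240, 252, 280],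
  tb 553 5040 [15, 16, 18, 20, 21, 24, 28, 30, 35, 36, 40, 42, 45, 48, 56, 60, 63, 70, 72, 80, 84, 90, 105, 112, 120, 126, 140, 144, 168, 180, 210, 240, 252],
  tb 578 5040 [14, 15, 16, 18, 20, 21, 24, 28, 30, 35, 36, 40, 42, 45, 48, 56, 60, 63, 70, 72, 80, 84, 90, 105, 112, 120, 126, 140, 144, 168, 180, 210, 240, 252],
  tb 608 5040 [14, 15, 16, 18, 20, 21, 24, 28, 30, 35, 36, 40, 42, 45, 48, 56, 60, 63, 70, 72, 80, 84, 90, 105, 112, 120, 126, 140, 144, 168, 180, 210, 240, 252, 280],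
  tb 642 5040 [15, 16, 18, 20, 21, 24, 28, 30, 35, 36, 40, 42, 45, 48, 56, 60, 63, 70, 72, 80, 84, 90, 105, 112, 120, 126, 140, 144, 168, 180, 210, 240, 252, 280, 315, 336],
  tb 667 5040 [14, 15, 16, 18, 20, 21, 24, 28, 30, 35, 36, 40, 42, 45, 48, 56, 60, 63, 70, 72, 80, 84, 90, 105, 112, 120, 126, 140, 144, 168, 180, 210, 240, 252, 280, 315, 336],
  tb 692 5040 [14, 15, 16, 18, 20, 21, 24, 28, 30, 35, 36, 40, 42, 45, 48, 56, 60, 63, 70, 72, 80, 84, 90, 105, 112, 120, 126, 140, 144, 168, 180, 210, 240, 252, 280, 315, 336, 360],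
  tb 754 5040 [12, 14, 15, 16, 18, 20, 21, 24, 28, 30, 35, 36, 40, 42, 45, 48, 56, 60, 63, 70, 72, 80, 84, 90, 105, 112, 120, 126, 140, 144, 168, 180, 210, 240, 252, 280, 315, 336, 360],
  tb 816 5040 [12, 14, 15, 16, 18, 20, 21, 24, 28, 30, 35, 36, 40, 42, 45, 48, 56, 60, 63, 70, 72, 80, 84, 90, 105, 112, 120, 126, 140, 144, 168, 180, 210, 240, 252, 280, 315, 336, 360, 420],
  tb 897 5040 [9, 10, 12, 14, 15, 16, 18, 20, 21, 24, 28, 30, 35, 36, 40, 42, 45, 48, 56, 60, 63, 70, 72, 80, 84, 90, 105, 112, 120, 126, 140, 144, 168, 180, 210, 240, 252, 280, 315, 336, 360],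
  tb 959 5040 [9, 10, 12, 14, 15, 16, 18, 20, 21, 24, 28, 30, 35, 36, 40, 42, 45, 48, 56, 60, 63, 70, 72, 80, 84, 90, 105, 112, 120, 126, 140, 144, 168, 180, 210, 240, 252, 280, 315, 336, 360, 420],
  tb 1026 10080 [18, 20, 21, 24, 28, 30, 32, 35, 36, 40, 42, 45, 48, 56, 60, 63, 70, 72, 80, 84, 90, 96, 105, 112, 120, 126, 140, 144, 160, 168, 180, 210, 224, 240, 252, 280, 288, 315, 336, 360, 420, 480, 504],
  tb 1066 15120 [27, 28, 30, 35, 36, 40, 42, 45, 48, 54, 56, 60, 63, 70, 72, 80, 84, 90, 105, 108, 112, 120, 126, 135, 140, 144, 168, 180, 189, 210, 216, 240, 252, 270, 280, 315, 336, 360, 378, 420, 432, 504, 540, 560]]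

def etl : List ℕ := [0, 0, 0, 0, 0, 15, 20, 28, 34, 45, 52, 63, 74, 91, 104, 121, 134, 153, 164, 196, 212, 228, 244, 272, 288, 319, 332, 364, 396, 437, 464, 494, 524, 553, 578, 608, 642, 667, 692, 754, 816, 897, 959, 1026, 1066]

def et (c : ℕ) : ℕ := etl.getD c 0

def rowOK (c : ℕ) (x : ℕ × ℕ × List ℕ) : Bool :=
  Nat.blt 0 x.2.1 && Nat.ble c x.2.2.length && Nat.ble x.1 (et c) && decide x.2.2.Nodup &&
    x.2.2.all (fun u => x.2.1 % u == 0 && Nat.ble (u + x.2.1 / u) x.1) &&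
    x.2.2.all (fun u => x.2.2.all fun w => Nat.ble (x.2.1 / u + w) (x.1 + x.2.1 / w + u))

theorem etb_ok : (List.range 45).all (fun c => Nat.blt c 5 || rowOK c (etb.getD c (0, 0, []))) =
    true := by decide +kernel

theorem et_ok {c : ℕ} (h1 : 5 ≤ c) (h2 : c ≤ 44) : Cmp c (et c + 1) := by
  have h := List.all_eq_true.1 etb_ok c (List.mem_range.2 (by omega))
  generalize etb.getD c (0, 0, []) = x at h
  simp only [rowOK, Bool.or_eq_true, Nat.blt_eq, Bool.and_eq_true, Nat.ble_eq,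
    decide_eq_true_eq, List.all_eq_true, beq_iff_eq] at h
  obtain ⟨⟨⟨⟨⟨a1, a2⟩, a3⟩, a4⟩, a5⟩, a6⟩ := h.resolve_left (by omega)
  refine ⟨x.2.1, x.2.2.toFinset, x.1, a1, ?_, by omega, fun u hu => ?_, fun u hu w hw => ?_⟩
  · rwa [List.toFinset_card_of_nodup a4]
  · obtain ⟨b1, b2⟩ := a5 u (List.mem_toFinset.1 hu)
    exact ⟨Nat.dvd_of_mod_eq_zero b1, b2⟩
  · exact a6 u (List.mem_toFinset.1 hu) w (List.mem_toFinset.1 hw)

noncomputable def frcA (k : List ℕ → Bool) (l : List ℕ) : List ℕ → Bool :=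
  @List.rec ℕ (fun _ => List ℕ → Bool) k (fun a _ ih acc => frc a fun a' => ih (a' :: acc)) l

theorem frcA_eq (k : List ℕ → Bool) : ∀ l acc, frcA k l acc = k (l.reverse ++ acc)
  | [], _ => rfl
  | a :: l, acc => by
    change frcA k l (a :: acc) = _
    rw [frcA_eq k l]
    simp

noncomputable def frcL (l : List ℕ) (k : List ℕ → Bool) : Bool := frcA k l []

theorem frcL_eq (l : List ℕ) (k : List ℕ → Bool) : frcL l k = k l.reverse := by
  simp [frcL, frcA_eq]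

def odds : List ℕ := [1, 3, 5, 7, 9, 11, 13, 15, 17, 19, 21, 23, 25, 27, 29, 31, 33, 35, 37, 39, 41, 43, 45, 47, 49, 51, 53, 55, 57, 59, 61, 63]

def dvs (n : ℕ) (l : List ℕ) : List ℕ :=
  l.filter (fun i => Nat.ble (i * i) n) ++ (l.filter fun i => Nat.blt (i * i) n).map (n / ·)

theorem mem_odds : ∀ a < 64, a % 2 = 1 → a ∈ odds := by decide

theorem mem_dvs {n a : ℕ} (hn : n % 2 = 1) (hn2 : n < 4096) (h : a ∣ n) :
    a ∈ dvs n (odds.filter fun i => n % i == 0).reverse := by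
  have key : ∀ b, b ∣ n → b * b ≤ n → b ∈ (odds.filter fun i => n % i == 0).reverse := by
    intro b hb h2
    rw [List.mem_reverse, List.mem_filter, beq_iff_eq]
    refine ⟨mem_odds b (by nlinarith) ?_, Nat.mod_eq_zero_of_dvd hb⟩
    exact Nat.odd_iff.1 ((Nat.odd_iff.2 hn).of_dvd_nat hb)
  unfold dvs
  rw [List.mem_append, List.mem_filter, List.mem_map]
  by_cases hc : a * a ≤ n
  · exact Or.inl ⟨key a h hc, Nat.ble_eq_true_of_le hc⟩
  · obtain ⟨b, rfl⟩ := h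
    have hb : 0 < b := Nat.pos_of_ne_zero (by rintro rfl; simp at hn)
    have hab : b < a := by
      by_contra h3
      exact hc (Nat.mul_le_mul_left _ (by omega))
    have h4 : b * b < a * b := Nat.mul_lt_mul_of_pos_right hab hb
    refine Or.inr ⟨b, ?_, Nat.mul_div_cancel _ hb⟩
    rw [List.mem_filter, Nat.blt_eq]
    exact ⟨key b (Dvd.intro_left _ rfl) h4.le, h4⟩

noncomputable def prs (A c4 : ℕ) (L : List ℕ) : Bool :=
  L.all fun u1 => L.all fun u2 => Nat.blt u2 u1 ||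
    frc (mx (mx (u1 + A / u1) (u2 + A / u2)) (A / u1 + u2 - (A / u2 + u1))) fun m =>
      Nat.blt c4 m ||
        frc (L.filter fun u => Nat.ble u1 u && Nat.ble u u2).length fun cc =>
          Nat.ble cc 4 || Nat.blt (4 * et cc) m

noncomputable def chkk (k : ℕ) : Bool :=
  frc (2 * k + 1) fun a => frc (2 * k + 3) fun b => frc (a * b) fun A =>
  frcL (odds.filter fun i => a % i == 0) fun la => frcL (odds.filter fun i => b % i == 0) fun lb =>
  frcL (dvs b lb) fun db =>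
  frcL (((dvs a la).flatMap fun x => db.map (x * ·)).filter fun u => Nat.ble (u + A / u) 8000)
    fun L => frc L.length fun c => Nat.ble c 4 ||
      (Nat.ble c 44 && frc (et c) fun e => Nat.ble e k || frc (4 * e) fun c4 => prs A c4 L)

theorem chkk_sound {k D : ℕ} (h : chkk k = true) (hk : k + 1 ≤ D) (hD : D ≤ 2000)
    {S : Finset ℕ} (hS : Conf ((2 * k + 1) * (2 * k + 3)) S (4 * D)) (h5 : 5 ≤ S.card) :
    Cmp S.card D := by
  simp only [chkk, frc_eq, frcL_eq] at h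
  obtain ⟨L, hL⟩ : ∃ L, L = (((dvs (2 * k + 1)
      (odds.filter fun i => (2 * k + 1) % i == 0).reverse).flatMap fun x =>
        (dvs (2 * k + 3) (odds.filter fun i => (2 * k + 3) % i == 0).reverse).reverse.map
          (x * ·)).filter
      fun u => Nat.ble (u + (2 * k + 1) * (2 * k + 3) / u) 8000).reverse := ⟨_, rfl⟩
  rw [← hL] at h
  have hmem : ∀ u ∈ S, u ∈ L := by
    intro u hu
    obtain ⟨h1, h2⟩ := hS.1 u hu
    obtain ⟨x, y, hx, hy, rfl⟩ := Nat.dvd_mul.1 h1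
    rw [hL, List.mem_reverse, List.mem_filter, List.mem_flatMap, Nat.ble_eq]
    refine ⟨⟨x, mem_dvs (by omega) (by omega) hx, List.mem_map.2 ⟨y, ?_, rfl⟩⟩, by omega⟩
    exact List.mem_reverse.2 (mem_dvs (by omega) (by omega) hy)
  clear hL
  generalize (2 * k + 1) * (2 * k + 3) = A at h hS
  have hcard : ∀ l : List ℕ, (∀ u ∈ S, u ∈ l) → S.card ≤ l.length := fun l hl =>
    (card_le_card fun u hu => List.mem_toFinset.2 (hl u hu)).trans (List.toFinset_card_le l)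
  have hc := hcard L hmem
  simp only [Bool.or_eq_true, Bool.and_eq_true, Nat.ble_eq] at h
  obtain ⟨h44, h⟩ := h.resolve_left (by omega)
  have he := et_ok (by omega) h44
  rcases h with h | h
  · exact he.mono hc (by omega)
  have hne : S.Nonempty := card_pos.1 (by omega)
  have m1 := S.min'_mem hne
  have m2 := S.max'_mem hne
  simp only [prs, List.all_eq_true, frc_eq, Bool.or_eq_true, Nat.blt_eq, Nat.ble_eq, mx_eq] at h
  have h1 := h _ (hmem _ m1) _ (hmem _ m2)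
  have a1 := (hS.1 _ m1).2
  have a2 := (hS.1 _ m2).2
  have a3 := hS.2 _ m1 _ m2
  have a4 := S.min'_le_max' hne
  have a5 := hcard (L.filter fun u => Nat.ble (S.min' hne) u && Nat.ble u (S.max' hne))
    fun u hu => by
      rw [List.mem_filter, Bool.and_eq_true, Nat.ble_eq, Nat.ble_eq]
      exact ⟨hmem u hu, S.min'_le u hu, S.le_max' u hu⟩
  have a6 := List.length_filter_le
    (fun u => Nat.ble (S.min' hne) u && Nat.ble u (S.max' hne)) L
  rcases h1 with h1 | h1 | h1 | h1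
  · omega
  · exact he.mono hc (by omega)
  · omega
  · exact (et_ok (by omega) (a6.trans h44)).mono a5 (by omega)

noncomputable def chkR (a n : ℕ) : Bool :=
  @Nat.rec (fun _ => Bool) true (fun i ih => an (frc (a + i) chkk) ih) n

theorem chkR_sound (a : ℕ) : ∀ n, chkR a n = true → ∀ k, a ≤ k → k < a + n → chkk k = true
  | 0, _, k, _, _ => by omega
  | n + 1, h, k, h1, h2 => by
    change an (frc (a + n) chkk) (chkR a n) = true at h
    rw [an_eq, frc_eq] at h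
    by_cases hc : k = a + n
    · rw [hc]; exact h.1
    · exact chkR_sound a n h.2 k h1 (by omega)

theorem sm0 : chkR 0 250 = true := by decide +kernel

theorem sm1 : chkR 250 250 = true := by decide +kernel

theorem sm2 : chkR 500 500 = true := by decide +kernel

theorem sm3 : chkR 1000 500 = true := by decide +kernel

theorem sm4 : chkR 1500 500 = true := by decide +kernel

theorem chkk_all {k : ℕ} (h : k < 2000) : chkk k = true := by
  by_cases h0 : k < 250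
  · exact chkR_sound _ _ sm0 k (by omega) (by omega)
  by_cases h1 : k < 500
  · exact chkR_sound _ _ sm1 k (by omega) (by omega)
  by_cases h2 : k < 1000
  · exact chkR_sound _ _ sm2 k (by omega) (by omega)
  by_cases h3 : k < 1500
  · exact chkR_sound _ _ sm3 k (by omega) (by omega)
  exact chkR_sound _ _ sm4 k (by omega) (by omega)

end Pool.Agent.MP_22d5c4_co.K
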