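import Pool.Agent.MP_22d5c4_co.Dfs

namespace Pool.Agent.MP_22d5c4_co.K

open Finset

def wu (S : ℕ) : ℕ → ℕ := fun p => Nat.clog 2 (p ^ S)

noncomputable def bld (K M : ℕ) (k : ℕ → ℕ → ℕ → ℕ → Bool) (l : List ((ℕ × ℕ) × ℕ)) :
    ℕ → ℕ → ℕ → ℕ → Bool :=
  @List.rec ((ℕ × ℕ) × ℕ) (fun _ => ℕ → ℕ → ℕ → ℕ → Bool) k
    (fun a _ ih d L ln C => frc a.2 fun e => frc a.1.2 fun w =>
      an (Nat.ble 1 e) <| an (Nat.ble (Nat.mul d (Nat.succ e)) M) <|
      frc (Nat.mul K w) fun kl =>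
      lp kl e C (fun e acc => frc (Nat.mul d (Nat.succ e)) fun d1 =>
        frc (Nat.add L (Nat.mul e w)) fun L1 => frc (Nat.sub ln (Nat.mul e w)) fun ln1 =>
        frc (msk acc (Nat.mul K ln1)) (ih d1 L1 ln1)) e 0 C) l

theorem bld_sound {S K Z : ℕ} (hK : 2 ≤ K) (k : ℕ → ℕ → ℕ → ℕ → Bool) :
    ∀ (l : List ((ℕ × ℕ) × ℕ)) (d L ln C A : ℕ),
      (∀ a ∈ l, a.1.1.Prime ∧ a.1.2 = wu S a.1.1) → l.Pairwise (fun a b => b.1.1 < a.1.1) →
      A ≠ 0 → (∀ a ∈ l, ¬ a.1.1 ∣ A) → d = A.divisors.card → L = lam (wu S) A →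
      Rep K C ln (Fc (wu S) A Z) → bld K (2 ^ (K - 2) - 1) k l d L ln C = true →
      ∃ B ln C, B ≠ 0 ∧ Rep K C ln (Fc (wu S) B Z) ∧
        k B.divisors.card (lam (wu S) B) ln C = true
  | [], d, L, ln, C, A, _, _, hA, _, hd, hL, hC, h => ⟨A, ln, C, hA, hC, hd ▸ hL ▸ h⟩
  | a :: l, d, L, ln, C, A, h1, h2, hA, hnd, hd, hL, hC, h => by
    have ih := bld_sound (S := S) (Z := Z) hK k l
    obtain ⟨hp1, hp2⟩ := pow_facts hK
    change frc a.2 (fun e => frc a.1.2 fun w =>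
      an (Nat.ble 1 e) <| an (Nat.ble (Nat.mul d (Nat.succ e)) (2 ^ (K - 2) - 1)) <|
      frc (Nat.mul K w) fun kl =>
      lp kl e C (fun e acc => frc (Nat.mul d (Nat.succ e)) fun d1 =>
        frc (Nat.add L (Nat.mul e w)) fun L1 => frc (Nat.sub ln (Nat.mul e w)) fun ln1 =>
        frc (msk acc (Nat.mul K ln1)) (bld K (2 ^ (K - 2) - 1) k l d1 L1 ln1)) e 0 C) = true at h
    simp only [frc_eq, an_eq, msk_eq, Nat.ble_eq, Nat.add_eq, Nat.sub_eq, Nat.mul_eq,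
      Nat.succ_eq_add_one] at h
    obtain ⟨h3, h4, h5⟩ := h
    obtain ⟨acc, b1, b2⟩ := lp_sound hC (fun i => hd ▸ Fc_le _ _ _ i) a.2 0 _
      (by rw [zero_add]; omega) (by simpa using hC) h5 a.2 (by omega) (by omega) le_rfl
    obtain ⟨hp, hw⟩ := h1 a (by simp)
    have hn := hnd a (by simp)
    rw [List.pairwise_cons] at h2
    refine ih _ _ _ _ (A * a.1.1 ^ a.2) (fun b hb => h1 b (List.mem_cons_of_mem _ hb)) h2.2
      (mul_ne_zero hA (pow_ne_zero _ hp.ne_zero)) ?_ ?_ ?_ ?_ b2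
    · intro b hb hd
      have hq := (h1 b (List.mem_cons_of_mem _ hb)).1
      rcases (Nat.Prime.dvd_mul hq).1 hd with hd | hd
      · exact hnd b (List.mem_cons_of_mem _ hb) hd
      · have := (Nat.prime_dvd_prime_iff_eq hq hp).1 (hq.dvd_of_dvd_pow hd)
        have := h2.1 b hb
        omega
    · rw [card_mul_pp hp hn, hd]
    · rw [lam_mul _ hA (pow_ne_zero _ hp.ne_zero), lam_pp _ hp, ← hw, hL]
    · intro i hi
      rw [dig_mod _ _ _ _ hi, b1 i hi, Fc_mul _ hA hp hn, ← hw]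

theorem both_le_N {S B X y : ℕ} (hS : S ≠ 0) (hB : B ≠ 0) (hX : 2 ^ (y + 3 * S) ≤ X ^ S) :
    SD B (fun u v => ind (lam (wu S) u ≤ y ∧ lam (wu S) v ≤ y)) ≤ N B (X / 8) := by
  have key : ∀ u, u ≠ 0 → lam (wu S) u ≤ y → u ≤ X / 8 := by
    intro u hu h
    rw [Nat.le_div_iff_mul_le (by norm_num)]
    refine (Nat.pow_le_pow_iff_left hS).1 (le_trans ?_ hX)
    rw [mul_pow, pow_add, pow_mul]
    exact Nat.mul_le_mul ((lam_upper S u hu).trans (Nat.pow_le_pow_right (by norm_num) h))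
      (by norm_num)
  refine SD_mono fun u v e => ind_mono fun h => ⟨key u ?_ h.1, key v ?_ h.2⟩
  · rintro rfl; simp at e; exact hB e.symm
  · rintro rfl; simp at e; exact hB e.symm

noncomputable def seg (S K T yo : ℕ) (pl : List (ℕ × ℕ)) (a n Lf : ℕ) (es : List ℕ) : Bool :=
  an (Nat.ble (3 * S) (yo + a)) <| frc (yo + a - 3 * S) fun y0 => frc (Lf - y0) fun Z =>
  frc (y0 + n) fun m => frc (ones K m <<< (K * Z)) fun C => frc (2 ^ (K - 2) - 1) fun M =>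
  frc (m + Z) fun ln0 =>
  bld K M (fun d L ln C => an (Nat.ble L (2 * y0)) <| an (Nat.ble L (y0 + Z)) <|
      an (Nat.ble (y0 + Z - L + n) ln) <| an (Nat.ble d M) <|
      frc (ones K n) fun O => frc (O <<< (K - 1)) fun H =>
      Nat.beq ((2 * (C >>> (K * (y0 + Z - L))) + T >>> (K * a) + (M + 2 - d) * O) &&& H) H)
    (pl.zip es).reverse 1 0 ln0 C

theorem pairwise_zip {α β : Type} {R : α → α → Prop} : ∀ (l : List α) (m : List β),
    l.Pairwise R → (l.zip m).Pairwise fun a b => R a.1 b.1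
  | [], _, _ => by simp
  | _ :: _, [], _ => by simp
  | a :: l, b :: m, h => by
    rw [List.pairwise_cons] at h
    rw [List.zip_cons_cons, List.pairwise_cons]
    exact ⟨fun c hc => h.1 _ (List.of_mem_zip hc).1, pairwise_zip l m h.2⟩

def PlB (S : ℕ) (pl : List (ℕ × ℕ)) : Prop :=
  (∀ a ∈ pl, a.1.Prime ∧ a.2 = wu S a.1) ∧ pl.Pairwise fun a b => a.1 < b.1

theorem rep_init {K Z m : ℕ} (hK : 2 ≤ K) (w : ℕ → ℕ) :
    Rep K (ones K m * 2 ^ (K * Z)) (m + Z) (Fc w 1 Z) := by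
  intro i hi
  rw [dig_shl, Fc_one, ind]
  split_ifs with h1
  · have := dig_ones (K := K) (c := 1) (by omega) (Nat.one_lt_two_pow (by omega))
      m (i - Z) (by omega)
    rwa [one_mul] at this
  · rfl

theorem seg_sound {S K T yo a n Lf : ℕ} {pl : List (ℕ × ℕ)} {es : List ℕ} (hS : S ≠ 0)
    (hK : 2 ≤ K) (hpl : PlB S pl) (hT : ∀ j < a + n, dig K T j ≤ 2 ^ (K - 2) - 1)
    (h : seg S K T yo pl a n Lf es = true) :
    ∀ j, a ≤ j → j < a + n → Ach S (yo + j) (2 ^ (K - 2) - 1 - dig K T j) := by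
  intro j hj1 hj2 X hX
  obtain ⟨hp1, hp2⟩ := pow_facts hK
  simp only [seg, frc_eq, an_eq, Nat.ble_eq, Nat.shiftLeft_eq] at h
  obtain ⟨h1, h⟩ := h
  obtain ⟨B, ln, C, hB, hC, h⟩ := bld_sound (S := S) hK _ _ 1 0 _ _ 1
    (fun c hc => hpl.1 _ (List.of_mem_zip (List.mem_reverse.1 hc)).1)
    (List.pairwise_reverse.2 (pairwise_zip _ _ hpl.2)) one_ne_zero
    (fun c hc => (hpl.1 _ (List.of_mem_zip (List.mem_reverse.1 hc)).1).1.not_dvd_one)
    (by simp) (lam_one _).symm (rep_init hK _) h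
  simp only [an_eq, Nat.ble_eq, Nat.beq_eq, Nat.shiftRight_eq_div_pow] at h
  generalize 2 ^ (K - 2) - 1 = M at *
  obtain ⟨y0, hy0⟩ : ∃ y0, y0 = yo + a - 3 * S := ⟨_, rfl⟩
  rw [← hy0] at h hC
  generalize Lf - y0 = Z at h hC
  obtain ⟨h2, h3, h4, h5, h6⟩ := h
  have hv := vec_ge (by omega) h6 (j - a) (by omega)
  have hb : ∀ i < n, dig K (C / 2 ^ (K * (y0 + Z - lam (wu S) B))) i =
      Fc (wu S) B Z (i + (y0 + Z - lam (wu S) B)) := by
    intro i hi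
    rw [dig_shift]
    exact hC _ (by omega)
  rw [dig_comb (by omega) ?_ _ (by omega), hb _ (by omega), dig_shift] at hv
  · refine ⟨B, Nat.pos_of_ne_zero hB, le_trans ?_ (both_le_N (y := y0 + (j - a)) hS hB ?_)⟩
    · have a2 := both_le (wu S) (Z := Z) (x := y0 + (j - a)) hB (by omega) (by omega)
      rw [show j - a + (y0 + Z - lam (wu S) B) = y0 + (j - a) + Z - lam (wu S) B by omega,
        show j - a + a = j by omega] at hv
      omega
    · rwa [show y0 + (j - a) + 3 * S = yo + j by omega]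
  · intro i hi
    rw [hb i hi, dig_shift]
    have a1 := Fc_le (wu S) B Z (i + (y0 + Z - lam (wu S) B))
    have a2 := hT (i + a) (by omega)
    omega

noncomputable def segs (S K T yo : ℕ) (pl : List (ℕ × ℕ)) (b : ℕ)
    (l : List (ℕ × ℕ × List ℕ)) : ℕ → Bool :=
  @List.rec (ℕ × ℕ × List ℕ) (fun _ => ℕ → Bool) (fun a => Nat.beq a b)
    (fun c _ ih a => an (seg S K T yo pl a c.1 c.2.1 c.2.2) (frc (a + c.1) ih)) l

theorem segs_sound {S K T yo b : ℕ} {pl : List (ℕ × ℕ)} (hS : S ≠ 0)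
    (hK : 2 ≤ K) (hpl : PlB S pl) (hT : ∀ j < b, dig K T j ≤ 2 ^ (K - 2) - 1) :
    ∀ (l : List (ℕ × ℕ × List ℕ)) (a : ℕ), segs S K T yo pl b l a = true → a ≤ b ∧
      ∀ j, a ≤ j → j < b → Ach S (yo + j) (2 ^ (K - 2) - 1 - dig K T j)
  | [], a, h => by
    have : a = b := Nat.eq_of_beq_eq_true h
    exact ⟨by omega, fun j _ _ => by omega⟩
  | c :: l, a, h => by
    change an (seg S K T yo pl a c.1 c.2.1 c.2.2) (frc (a + c.1) (segs S K T yo pl b l)) = true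
      at h
    rw [an_eq, frc_eq] at h
    obtain ⟨h1, h2⟩ := segs_sound hS hK hpl hT l _ h.2
    refine ⟨by omega, fun j hj1 hj2 => ?_⟩
    by_cases hc : j < a + c.1
    · exact seg_sound hS hK hpl (fun i hi => hT i (by omega)) h.1 j hj1 hc
    · exact h2 j (by omega) hj2

noncomputable def segsT (S K T yo : ℕ) (pl : List (ℕ × ℕ)) (a b : ℕ)
    (l : List (ℕ × ℕ × List ℕ)) : Bool :=
  frc T fun T' => segs S K T' yo pl b l a

noncomputable def digsOK (K T n : ℕ) : Bool :=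
  frc T fun T => frc (ones K n <<< (K - 1)) fun H =>
    an (Nat.beq (T &&& H) 0) (Nat.beq ((2 * T) &&& H) 0)

theorem digsOK_sound {K T n : ℕ} (hK : 2 ≤ K) (h : digsOK K T n = true) :
    ∀ j < n, dig K T j ≤ 2 ^ (K - 2) - 1 := by
  obtain ⟨hp1, hp2⟩ := pow_facts hK
  simp only [digsOK, frc_eq, an_eq, Nat.beq_eq, Nat.shiftLeft_eq] at h
  intro j hj
  have a1 := vec_lt (by omega) h.1
  have a2 := vec_lt (by omega) h.2 j hj
  rw [two_mul, dig_add K n T T (fun i hi => by have := a1 i hi; omega) j hj] at a2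
  omega

theorem segsT_sound {S K T yo a b n : ℕ} {pl : List (ℕ × ℕ)} {l : List (ℕ × ℕ × List ℕ)}
    (hS : S ≠ 0) (hK : 2 ≤ K) (hpl : PlB S pl) (hT : digsOK K T n = true) (hb : b ≤ n)
    (h : segsT S K T yo pl a b l = true) :
    ∀ j, a ≤ j → j < b → Ach S (yo + j) (2 ^ (K - 2) - 1 - dig K T j) ∧
      dig K T j ≤ 2 ^ (K - 2) - 1 := fun j h1 h2 =>
  ⟨(segs_sound hS hK hpl (fun i hi => digsOK_sound hK hT i (by omega)) l a h).2 j h1 h2,
    digsOK_sound hK hT j (by omega)⟩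

def isP (n : ℕ) : Bool := Nat.ble 2 n && (List.range n).all fun i => Nat.blt i 2 || n % i != 0

theorem isP_iff (n : ℕ) : isP n = true ↔ n.Prime := by
  simp only [isP, Bool.and_eq_true, Nat.ble_eq, List.all_eq_true, List.mem_range,
    Bool.or_eq_true, Nat.blt_eq, bne_iff_ne, ne_eq]
  rw [Nat.prime_def_lt']
  refine and_congr_right fun _ => ⟨fun h m h1 h2 hd => ?_, fun h m h1 => ?_⟩
  · rcases h m h2 with h3 | h3
    · omega
    · exact h3 (Nat.mod_eq_zero_of_dvd hd)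
  · by_cases h2 : m < 2
    · exact Or.inl h2
    · exact Or.inr fun h3 => h m (by omega) h1 (Nat.dvd_of_mod_eq_zero h3)

def plbOK (S : ℕ) (pl : List (ℕ × ℕ)) : Bool :=
  pl.all (fun a => isP a.1 && Nat.ble 1 a.2 && Nat.blt (2 ^ (a.2 - 1)) (a.1 ^ S) &&
    Nat.ble (a.1 ^ S) (2 ^ a.2)) && decide (pl.IsChain fun a b => a.1 < b.1)

theorem plbOK_sound {S : ℕ} {pl : List (ℕ × ℕ)} (h : plbOK S pl = true) : PlB S pl := by
  simp only [plbOK, Bool.and_eq_true, List.all_eq_true, isP_iff, Nat.ble_eq, Nat.blt_eq,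
    decide_eq_true_eq] at h
  refine ⟨fun a ha => ?_, ?_⟩
  · obtain ⟨⟨⟨h1, h2⟩, h3⟩, h4⟩ := h.1 a ha
    refine ⟨h1, le_antisymm ?_ ((Nat.clog_le_iff_le_pow (by norm_num)).2 h4)⟩
    have := (Nat.lt_clog_iff_pow_lt (b := 2) (by norm_num)).2 h3
    unfold wu
    omega
  · have : Trans (fun a b : ℕ × ℕ => a.1 < b.1) (fun a b : ℕ × ℕ => a.1 < b.1)
      (fun a b : ℕ × ℕ => a.1 < b.1) := ⟨fun h1 h2 => lt_trans h1 h2⟩
    exact List.isChain_iff_pairwise.1 h.2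

end Pool.Agent.MP_22d5c4_co.K
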